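import Pool.Agent.Lib.RB.Blue
import Pool.Agent.Lib.HS32.MAll

/-! Project rb9: the cut-off function for one metric. -/

open scoped Classical Topology ContDiff ComplexOrder Matrix
open Set MeasureTheory Complex Metric Filter

noncomputable section

namespace Pool.Agent.Lib.RB

open Pool.Agent.Lib.SV (E)
open Pool.Agent.Lib.HS32 Pool.Agent.Lib.HS32.Mf

namespace R95

variable {n : ℕ} {M : Mf n}

theorem gr_mul (G : M.Fam (Mat n)) {f g : M.X → ℝ} (hf : M.Sm f) (hg : M.Sm g) (w : M.X → ℝ)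
    (x : M.X) : M.gr G (fun y => f y * g y) w x = f x * M.gr G g w x + g x * M.gr G f w x := by
  have h1 := cd_diff (AllOn.ch hf.lc x)
  have h2 := cd_diff (AllOn.ch hg.lc x)
  have e : M.ev (M.ds (fun y => f y * g y) w) x =
      f x • M.ev (M.ds g w) x + g x • M.ev (M.ds f w) x := by
    ext i j
    have h3 : M.lc (fun y => f y * g y) (M.ch x) = fun z => M.lc f (M.ch x) z * M.lc g (M.ch x) z :=
      funext fun z => ofReal_mul _ _
    simp only [Mf.ev, Mf.ds, dd, Matrix.of_apply, h3, dzb_mul h1 h2, Matrix.add_apply,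
      Matrix.smul_apply, real_smul]
    simp only [Mf.lc, ch_symm]
    ring
  simp only [Mf.gr, Mf.tr, e, Matrix.mul_add, Matrix.mul_smul, Matrix.trace_add, Matrix.trace_smul,
    add_re, smul_re, smul_eq_mul]

theorem sq_mul {G : M.Fam (Mat n)} (hG : M.Met G) {a b : M.X → ℝ} (ha : M.Sm a) (hb : M.Sm b)
    (x : M.X) (a0 : 0 ≤ a x) (b0 : 0 ≤ b x) :
    √(M.gr G (fun y => a y * b y) (fun y => a y * b y) x) ≤
      b x * √(M.gr G a a x) + a x * √(M.gr G b b x) := by
  have q := fun f g hf hg => ((mLAP n M f g hf hg).2.2 G hG).2.2.1 x 0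
  have h1 := (q a b ha hb).2.2.2.2.2
  have h2 := (q b b hb hb).2.2.2.2.2.2.1
  rw [gr_mul G ha hb, (q b _ hb (ha.mul hb)).2.2.2.2.2.1, (q a _ ha (ha.mul hb)).2.2.2.2.2.1,
    gr_mul G ha hb, gr_mul G ha hb, ← h1.1]
  refine Real.sqrt_le_iff.2 ⟨by positivity, ?_⟩
  have h3 := Real.le_sqrt_of_sq_le h1.2.2.1
  rw [Real.sqrt_mul h1.2.1] at h3
  have h4 := mul_le_mul_of_nonneg_left h3 (mul_nonneg a0 b0)
  rw [add_sq, mul_pow, mul_pow, Real.sq_sqrt h1.2.1, Real.sq_sqrt h2]
  linarith

theorem young {x A g r : ℝ} (hA : 0 ≤ A) (hg : 0 ≤ g) (hr : 0 < r) (h : x ^ 2 ≤ A * g) :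
    x ≤ A / r + r * g := by
  refine (abs_le_of_sq_le_sq' (h.trans ?_) (by positivity)).2
  have e : A * g = A / r * (r * g) := by field_simp
  have h1 : 0 ≤ A / r * (r * g) := by positivity
  rw [e]
  nlinarith [sq_nonneg (A / r), sq_nonneg (r * g)]

/-- The cut-off function of one variable. -/
def kap (A t : ℝ) : ℝ := Real.smoothTransition (t / A + 2)

theorem kap_cd (A t : ℝ) : ContDiffAt ℝ ∞ (kap A) t :=
  Real.smoothTransition.contDiffAt.comp t ((contDiffAt_id.div_const A).add contDiffAt_const)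

theorem kap_ne {A t : ℝ} (hA : 0 < A) (h : kap A t ≠ 0) : -(2 * A) ≤ t := by
  by_contra h1
  refine h (Real.smoothTransition.zero_of_nonpos ?_)
  rw [← le_neg_iff_add_nonpos_right, div_le_iff₀ hA]
  linarith

theorem kap_one {A t : ℝ} (hA : 0 < A) (h : -A ≤ t) : kap A t = 1 := by
  refine Real.smoothTransition.one_of_one_le ?_
  rw [← sub_le_iff_le_add, le_div_iff₀ hA]
  linarith

theorem kap_der : ∃ K : ℝ, 0 < K ∧ ∀ A t : ℝ, 0 < A → deriv (kap A) t ^ 2 ≤ (K / A) ^ 2 ∧
    (t < -(2 * A) → deriv (kap A) t = 0) := by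
  have hc : ContDiff ℝ 1 Real.smoothTransition := Real.smoothTransition.contDiff
  have h0 : ∀ s ∉ Icc (0 : ℝ) 1, deriv Real.smoothTransition s = 0 := fun s hs => by
    rcases not_and_or.1 hs with h | h
    · have : Real.smoothTransition =ᶠ[𝓝 s] fun _ => 0 :=
        (gt_mem_nhds (not_le.1 h)).mono fun y hy => Real.smoothTransition.zero_of_nonpos hy.le
      rw [this.deriv_eq, deriv_const]
    · have : Real.smoothTransition =ᶠ[𝓝 s] fun _ => 1 :=
        (lt_mem_nhds (not_le.1 h)).mono fun y hy => Real.smoothTransition.one_of_one_le hy.le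
      rw [this.deriv_eq, deriv_const]
  obtain ⟨K, hK⟩ := (HasCompactSupport.intro isCompact_Icc h0).exists_bound_of_continuous
    (hc.continuous_deriv le_rfl)
  refine ⟨K + 1, by linarith [(norm_nonneg _).trans (hK 0)], fun A t hA => ?_⟩
  have hd : deriv (kap A) t = deriv Real.smoothTransition (t / A + 2) * (1 / A) :=
    ((hc.differentiable one_ne_zero _).hasDerivAt.comp t
      (((hasDerivAt_id t).div_const A).add_const 2)).deriv
  rw [hd, mul_one_div]
  refine ⟨?_, fun h => ?_⟩
  · rw [div_pow, div_pow]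
    refine div_le_div_of_nonneg_right (sq_le_sq' ?_ ?_) (sq_nonneg A) <;>
      linarith [abs_le.1 (hK (t / A + 2))]
  · rw [h0 _ fun h1 => ?_, zero_div]
    have := h1.1
    rw [← sub_le_iff_le_add, le_div_iff₀ hA] at this
    linarith

theorem gr_kap {G : M.Fam (Mat n)} (hG : M.Met G) {u : M.X → ℝ} (hu : M.Sm u) (A : ℝ) (x : M.X) :
    M.gr G (fun y => kap A (u y)) (fun y => kap A (u y)) x =
      deriv (kap A) (u x) ^ 2 * M.gr G u u x := by
  have hs := hu.comp fun y => kap_cd A (u y)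
  rw [(((mLAP n M u _ hu hs).2.2 G hG).2.2.2.1 _ (fun y => kap_cd A (u y)) x).2,
    (((mLAP n M u _ hu hs).2.2 G hG).2.2.1 x 0).2.2.2.2.2.1,
    (((mLAP n M u _ hu hu).2.2 G hG).2.2.2.1 _ (fun y => kap_cd A (u y)) x).2]
  ring

end R95

open R95 in
theorem st_RC1 (h0 : St_RC0) : St_RC1 := by
  intro n M _ H C hH hC
  have hM : M.Met H := hH.toMet
  obtain ⟨D, hD, h1, h2⟩ := h0 n M H C hH hC
  obtain ⟨K, hK, hk⟩ := kap_der
  obtain ⟨-, hfin, -, hV, hint, -, hGH⟩ := mMU n M H hM
  have it : ∀ f : M.X → ℝ, M.Sm f → Integrable f (M.mu H) := fun f h => hint ℝ f h.continuous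
  set V := (M.mu H).real univ
  have p1 : 0 < V + K ^ 2 * Real.exp 2 * D := by positivity
  have p2 : 0 < 2 * C * K := by positivity
  refine ⟨V + K ^ 2 * Real.exp 2 * D + 2 * C * K, add_pos p1 p2,
    fun G φ r A L hG sφ hφ φ0 φx low htr sr r0 hr hA hL => ?_⟩
  have A0 : 0 < A := one_pos.trans_le hA
  have L0 : 0 < L := one_pos.trans_le hL
  have sl := sr.log fun x => (r0 x).ne'
  have sa := sφ.comp fun y => kap_cd A (φ y)
  have sb := sl.comp fun y => kap_cd L (Real.log (r y))
  have k0 : ∀ A t, 0 ≤ kap A t := fun A t => Real.smoothTransition.nonneg _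
  have k1 : ∀ A t, kap A t ≤ 1 := fun A t => Real.smoothTransition.le_one _
  refine ⟨fun x => kap A (φ x) * kap L (Real.log (r x)), sa.mul sb, fun x =>
    ⟨mul_nonneg (k0 _ _) (k0 _ _), mul_le_one₀ (k1 _ _) (k0 _ _) (k1 _ _)⟩, fun x hx =>
    ⟨kap_ne A0 (left_ne_zero_of_mul hx), (Real.le_log_iff_exp_le (r0 x)).1
      (kap_ne L0 (right_ne_zero_of_mul hx))⟩, fun x h3 h4 => ?_, ?_⟩
  · beta_reduce
    rw [kap_one A0 h3, kap_one L0, one_mul]
    have h5 := Real.log_le_log (by norm_num) h4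
    have h6 := Real.one_sub_inv_le_log_of_pos (show (0 : ℝ) < 1 / 2 by norm_num)
    norm_num at h5 h6 ⊢
    linarith
  have gm : M.Met G := hG.toMet
  have vG : 0 < M.vv G := (mMU n M G gm).2.2.2.1
  obtain ⟨h3, h4⟩ := h2 G r hG sr r0 hr
  have h5 := (h1 φ sφ hφ φ0 φx A hA).2
  have sg := fun G hG f hf => ((mLAP n M f f hf hf).2.2 G hG).2.1
  have g0 := fun G hG f hf x => (((mLAP n M f f hf hf).2.2 G hG).2.2.1 x 0).2.2.2.2.2.2.1
  have sT : M.Sm (M.tr H G) := ((mINV n M H hM).1 G gm.toTen).2.1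
  have sd : M.Sm (M.dq H G) := ((mINV n M H hM).1 G gm.toTen).2.2.2.1
  have d0 := ((mINV n M H hM).2.2.2.2.2.2.2 G gm).1
  have sA : 0 < √A := Real.sqrt_pos.2 A0
  set c := K * Real.exp A / L with hc
  have c0 : 0 < c := by positivity
  have i1 := (it _ (((sφ.div (sm_const A) fun _ => A0.ne').exp).mul (sg H hM φ sφ))).const_mul
    (√A * ((K / A) ^ 2 * Real.exp 2))
  have i2 := (it _ sT).const_mul c
  have i3 := (it _ (sd.mul (sg G gm _ sl))).const_mul (c * (C / M.vv G))
  have i4 : Integrable (fun x => 1 / √A + √A * ((K / A) ^ 2 * Real.exp 2) *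
    (Real.exp (φ x / A) * M.gr H φ φ x)) (M.mu H) := (integrable_const _).add i1
  have i5 : Integrable (fun x => c * M.tr H G x + c * (C / M.vv G) * (M.dq H G x *
    M.gr G (fun x => Real.log (r x)) (fun x => Real.log (r x)) x)) (M.mu H) := i2.add i3
  have h6 := integral_mono (hint ℝ _ (sg H hM _ (sa.mul sb)).continuous.sqrt) (i4.add i5)
    fun x => by
      simp only [Pi.add_apply]
      refine (sq_mul hM sa sb x (k0 _ _) (k0 _ _)).trans (add_le_add ?_ ?_)
      · refine (mul_le_of_le_one_left (Real.sqrt_nonneg _) (k1 _ _)).trans ?_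
        have t0 := g0 H hM φ sφ x
        rw [mul_assoc]
        refine young zero_le_one (by positivity) sA ?_
        rw [Real.sq_sqrt (g0 H hM _ sa x), gr_kap hM sφ, one_mul, ← mul_assoc]
        refine mul_le_mul_of_nonneg_right ?_ t0
        by_cases h : φ x < -(2 * A)
        · rw [(hk A _ A0).2 h, zero_pow two_ne_zero]
          positivity
        · rw [mul_assoc, ← Real.exp_add]
          refine (hk A _ A0).1.trans (le_mul_of_one_le_right (sq_nonneg _) (Real.one_le_exp ?_))
          rw [← neg_le_iff_add_nonneg', le_div_iff₀ A0]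
          linarith
      · have t0 := g0 G gm _ sl x
        have t1 := hM.tr_nonneg gm.nonneg x
        have t2 := d0 x
        by_cases h : kap A (φ x) = 0
        · rw [h, zero_mul]
          positivity
        refine (mul_le_of_le_one_left (Real.sqrt_nonneg _) (k1 _ _)).trans
          ((young (A := c ^ 2 * M.tr H G x) (g := C / M.vv G * (M.dq H G x *
            M.gr G (fun x => Real.log (r x)) (fun x => Real.log (r x)) x)) (by positivity)
            (by positivity) c0 ?_).trans_eq (by field_simp))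
        rw [Real.sq_sqrt (g0 H hM _ sb x), gr_kap hM sl]
        have t3 : 1 ≤ Real.exp A ^ 2 * (C / M.vv G * M.dq H G x) := by
          have t4 := mul_le_mul_of_nonneg_right (Real.exp_le_exp.2 (kap_ne A0 h)) vG.le
          have t5 := mul_le_mul_of_nonneg_left (t4.trans (low x)) (Real.exp_pos (2 * A)).le
          rw [← mul_assoc, ← Real.exp_add, add_neg_cancel, Real.exp_zero, one_mul] at t5
          rw [sq, ← Real.exp_add, ← two_mul, div_mul_eq_mul_div, ← mul_div_assoc, one_le_div vG]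
          exact t5
        calc _ ≤ (K / L) ^ 2 * (M.tr H G x * M.gr G (fun x => Real.log (r x))
              (fun x => Real.log (r x)) x) :=
              mul_le_mul (hk L _ L0).1 (h4 _ sl x) (g0 H hM _ sl x) (sq_nonneg _)
          _ ≤ _ := (le_mul_of_one_le_right (by positivity) t3).trans_eq (by rw [hc]; ring)
  simp only [Pi.add_apply] at h6
  rw [integral_add i4 i5, integral_add (integrable_const _) i1, integral_add i2 i3,
    integral_const_mul, integral_const_mul, integral_const_mul, ← (hGH G gm).2.1,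
    integral_const, smul_eq_mul] at h6
  rw [Mf.mn, div_le_one vG] at h3
  have h7 := mul_le_mul_of_nonneg_left h5
    (show 0 ≤ √A * ((K / A) ^ 2 * Real.exp 2) by positivity)
  have h8 := mul_le_mul_of_nonneg_left h3 (show 0 ≤ c * (C / M.vv G) by positivity)
  have h9 := mul_le_mul_of_nonneg_left htr c0.le
  have e1 : √A * ((K / A) ^ 2 * Real.exp 2) * (D * A) = K ^ 2 * Real.exp 2 * D / √A := by
    rw [eq_div_iff sA.ne']
    have := Real.mul_self_sqrt A0.le
    field_simp
    rw [sq, this]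
  have e2 : c * (C / M.vv G) * M.vv G = c * C := by field_simp
  have e3 : 2 * C * K * Real.exp A / L = 2 * (c * C) := by rw [hc]; ring
  have e4 : 0 ≤ (V + K ^ 2 * Real.exp 2 * D) * Real.exp A / L := by positivity
  have e5 : 0 ≤ 2 * C * K / √A := by positivity
  rw [add_mul, add_div, add_div, add_div, e3]
  rw [mul_one_div] at h6
  linarith

end Pool.Agent.Lib.RB
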