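import Pool.Agent.Lib.GH.Blue
import Pool.Agent.Lib.HS32.MAll
import Pool.Agent.Lib.HS76.Pt

/-! Project rb9: the Schwarz lemma for a Hermitian target and the solvability of the twisted
equations. -/

open scoped Classical Topology ContDiff ComplexOrder Matrix
open Set MeasureTheory Complex Metric Filter

noncomputable section

namespace Pool.Agent.Lib.HS32.Mf

/-- The inequality of Chern and Lu holds for the target metric `h`. -/
def CLh {n : ℕ} (M : Mf n) (h : M.Fam (Mat n)) : Prop := ∀ G, M.Kae G →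
  M.Sm (M.tr G h) ∧ (∀ x, 0 < M.tr G h x) ∧
    ∀ x, M.ip G h (M.ric G) x / M.tr G h x ≤ M.lap G (fun y => Real.log (M.tr G h y)) x

end Pool.Agent.Lib.HS32.Mf

namespace Pool.Agent.Lib.RB

open Pool.Agent.Lib.SV (E)
open Pool.Agent.Lib.HS32 Pool.Agent.Lib.HS32.Mf Pool.Agent.Lib.HS76

variable {n : ℕ} {M : Mf n} {H h : M.Fam (Mat n)}

theorem ip_mono {G S T T' : M.Fam (Mat n)} (hG : M.Met G) (hS : M.Met S) (hT : M.Le T T')
    (x : M.X) : M.ip G S T x ≤ M.ip G S T' x :=
  tr_mul_mono (conj_inv_psd (hG.ev_pos x) (hS.ev_pos x).posSemidef) (AllOn.ch hT x)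

/-- The Ricci form of a solution. -/
theorem ric_sol {T : M.Fam (Mat n)} {u : M.X → ℝ} (hH : M.Met H)
    (hG : M.Met (T - M.ric H + M.hs u))
    (hd : ∀ x, M.dq H (T - M.ric H + M.hs u) x = Real.exp (u x)) :
    M.All fun e z => M.ric (T - M.ric H + M.hs u) e z = T e z - (T - M.ric H + M.hs u) e z :=
  fun e he z hz => by
    have a := ((mHES n M).2.2.2.2.2.2.2.2.2 _ H hG hH).2 e he z hz
    simp only [hd, Real.log_exp] at a
    beta_reduce
    rw [a]
    simp only [Pi.add_apply, Pi.sub_apply]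
    abel

variable [M.Cpt]

/-- The Schwarz lemma. -/
theorem schwarz (hn : 0 < n) (hH : M.Met H) (hh : M.Met h) (hc : M.CLh h) : ∃ C : ℝ, 1 ≤ C ∧
    ∀ (G T : M.Fam (Mat n)) (ε : ℝ), 0 < ε → M.Kae G → M.Le (ε • H) T →
      (M.All fun e z => M.ric G e z = T e z - G e z) →
      (∀ x, ε * M.tr G h x ≤ C) ∧ M.Le ((ε / C) • H) G := by
  obtain ⟨a, ha, h1, -⟩ := (mBD n M H hH).1 h hh.toForm
  obtain ⟨b, hb, h2, -⟩ := (mBD n M h hh).1 H hH.toForm
  have hn' : (0 : ℝ) < n := Nat.cast_pos.2 hn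
  have p1 : 0 < n * a := by positivity
  have p2 : 0 < n * a * b := by positivity
  refine ⟨1 + n * a + n * a * b, by linarith, fun G T ε hε hG hT hr => ?_⟩
  obtain ⟨s1, s2, s3⟩ := hc G hG
  have key : ∀ x, ε * M.tr G h x ≤ n * a := fun x => by
    have s4 := s1.log fun x => (s2 x).ne'
    obtain ⟨y, hy⟩ := s1.exists_max
    have q1 := ((((mLAP n M _ _ s4 s4).2.2 _ hG.toMet).2.2.1 y 0).2.2.2.2.2.2.2.2.1
      (Eventually.of_forall fun w => Real.log_le_log (s2 w) (hy w))).1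
    have q2 := (div_nonpos_iff.1 ((s3 y).trans q1)).resolve_left fun t => (s2 y).not_ge t.2
    rw [ip_congr (S' := h) (T' := T - G) (fun _ _ _ _ => rfl) (fun _ _ _ _ => rfl) hr, ip_sub,
      hG.toMet.ip_self] at q2
    have q3 := ip_mono hG.toMet hh hT y
    have q4 := ip_mono hG.toMet hh h1 y
    rw [ip_smul] at q3 q4
    have q5 := tr_sq_le (hG.toMet.ev_pos y) (hh.ev_pos y).1
    rw [Fintype.card_fin, ← mul_assoc] at q5
    have q6 : M.tr G h y ^ 2 ≤ n * M.ip G h h y := q5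
    refine (mul_le_mul_of_nonneg_left (hy x) hε.le).trans (le_of_mul_le_mul_right ?_ (s2 y))
    have q7 := mul_le_mul_of_nonneg_left q6 hε.le
    have q8 := mul_le_mul_of_nonneg_left q4 (mul_pos hε hn').le
    have q9 := mul_le_mul_of_nonneg_left (q3.trans (sub_nonpos.1 q2.1)) p1.le
    nlinarith
  refine ⟨fun x => by linarith [key x], Le.trans (hH.le_smul (b := ε / (n * a * b))
    (div_le_div_of_nonneg_left hε.le p2 (by linarith))) fun e he z hz => ?_⟩
  have q1 := key (e.symm z)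
  rw [((mINV n M _ hG.toMet).1 h hh.toTen).1 e he z hz, ← le_div_iff₀' hε] at q1
  have q2 : ((n * a / ε : ℝ) • G e z - h e z).PosSemidef :=
    le_tr_smul (hG.pos e he z hz) (hh.pos e he z hz).posSemidef q1
  have q3 := (psd_rsmul q2 (div_pos hε p1).le).add (psd_rsmul (h2 e he z hz) (div_pos hε p2).le)
  simp only [Pi.smul_apply, smul_sub, smul_smul] at q3 ⊢
  rwa [show ε / (n * a) * (n * a / ε) = 1 by field_simp, one_smul,
    show ε / (n * a * b) * b = ε / (n * a) by field_simp, sub_add_sub_cancel] at q3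

/-- The equation is solvable in every Kähler class. -/
theorem solve (hA : HS.St_AUBIN) (hn : 0 < n) (hH : M.Met H) {T : M.Fam (Mat n)} {u₀ : M.X → ℝ}
    (hu : M.Sm u₀) (hG : M.Kae (T - M.ric H + M.hs u₀)) : ∃ u, M.Sm u ∧
      M.Kae (T - M.ric H + M.hs u) ∧ ∀ x, M.dq H (T - M.ric H + M.hs u) x = Real.exp (u x) := by
  have h1 := mINV n M _ hG.toMet
  have h2 := (mINV n M H hH).2.2.2.2.2.2.2 _ hG.toMet
  have hpos := (h1.2.2.2.2.2.2.2 H hH).1
  have hsm := (h1.1 H hH.toTen).2.2.2.1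
  obtain ⟨v, hv, hk, hd⟩ := hA n M _ (fun x => u₀ x + Real.log (M.dq (T - M.ric H + M.hs u₀) H x))
    1 hn hG (hu.add (hsm.log fun x => (hpos x).ne')) one_pos
  have he : M.All fun e z => (T - M.ric H + M.hs fun x => u₀ x + v x) e z =
      (T - M.ric H + M.hs u₀ + M.hs v) e z := fun e he z hz => by
    simp only [Pi.add_apply]
    rw [((mLAP n M u₀ v hu hv).1 0 e he z hz).2.1, add_assoc]
  refine ⟨fun x => u₀ x + v x, hu.add hv, hk.congr he, fun x => ?_⟩
  rw [dq_congr (G' := H) (fun _ _ _ _ => rfl) he, h2.2.2.1 _ hk.toForm x, hd x, one_mul,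
    ← add_assoc, Real.exp_add, Real.exp_log (hpos x), add_comm (v x), mul_left_comm, h2.2.1 x,
    mul_one]

/-- The twisted equation is solvable for every Kähler form. -/
theorem nef (hA : HS.St_AUBIN) (hn : 0 < n) (hH : M.Kae H) (hh : M.Met h) (hc : M.CLh h)
    (T : M.Fam (Mat n)) (hT : M.Kae T) : ∃ u, M.Sm u ∧ M.Kae (T - M.ric H + M.hs u) ∧
      ∀ x, M.dq H (T - M.ric H + M.hs u) x = Real.exp (u x) := by
  have hr := (mHES n M).2.2.2.2.2.2.2.2.1 H hH.toMet
  obtain ⟨C, hC, hle, -⟩ := (mBD n M H hH.toMet).1 _ hr.toForm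
  obtain ⟨D, hD, hS⟩ := schwarz hn hH.toMet hh hc
  have clo : ∀ {T u}, M.Clo T → M.Sm u → M.Clo (T - M.ric H + M.hs u) :=
    fun h1 h2 => (h1.sub hr).add ((mHES n M).1 _ h2)
  obtain ⟨q, hq⟩ : ∃ q : ℝ, q = 1 - 1 / (2 * D) := ⟨_, rfl⟩
  have hq0 : 0 < q := by
    have : 1 / (2 * D) ≤ 1 / 2 := one_div_le_one_div_of_le two_pos (by linarith)
    linarith
  have hq1 : q < 1 := by
    have : 0 < 1 / (2 * D) := by positivity
    linarith
  have key : ∀ k : ℕ, ∀ η : ℝ, C * q ^ k < η → ∃ u, M.Sm u ∧ M.Kae (η • H - M.ric H + M.hs u) ∧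
      ∀ x, M.dq H (η • H - M.ric H + M.hs u) x = Real.exp (u x) := by
    intro k
    induction k with
    | zero =>
      intro η hη
      rw [pow_zero, mul_one] at hη
      have h0 : M.Sm fun _ => (0 : ℝ) := sm_const 0
      refine solve hA hn hH.toMet h0 ⟨clo (hH.toClo.smul η) h0, fun e he z hz => ?_⟩
      have h4 : (η • H - M.ric H + M.hs fun _ => 0) e z =
          (η - C) • H e z + ((C • H) e z - M.ric H e z) := by
        simp only [Pi.add_apply, Pi.sub_apply, Pi.smul_apply]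
        rw [((mLAP n M _ _ h0 h0).1 0 e he z hz).1, sub_smul]
        abel
      beta_reduce
      rw [h4]
      exact (pd_rsmul (hH.pos e he z hz) (sub_pos.2 hη)).add_posSemidef (hle e he z hz)
    | succ k ih =>
      intro η hη
      have h1 : C * q ^ k < η / q := by
        rw [lt_div_iff₀ hq0, mul_assoc, ← pow_succ]
        exact hη
      have h2 : 0 < η / q := lt_trans (by positivity) h1
      obtain ⟨u, u1, u2, u3⟩ := ih _ h1
      have hb := (hS _ _ _ h2 u2 (Le.refl _) (ric_sol hH.toMet u2.toMet u3)).2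
      refine solve hA hn hH.toMet u1 ⟨clo (hH.toClo.smul η) u1, fun e he z hz => ?_⟩
      obtain ⟨a, ha⟩ : ∃ a, a = η / q := ⟨_, rfl⟩
      rw [← ha] at hb h2
      have h5 : η = a - a / D + a / (2 * D) := by
        have h6 : η = a * q := by rw [ha]; field_simp
        rw [h6, hq]
        field_simp
        ring
      have h4 : (η • H - M.ric H + M.hs u) e z = (a / (2 * D)) • H e z +
          ((a • H - M.ric H + M.hs u) e z - ((a / D) • H) e z) := by
        simp only [Pi.add_apply, Pi.sub_apply, Pi.smul_apply]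
        rw [h5, add_smul, sub_smul]
        abel
      rw [h4]
      exact (pd_rsmul (hH.pos e he z hz) (by positivity)).add_posSemidef (hb e he z hz)
  obtain ⟨c, hc0, h1, -⟩ := (mBD n M T hT.toMet).1 H hH.toForm
  obtain ⟨k, hk⟩ := exists_pow_lt_of_lt_one (div_pos (inv_pos.2 hc0) hC) hq1
  obtain ⟨u, u1, u2, -⟩ := key k c⁻¹ (by rwa [lt_div_iff₀ hC, mul_comm] at hk)
  refine solve hA hn hH.toMet u1 ⟨clo hT.toClo u1, fun e he z hz => ?_⟩
  have h2 := (u2.pos e he z hz).add_posSemidef (psd_rsmul (h1 e he z hz) (inv_pos.2 hc0).le)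
  simp only [Pi.add_apply, Pi.sub_apply, Pi.smul_apply, smul_sub, smul_smul,
    inv_mul_cancel₀ hc0.ne', one_smul] at h2 ⊢
  convert h2 using 1
  abel

end Pool.Agent.Lib.RB
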