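import Pool.Agent.Lib.RB.Blue
import Pool.Agent.Lib.RB.Nef
import Pool.Agent.Lib.HS.B_CLG

/-! Project rb9: the identity of Chern and Lu for a Hermitian target. -/

open scoped Classical Topology ContDiff ComplexOrder Matrix
open Set MeasureTheory Complex Metric Filter

noncomputable section

namespace Pool.Agent.Lib.RB

open Pool.Agent.Lib.SV (E)
open Pool.Agent.Lib.HS32

theorem st_RCL : St_RCL := by
  intro n M G H hG hH
  obtain ⟨i1, i2, i3, -⟩ := mINV n M G hG.toMet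
  obtain ⟨e1, e2, -, -, -, -, -, -, e3, -⟩ := mHES n M
  have hS : M.Sm (M.tr G H) := (i1 H hH.toTen).2.1
  have hpos : 0 < n → ∀ x, 0 < M.tr G H x := fun hn x => by
    have : Nonempty (Fin n) := ⟨⟨0, hn⟩⟩
    exact HS76.tr_pos (hG.toMet.ev_pos x) (hH.ev_pos x)
  have hev : ∀ e ∈ M.C, ∀ z ∈ e.target,
      M.lc (M.tr G H) e =ᶠ[𝓝 z] fun w => ((G e w)⁻¹ * H e w).trace :=
    fun e he z hz => ((i2 H hH.toForm).ev he hz).mono fun w hw => hw.1
  have h3 : M.All fun e z => M.lap G (M.tr G H) (e.symm z) =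
      (en (G e) (H e) (H e) z).re + M.ip G H (M.ric G) (e.symm z) + (qq (G e) (H e) z).re ∧
      0 ≤ (en (G e) (H e) (H e) z).re ∧ M.gr G (M.tr G H) (M.tr G H) (e.symm z) ≤
        M.tr G H (e.symm z) * (en (G e) (H e) (H e) z).re := by
    intro e he z hz
    have lG := HS68.met_loc hG.toMet he hz
    have lH := HS68.met_loc hH he hz
    refine ⟨?_, (nonneg_iff.1 (HS68.Loc.en_nonneg lG.pos lH.pos.posSemidef)).1, ?_⟩
    · have a : M.lap G (M.tr G H) (e.symm z) = _ := (i1 _ (e1 _ hS).toTen).1 e he z hz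
      have b : M.ip G H (M.ric G) (e.symm z) = _ :=
        (i3 H _ hH.toTen (e3 G hG.toMet).toTen).1 e he z hz
      rw [a, b]
      beta_reduce
      rw [Mf.hs, hess_congr (hev e he z hz), lG.chern_lu (HS68.clo_kl hG.toClo he hz) lH, qq,
        sub_eq_add_neg, add_re, add_re]
      rfl
    · have a : M.gr G (M.tr G H) (M.tr G H) (e.symm z) = _ :=
        (i1 _ (e2 _ _ hS hS).1).1 e he z hz
      have b : M.tr G H (e.symm z) = _ := (i1 H hH.toTen).1 e he z hz
      have c : ∀ k, dz k (M.lc (M.tr G H) e) z = -((G e z)⁻¹ * H e z * df (G e) (H e) k z).trace :=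
        fun k => by rw [dz_congr (hev e he z hz), lG.dz_trace_quot lH]
      have d : ∀ k, dzb k (M.lc (M.tr G H) e) z =
          -star ((G e z)⁻¹ * H e z * df (G e) (H e) k z).trace := fun k => by
        rw [← star_neg, ← c]
        exact (star_dz_ofReal (cd_diff (hS.lc e he z hz))).symm
      rw [a, b, HS68.en_eq]
      refine Eq.trans_le ?_ (HS76.grad_le lG.pos.inv.posSemidef lG.pos.inv.posSemidef
        lH.pos.posSemidef fun k => df (G e) (H e) k z)
      simp only [Mf.ds, dd, c, d, neg_mul_neg, Matrix.trace, Matrix.diag_apply, Matrix.mul_apply,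
        Matrix.of_apply]
  obtain ⟨-, -, l3⟩ := mLAP n M _ _ hS hS
  obtain ⟨l1, -, -, l4, -⟩ := l3 G hG.toMet
  have h5 : M.All fun e z => M.yT G H (e.symm z) =
      (en (G e) (H e) (H e) z).re + (qq (G e) (H e) z).re ∧ 0 ≤ (en (G e) (H e) (H e) z).re :=
    fun e he z hz => ⟨by rw [Mf.yT, (h3 e he z hz).1]; ring, (h3 e he z hz).2.1⟩
  refine ⟨hS, l1.sub (i3 H _ hH.toTen (e3 G hG.toMet).toTen).2.1, hpos, h5, fun hs => ?_⟩
  have h4 : M.All fun e z => 0 ≤ (qq (G e) (H e) z).re := fun e he z hz =>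
    hs e he z hz _ (hG.pos e he z hz).inv.posSemidef
  refine ⟨h4, fun x => ?_, fun hn x => ?_⟩
  · obtain ⟨a, b⟩ := Mf.AllOn.ch h5 x
    rw [Mf.ch_symm] at a
    rw [a]
    exact add_nonneg b (Mf.AllOn.ch h4 x)
  · obtain ⟨a, -, c⟩ := Mf.AllOn.ch h3 x
    rw [Mf.ch_symm] at a c
    rw [(l4 Real.log (fun y => Real.contDiffAt_log.2 (hpos hn y).ne') x).1, HS.CLG.deriv2_log,
      Real.deriv_log]
    exact HS.CLG.last (hpos hn x) a c (Mf.AllOn.ch h4 x)

/-- The inequality of Chern and Lu under the hypothesis on the real bisectional curvature. -/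
theorem clh_of_rbc (hC : St_RCL) {n : ℕ} {M : Mf n} {h : M.Fam (Mat n)} (hn : 0 < n)
    (hh : M.Met h) (hr : M.Rbc h) : M.CLh h := fun G hG =>
  ⟨(hC n M G h hG hh).1, (hC n M G h hG hh).2.2.1 hn, ((hC n M G h hG hh).2.2.2.2 hr).2.2 hn⟩

end Pool.Agent.Lib.RB
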