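import Pool.Agent.Lib.RB.Blue
import Pool.Agent.Lib.HS.B_DBP
import Pool.Agent.Lib.HS32.MAll

/-! Project rb9: local bounds for the field `ε G⁻¹ h` and its `(0,1)` derivative. -/

open scoped Classical Topology ContDiff ComplexOrder Matrix
open Set MeasureTheory Complex Metric Filter Matrix

noncomputable section

namespace Pool.Agent.Lib.RB

open Pool.Agent.Lib.SV (E)
open Pool.Agent.Lib.HS32 Pool.Agent.Lib.HS76
open Pool.Agent.Lib.HS (dbp_grad dbp_entry dbp_der)

namespace R47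

variable {n : ℕ} {G H h : Mat n} {C ε S : ℝ}

theorem low (hn : 0 < n) (hε : 0 < ε) (hS : 0 < S) (hG : G.PosDef) (hh : h.PosDef)
    (h1 : ε * (G⁻¹ * h).trace.re ≤ S) : (G - (ε * n / S / n) • h).PosSemidef := by
  have hn' : (0 : ℝ) < n := Nat.cast_pos.2 hn
  have a := le_tr_smul hG hh.posSemidef (c := S / ε) ((le_div_iff₀' hε).2 h1)
  rw [← rsm] at a
  have := a.smul (a := ε / S) (by positivity)
  rwa [smul_sub, smul_smul, show ε / S * (S / ε) = 1 by field_simp, one_smul,
    show ε / S = ε * n / S / n by field_simp] at this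

theorem tr_cmp (hG : G.PosSemidef) (hH : H.PosDef) (hh : h.PosDef)
    (h1 : (C • h - H).PosSemidef) : (h⁻¹ * G).trace.re ≤ C * (H⁻¹ * G).trace.re := by
  rw [rsm] at h1
  have := tr_mul_mono hG (inv_le_of_le hh hH h1)
  rwa [Matrix.mul_smul, trace_smul, smul_eq_mul, re_ofReal_mul, trace_mul_comm,
    trace_mul_comm G] at this

theorem resc (hn : 0 < n) (hS : 0 < S) (X : Mat n) (i j : Fin n) (hε : 0 < ε) :
    ‖(ε • X) i j‖ = S / n * ‖((ε * n / S) • X) i j‖ := by
  have hn' : (0 : ℝ) < n := Nat.cast_pos.2 hn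
  rw [Matrix.smul_apply, Matrix.smul_apply, norm_smul, norm_smul, Real.norm_of_nonneg hε.le,
    Real.norm_of_nonneg (by positivity)]
  field_simp

end R47

open R47

theorem st_RDB (hCL : St_RCL) : St_RDB := by
  intro n M _ H h hH hh
  refine ⟨fun G ε hG hε => ⟨?_, fun e he z hz => ?_⟩, fun hr S₀ e he K hKc hKs => ?_⟩
  · have a := (mINV n M G hG).2.2.2.2.1 h hh.toTen
    refine ⟨fun e he z hz => SmM.rsmul contDiffAt_const (a.sm e he z hz), fun e he e' he' x hx hx' => ?_⟩
    simp only [Mf.qE, Matrix.mul_smul, Matrix.smul_mul, a.cmp e he e' he' x hx hx']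
  · have a := (hG.pos e he z hz).inv.posSemidef.mul_mul_conjTranspose_same (h e z)
    rw [(hh.herm e he z hz).eq] at a
    simpa only [Mf.qE, Matrix.mul_smul, Matrix.mul_assoc] using a.smul hε.le
  obtain ⟨C₁, hC₁, hb₁⟩ := (mBD n M H hH).2.2.1 e he K hKc hKs
  obtain ⟨C, hC, hb⟩ := (mBD n M h hh).2.2.1 e he K hKc hKs
  obtain ⟨C₀, hC₀, hc, -⟩ := (mBD n M h hh).1 H hH.toForm
  set S := max S₀ 1 with hSd
  have hS : 0 < S := lt_max_of_lt_right one_pos
  have hI := mINV n M H hH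
  have p1 : 0 ≤ S * n ^ 3 * C ^ 2 := by positivity
  have p2 : 0 ≤ S * C ^ 3 * C₀ := by positivity
  refine ⟨C₁ + S * n ^ 3 * C ^ 2 + S * C ^ 3 * C₀, by positivity, fun f hf z hz l => ?_,
    fun G ε hG hε hs z hz i j => ?_⟩
  · have hz' := hKs hz
    have hF := (mHES n M).2.2.1 f hf
    have hB : (M.ds f f e z).PosSemidef := by simpa using hF.2 e he z hz'
    have hP := hH.pos e he z hz'
    have r : M.gr H f f (e.symm z) = ((H e z)⁻¹ * M.ds f f e z).trace.re :=
      (hI.1 _ hF.1.toTen).1 e he z hz'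
    have d : DifferentiableAt ℝ (M.lc f e) z := cd_diff (cd_ofReal (hf e he z hz'))
    have q : ‖M.ds f f e z l l‖ = ‖dzb l (M.lc f e) z‖ ^ 2 := by
      have s : star (dzb l (M.lc f e) z) = dz l (M.lc f e) z := star_dzb_ofReal d
      change ‖dzb l (M.lc f e) z * dz l (M.lc f e) z‖ = _
      rw [norm_mul, ← s, norm_star, sq]
    rw [← q, r]
    exact (dbp_grad hP (hb₁ z hz).2.1 hB l).trans
      (mul_le_mul_of_nonneg_right (by linarith) (tr_nonneg hP hB))
  · have hn : 0 < n := i.pos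
    have hn' : (0 : ℝ) < n := Nat.cast_pos.2 hn
    have hz' := hKs hz
    have hP := hh.pos e he z hz'
    have hQ := hG.pos e he z hz'
    have hε' : 0 < ε * n / S := by positivity
    have r0 : M.tr G h (e.symm z) = ((G e z)⁻¹ * h e z).trace.re :=
      ((mINV n M G hG.toMet).1 _ hh.toTen).1 e he z hz'
    have h3 := low hn hε hS hQ hP (r0 ▸ (hs _).trans (le_max_left _ _))
    refine ⟨?_, fun l => ?_⟩
    · rw [Mf.qE, resc hn hS _ i j hε]
      refine (mul_le_mul_of_nonneg_left (dbp_entry hn hε' hC hQ hP (hb z hz).1 (hb z hz).2.1 h3 i j)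
        (by positivity)).trans ?_
      rw [show S / n * (n ^ 4 * C ^ 2) = S * n ^ 3 * C ^ 2 by field_simp]
      linarith
    have lG := HS68.met_loc hG.toMet he hz'
    have lH := HS68.met_loc hh he hz'
    have q : dMb l (M.qE G h ε e) z = ε • -((G e z)⁻¹ * (df (G e) (h e) l z)ᴴ * h e z) := by
      rw [← lG.dMb_quot lH l, ← dMb_rsmul ε (lG.smM_inv.mul lH.sm)]
      rfl
    have r : M.tr H G (e.symm z) = ((H e z)⁻¹ * G e z).trace.re := (hI.1 _ hG.toTen).1 e he z hz'
    obtain ⟨-, -, -, g1, g2⟩ := hCL n M G h hG hh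
    have y : (en (G e) (h e) (h e) z).re ≤ M.yT G h (e.symm z) := by
      rw [(g1 e he z hz').1]
      linarith [(g2 hr).1 e he z hz']
    have y0 := (g1 e he z hz').2
    have t0 := tr_nonneg (hH.pos e he z hz') hQ.posSemidef
    have t1 := tr_cmp hQ.posSemidef (hH.pos e he z hz') hP (hc e he z hz')
    have k := dbp_der hn hε' hC hQ hP (hb z hz).1 (hb z hz).2.1 h3
      (fun k => df (G e) (h e) k z) l i j
    rw [ip3_cyc] at k
    rw [q, r, resc hn hS _ i j hε, mul_pow]
    refine (mul_le_mul_of_nonneg_left k (by positivity)).trans ?_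
    change _ * (_ * (_ * (_ * (en (G e) (h e) (h e) z).re))) ≤ _
    calc _ = S * C ^ 3 * (((h e z)⁻¹ * G e z).trace.re * (ε * (en (G e) (h e) (h e) z).re)) := by
          field_simp
      _ ≤ S * C ^ 3 * (C₀ * ((H e z)⁻¹ * G e z).trace.re * (ε * M.yT G h (e.symm z))) := by
          gcongr
      _ = S * C ^ 3 * C₀ * (((H e z)⁻¹ * G e z).trace.re * (ε * M.yT G h (e.symm z))) := by ring
      _ ≤ _ := mul_le_mul_of_nonneg_right (by linarith)
          (mul_nonneg t0 (mul_nonneg hε.le (y0.trans y)))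

end Pool.Agent.Lib.RB
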