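import Pool.Agent.Lib.RB.Blue
import Pool.Agent.Lib.HS32.MAll
import Pool.Agent.Lib.HS.B_PDET

/-! Project rb9: the limit of the mean value of a determinant. -/

open scoped Classical Topology ContDiff ComplexOrder Matrix
open Set MeasureTheory Complex Metric Filter

noncomputable section

namespace Pool.Agent.Lib.RB

open Pool.Agent.Lib.SV (E)
open Pool.Agent.Lib.HS32

namespace M51

variable {n : ℕ}

theorem det_lipR (n : ℕ) {r : ℝ} (hr : 0 ≤ r) (s : ℝ) : ∃ L : ℝ, 0 ≤ L ∧ ∀ A B R : Mat n,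
    (∀ i j, ‖A i j‖ ≤ r) → (∀ i j, ‖B i j‖ ≤ r) → (∀ i j, ‖R i j‖ ≤ r) →
      ‖(1 + s • (A * R)).det - (1 + s • (B * R)).det‖ ≤ L * ∑ i, ∑ j, ‖(A - B) i j‖ := by
  obtain ⟨L, hL, h⟩ := HS.PDET.det_lip n (R := 1 + |s| * (n * r * r)) (by positivity)
  have m : ∀ A R : Mat n, (∀ i j, ‖R i j‖ ≤ r) → ∀ i j, ‖(A * R) i j‖ ≤ (∑ k, ‖A i k‖) * r :=
    fun A R hR i j => by
      rw [Matrix.mul_apply, Finset.sum_mul]
      refine (norm_sum_le _ _).trans (Finset.sum_le_sum fun k _ => ?_)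
      rw [norm_mul]
      exact mul_le_mul_of_nonneg_left (hR k j) (norm_nonneg _)
  have b : ∀ A R : Mat n, (∀ i j, ‖A i j‖ ≤ r) → (∀ i j, ‖R i j‖ ≤ r) →
      ∀ i j, ‖(1 + s • (A * R)) i j‖ ≤ 1 + |s| * (n * r * r) := fun A R hA hR i j => by
    rw [Matrix.add_apply, Matrix.smul_apply]
    refine (norm_add_le _ _).trans (add_le_add ?_ ?_)
    · rw [Matrix.one_apply]
      split_ifs <;> simp
    · rw [norm_smul, Real.norm_eq_abs]
      refine mul_le_mul_of_nonneg_left ((m A R hR i j).trans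
        (mul_le_mul_of_nonneg_right ?_ hr)) (abs_nonneg s)
      simpa using Finset.sum_le_card_nsmul Finset.univ _ r fun k _ => hA i k
  refine ⟨L * (|s| * (n * r)), by positivity, fun A B R hA hB hR =>
    (h _ _ (b A R hA hR) (b B R hB hR)).trans ?_⟩
  rw [add_sub_add_left_eq_sub, ← smul_sub, ← Matrix.sub_mul, mul_assoc, Finset.mul_sum _ _ (_ * _)]
  refine mul_le_mul_of_nonneg_left (Finset.sum_le_sum fun i _ => ?_) hL
  refine (Finset.sum_le_card_nsmul _ _ (|s| * ((∑ k, ‖(A - B) i k‖) * r)) fun j _ => ?_).trans_eq ?_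
  · rw [Matrix.smul_apply, norm_smul, Real.norm_eq_abs]
    exact mul_le_mul_of_nonneg_left (m _ R hR i j) (abs_nonneg s)
  · simp only [Finset.card_univ, Fintype.card_fin, nsmul_eq_mul]
    ring

theorem det_facR {G h R : Mat n} (hG : G.PosDef) (s ε : ℝ) :
    (G + (s * ε) • (h * R)).det / G.det = (1 + s • ((ε • (G⁻¹ * h)) * R)).det := by
  rw [HS.PDET.det_fac hG, mul_div_cancel_left₀ _ hG.det_pos.ne', Matrix.smul_mul,
    Matrix.mul_assoc]

theorem ent_bd {M : Mf n} {P : M.Fam (Mat n)} (hP : M.End P) {e : M.Ch} (he : e ∈ M.C)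
    {K : Set (E n)} (hK : IsCompact K) (hs : K ⊆ e.target) :
    ∃ r : ℝ, ∀ z ∈ K, ∀ i j, ‖P e z i j‖ ≤ r := by
  obtain ⟨r, b⟩ := hK.exists_bound_of_continuousOn (f := fun z i j => P e z i j) fun z hz =>
    (hP.sm _ he z (hs hz)).continuousAt.continuousWithinAt
  exact ⟨r, fun z hz i j => ((norm_le_pi_norm (fun j => P e z i j) j).trans
    (norm_le_pi_norm (fun i j => P e z i j) i)).trans (b z hz)⟩

end M51

open M51 Mf in
theorem st_RMN (hDB : St_RDB) : St_RMN := by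
  intro n M _ H h Q R k C g ε φ f l s c hK hh hr hs hQ hR hL hc
  obtain ⟨-, -, ⟨V, -⟩, -⟩ := mCOV n M
  obtain ⟨-, hfin, -, -, hint, -, hmu⟩ := mMU n M h hh
  obtain ⟨d1, d2⟩ := hDB n M H h hK.toMet hh
  have hI := mINV n M h hh
  obtain ⟨D, hD, bD⟩ := ((hI.1 H hK.toTen).2.2.2.1).exists_bound
  have hC : 0 ≤ C := zero_le_one.trans hs.one
  have hB : ∀ a, closedBall (V.c a) (V.ρ a) ⊆ (V.e a).target := fun a =>
    (closedBall_subset_closedBall (by linarith [V.pos a])).trans (V.sub a)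
  let K : Fin V.r → Set M.X := fun a => (V.e a).symm '' closedBall (V.c a) (V.ρ a)
  have hKc : ∀ a, IsCompact (K a) := fun a =>
    (isCompact_closedBall _ _).image_of_continuousOn ((V.e a).continuousOn_symm.mono (hB a))
  have hKs : ∀ a, K a ⊆ (V.e a).source := fun a => by
    rintro _ ⟨w, hw, rfl⟩
    exact (V.e a).map_target (hB a hw)
  have lip : ∀ a, ∃ L : ℝ, 0 ≤ L ∧ ∀ i, ∀ z ∈ closedBall (V.c a) (V.ρ a),
      ‖(1 + s • (M.qE (g i) h (ε i) (V.e a) z * R (V.e a) z)).det - c‖ ≤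
        L * ∑ p, ∑ q, ‖(M.qE (g i) h (ε i) (V.e a) z - Q (V.e a) z) p q‖ := fun a => by
    obtain ⟨r₁, hr₁, -, b1⟩ := d2 hr C _ (V.mem a) _ (isCompact_closedBall _ _) (hB a)
    obtain ⟨r₂, b2⟩ := ent_bd hQ (V.mem a) (isCompact_closedBall _ _) (hB a)
    obtain ⟨r₃, b3⟩ := ent_bd hR (V.mem a) (isCompact_closedBall _ _) (hB a)
    obtain ⟨L, hL0, hl⟩ := det_lipR n (r := max r₁ (max r₂ r₃)) (le_max_of_le_left hr₁.le) s
    refine ⟨L, hL0, fun i z hz => ?_⟩
    rw [← hc _ (V.mem a) z (hB a hz)]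
    exact hl _ _ _
      (fun p q => le_max_of_le_left (b1 _ _ (hs.kae i) (hs.eps i).1 (hs.sb i) z hz p q).1)
      (fun p q => le_max_of_le_right (le_max_of_le_left (b2 z hz p q)))
      fun p q => le_max_of_le_right (le_max_of_le_right (b3 z hz p q))
  choose L hL0 lip using lip
  have lim : Tendsto (fun i => ∑ a, D * C * L a * ∑ p, ∑ q, ∫ x in K a,
      ‖(M.qE (g i) h (ε i) (V.e a) (V.e a x) - Q (V.e a) (V.e a x)) p q‖ ∂M.mu h) l (𝓝 0) := by
    have := tendsto_finsetSum Finset.univ fun a _ => (tendsto_finsetSum Finset.univ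
      fun i _ => tendsto_finsetSum Finset.univ fun j _ =>
        hL _ (V.mem a) _ (hKc a) (hKs a) i j).const_mul (D * C * L a)
    simpa only [Finset.sum_const_zero, mul_zero] using this
  refine tendsto_sub_nhds_zero_iff.1 (squeeze_zero_norm (fun i => ?_) lim)
  have gm := (hs.kae i).toMet
  obtain ⟨-, gfin, -, v0, gint, -⟩ := mMU n M _ gm
  have pen := (d1 _ _ gm (hs.eps i).1).1
  have hT : M.Ten (g i + (s * ε i) • (h * R)) := gm.toTen.add ((hI.2.2.2.2.2.1 R hR).smul _)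
  obtain ⟨-, -, t1, t2, -⟩ := (mINV n M _ gm).1 _ hT
  have di : ∀ a p q, IntegrableOn (fun x =>
      ‖(M.qE (g i) h (ε i) (V.e a) (V.e a x) - Q (V.e a) (V.e a x)) p q‖) (K a) (M.mu h) :=
    fun a p q => by
      refine ContinuousOn.integrableOn_compact (hKc a) fun x hx => ?_
      have hx' := (V.e a).map_source (hKs a hx)
      exact ((((pen.sm _ (V.mem a) _ hx').sub (hQ.sm _ (V.mem a) _ hx')) p q).continuousAt.comp
        ((V.e a).continuousAt (hKs a hx))).norm.continuousWithinAt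
  let w : Fin V.r → M.X → ℝ := fun a x => D * C * L a * ∑ p, ∑ q,
    ‖(M.qE (g i) h (ε i) (V.e a) (V.e a x) - Q (V.e a) (V.e a x)) p q‖
  have gi : ∀ a, Integrable ((K a).indicator (w a)) (M.mu h) := fun a =>
    (integrable_indicator_iff (hKc a).measurableSet).2 ((integrable_finsetSum _ fun i _ =>
      integrable_finsetSum _ fun j _ => di a i j).const_mul _)
  have g0 : ∀ a x, 0 ≤ (K a).indicator (w a) x := fun a =>
    indicator_nonneg fun x _ => mul_nonneg (mul_nonneg (mul_nonneg hD.le hC) (hL0 a)) (by positivity)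
  have e1 : M.mn (g i) (M.dq (g i) (g i + (s * ε i) • (h * R))) - c = ∫ x, M.dq h (g i) x *
      (M.dq (g i) (g i + (s * ε i) • (h * R)) x - c) / M.vv (g i) ∂M.mu h := by
    rw [integral_div, ← (hmu _ gm).2.1, integral_sub (gint ℝ _ t2.continuous) (integrable_const _),
      integral_const, smul_eq_mul, sub_div, Mf.mn, Mf.vv, mul_div_cancel_left₀ _ v0.ne']
  have e2 : (∑ a, D * C * L a * ∑ p, ∑ q, ∫ x in K a,
      ‖(M.qE (g i) h (ε i) (V.e a) (V.e a x) - Q (V.e a) (V.e a x)) p q‖ ∂M.mu h) =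
      ∫ x, ∑ a, (K a).indicator (w a) x ∂M.mu h := by
    rw [integral_finsetSum _ fun a _ => gi a]
    refine Finset.sum_congr rfl fun a _ => ?_
    rw [integral_indicator (hKc a).measurableSet, integral_const_mul,
      integral_finsetSum _ fun i _ => integrable_finsetSum _ fun j _ => di a i j]
    exact congrArg _ (Finset.sum_congr rfl fun i _ =>
      (integral_finsetSum _ fun j _ => di a i j).symm)
  rw [e1, e2]
  refine norm_integral_le_of_norm_le (integrable_finsetSum _ fun a _ => gi a)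
    (ae_of_all _ fun x => ?_)
  obtain ⟨a, hx, hb, -⟩ := V.cov x
  have hz := ball_subset_closedBall hb
  refine le_trans ?_ (Finset.single_le_sum (fun a _ => g0 a x) (Finset.mem_univ a))
  rw [indicator_of_mem (show x ∈ K a from ⟨_, hz, (V.e a).left_inv hx⟩)]
  have f1 := t1.at (V.mem a) hx
  have f2 : ‖M.dq (g i) (g i + (s * ε i) • (h * R)) x - c‖ ≤
      ‖(1 + s • (M.qE (g i) h (ε i) (V.e a) (V.e a x) * R (V.e a) (V.e a x))).det - c‖ := by
    refine le_trans (le_of_eq ?_) (abs_re_le_norm _)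
    rw [f1, sub_re, ofReal_re, Real.norm_eq_abs]
    exact congrArg (fun y : ℂ => |y.re - c|) (det_facR (AllOn.at gm.pos (V.mem a) hx) s (ε i))
  have p0 := ((hI.2.2.2.2.2.2.2 _ gm).1 x).le
  have v1 : 0 < M.vv (g i) := v0
  have f3 : M.dq h (g i) x / M.vv (g i) ≤ D * C := by
    rw [div_le_iff₀ v1, (hI.2.2.2.2.2.2.2 H hK.toMet).2.2.1 _ gm.toForm x, mul_assoc]
    exact mul_le_mul ((le_abs_self _).trans (bD x)) (hs.up i x)
      (((mINV n M H hK.toMet).2.2.2.2.2.2.2 _ gm).1 x).le hD.le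
  rw [mul_div_right_comm, norm_mul, Real.norm_of_nonneg (div_nonneg p0 v1.le)]
  exact (mul_le_mul f3 (f2.trans (lip a i _ hz)) (norm_nonneg _) (mul_nonneg hD.le hC)).trans_eq
    (mul_assoc _ _ _).symm

end Pool.Agent.Lib.RB
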