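import Pool.Agent.Lib.RB.Blue
import Pool.Agent.Lib.HS.B_LOCP
import Pool.Agent.Lib.HS.B_DBP
import Pool.Agent.Lib.HS32.MAll

/-! Project rb9: functions with small gradient are close to a constant. -/

open scoped Classical Topology ContDiff ComplexOrder Matrix ENNReal
open Set MeasureTheory Complex Metric Filter

noncomputable section

namespace Pool.Agent.Lib.RB

open Pool.Agent.Lib.SV (E)
open Pool.Agent.Lib.HS32 Pool.Agent.Lib.HS.Locp

namespace R21

variable {n : ℕ}

/-- A holomorphic function with real values is constant. -/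
theorem real_const {P : E n → ℂ} {c : E n} {ρ : ℝ} (hP : DifferentiableOn ℂ P (ball c ρ))
    (hi : ∀ z ∈ ball c ρ, (P z).im = 0) {x y : E n} (hx : x ∈ ball c ρ) (hy : y ∈ ball c ρ) :
    P x = P y := by
  refine isOpen_ball.is_const_of_fderiv_eq_zero (convex_ball c ρ).isPreconnected hP
    (fun z hz => ?_) hx hy
  have hn := isOpen_ball.mem_nhds hz
  have h1 := imCLM.hasFDerivAt.comp z ((hP.differentiableAt hn).hasFDerivAt.restrictScalars ℝ)
  have h2 : HasFDerivAt (imCLM ∘ P) (0 : E n →L[ℝ] ℝ) z :=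
    (hasFDerivAt_const (0 : ℝ) z).congr_of_eventuallyEq (eventually_of_mem hn fun w hw => hi w hw)
  have h3 : ∀ v, (fderiv ℂ P z v).im = 0 := fun v => by
    simpa using congrArg (fun L : E n →L[ℝ] ℝ => L v) (h1.unique h2)
  ext v
  have h4 := h3 (I • v)
  rw [map_smul, smul_eq_mul] at h4
  exact Complex.ext (by simpa using h4) (by simpa using h3 v)

theorem two {X : Type} [MeasurableSpace X] (μ : Measure X) {f : X → ℝ} (hf : Measurable f)
    (a b : ℝ) {O U V : Set X} (hU : O ⊆ U) (hV : O ⊆ V) :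
    ‖a - b‖ₑ * μ O ≤ ∫⁻ y in U, ‖f y - a‖ₑ ∂μ + ∫⁻ y in V, ‖f y - b‖ₑ ∂μ := by
  calc ‖a - b‖ₑ * μ O = ∫⁻ _ in O, ‖a - b‖ₑ ∂μ := (setLIntegral_const _ _).symm
    _ ≤ ∫⁻ y in O, (‖f y - a‖ₑ + ‖f y - b‖ₑ) ∂μ := lintegral_mono fun y => by
        have e : a - b = -(f y - a) + (f y - b) := by ring
        rw [e]
        exact (enorm_add_le _ _).trans (by rw [enorm_neg])
    _ = ∫⁻ y in O, ‖f y - a‖ₑ ∂μ + ∫⁻ y in O, ‖f y - b‖ₑ ∂μ :=
        lintegral_add_left (hf.sub_const a).enorm _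
    _ ≤ _ := add_le_add (lintegral_mono_set hU) (lintegral_mono_set hV)

variable {M : Mf n} [M.Cpt] {H : M.Fam (Mat n)}

theorem dzb_le (hH : M.Met H) {e : M.Ch} (he : e ∈ M.C) {z : E n} (hz : z ∈ e.target) {C : ℝ}
    (hC : 0 ≤ C) (h2 : (C • (1 : Mat n) - H e z).PosSemidef) {f : M.X → ℝ} (hf : M.Sm f)
    (l : Fin n) : ‖dzb l (M.lc f e) z‖ ≤ √C * √(M.gr H f f (e.symm z)) := by
  have hF := (mHES n M).2.2.1 f hf
  have hB : (M.ds f f e z).PosSemidef := by simpa using hF.2 e he z hz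
  have r : M.gr H f f (e.symm z) = ((H e z)⁻¹ * M.ds f f e z).trace.re :=
    ((mINV n M H hH).1 _ hF.1.toTen).1 e he z hz
  have d : DifferentiableAt ℝ (M.lc f e) z := cd_diff (cd_ofReal (hf e he z hz))
  have q : ‖M.ds f f e z l l‖ = ‖dzb l (M.lc f e) z‖ ^ 2 := by
    have s : star (dzb l (M.lc f e) z) = dz l (M.lc f e) z := star_dzb_ofReal d
    change ‖dzb l (M.lc f e) z * dz l (M.lc f e) z‖ = _
    rw [norm_mul, ← s, norm_star, sq]
  rw [← Real.sqrt_mul hC]
  refine Real.le_sqrt_of_sq_le ?_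
  rw [← q, r]
  exact HS.dbp_grad (hH.pos e he z hz) h2 hB l

/-- The local limit is a constant. -/
theorem loc (hH : M.Met H) {f : ℕ → M.X → ℝ} (hf : ∀ i, M.Sm (f i))
    (h01 : ∀ i x, 0 ≤ f i x ∧ f i x ≤ 1) (l : Ultrafilter ℕ)
    (hd : Tendsto (fun i => ∫ x, √(M.gr H (f i) (f i) x) ∂M.mu H) l (𝓝 0)) (x : M.X) :
    ∃ (κ : ℝ) (U : Set M.X), U ∈ 𝓝 x ∧
      Tendsto (fun i => ∫⁻ y in U, ‖f i y - κ‖ₑ ∂M.mu H) l (𝓝 0) := by
  obtain ⟨he, hx⟩ := (mTR n M).1 x
  set e := M.ch x
  obtain ⟨ρ, hρ, hs⟩ := nhds_basis_closedBall.mem_iff.1 (e.open_target.mem_nhds (e.map_source hx))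
  obtain ⟨C, hC, hb⟩ := (mBD n M H hH).2.2.1 e he _ (isCompact_closedBall _ ρ) hs
  obtain ⟨C4, hC4, hc⟩ := chart_le mMU mBD hH he (isCompact_closedBall _ ρ) hs
  have hcont : ∀ g : M.X → ℝ, M.Sm g → Continuous g := fun g => ((mTR n M).2.2.2.1 ℝ g).1
  have est : ∀ m, Tendsto (fun i => ∫⁻ z in closedBall (e x) ρ, ‖dzb m (M.lc (f i) e) z‖ₑ) l
      (𝓝 0) := fun m => by
    have lim := ENNReal.tendsto_ofReal ((hd.const_mul √C).const_mul C4)
    rw [mul_zero, mul_zero, ENNReal.ofReal_zero] at lim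
    refine tendsto_of_tendsto_of_tendsto_of_le_of_le tendsto_const_nhds lim (fun _ => zero_le)
      fun i => ?_
    have hg := hcont _ ((mLAP n M _ _ (hf i) (hf i)).2.2 H hH).2.1
    refine (hc (fun y => √C * √(M.gr H (f i) (f i) y)) _ (by fun_prop) (fun y => by positivity)
      fun z hz => dzb_le hH he (hs hz) (by linarith) (hb z hz).2.1 (hf i) m).trans (le_of_eq ?_)
    rw [integral_const_mul]
  obtain ⟨P, hP, -, hL⟩ := HS66.limHol l (Q := fun i => M.lc (f i) e) (C := 1)
    (U := ball (e x) ρ) isOpen_ball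
    (fun i z hz => cd_le (cd_ofReal (hf i e he z (hs (ball_subset_closedBall hz)))) 1)
    (fun i z _ => by
      rw [Mf.lc, norm_real, Real.norm_of_nonneg (h01 i _).1]
      exact (h01 i _).2)
    fun K _ hK m => tendsto_of_tendsto_of_tendsto_of_le_of_le tendsto_const_nhds (est m)
      (fun _ => zero_le) fun i => lintegral_mono_set (hK.trans ball_subset_closedBall)
  have hb2 : ball (e x) (ρ / 2) ⊆ ball (e x) ρ := ball_subset_ball (by linarith)
  have hL2 : Tendsto (fun i => ∫⁻ z in ball (e x) (ρ / 2), ‖M.lc (f i) e z - P z‖ₑ) l (𝓝 0) :=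
    tendsto_of_tendsto_of_tendsto_of_le_of_le tendsto_const_nhds
      (hL _ (isCompact_closedBall _ (ρ / 2)) (closedBall_subset_ball (by linarith)))
      (fun _ => zero_le) fun i => lintegral_mono_set ball_subset_closedBall
  have hci : ContinuousOn (fun z => (P z).im) (ball (e x) (ρ / 2)) :=
    continuous_im.comp_continuousOn (hP.continuousOn.mono hb2)
  have h0 : ∫⁻ z in ball (e x) (ρ / 2), ‖(P z).im‖ₑ = 0 := by
    refine le_antisymm (ge_of_tendsto' hL2 fun i => lintegral_mono fun z => ?_) zero_le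
    rw [← ofReal_norm_eq_enorm, ← ofReal_norm_eq_enorm]
    refine ENNReal.ofReal_le_ofReal ?_
    simpa [Mf.lc] using abs_im_le_norm (M.lc (f i) e z - P z)
  have h1 : ∀ z ∈ ball (e x) (ρ / 2), (P z).im = 0 := by
    refine Measure.eqOn_open_of_ae_eq (μ := volume) (g := fun _ => 0) ?_ isOpen_ball hci
      continuousOn_const
    filter_upwards [(lintegral_eq_zero_iff' (hci.aemeasurable measurableSet_ball).enorm).1 h0]
      with z hz
    simpa using hz
  have hx2 : e x ∈ ball (e x) (ρ / 2) := mem_ball_self (by linarith)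
  have h2 : ∀ z ∈ ball (e x) (ρ / 2), P z = ((P (e x)).re : ℝ) := fun z hz => by
    rw [real_const (hP.mono hb2) h1 hz hx2]
    exact Complex.ext (by simp) (by simpa using h1 _ hx2)
  have hbt : ball (e x) (ρ / 2) ⊆ e.target := hb2.trans (ball_subset_closedBall.trans hs)
  refine ⟨(P (e x)).re, e.symm '' ball (e x) (ρ / 2), ?_, ?_⟩
  · have := e.symm.image_mem_nhds (e.map_source hx) (isOpen_ball.mem_nhds hx2)
    rwa [e.left_inv hx] at this
  · have lim := ENNReal.Tendsto.const_mul (a := ENNReal.ofReal C) hL2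
      (Or.inr ENNReal.ofReal_ne_top)
    rw [mul_zero] at lim
    refine tendsto_of_tendsto_of_tendsto_of_le_of_le tendsto_const_nhds lim (fun _ => zero_le)
      fun i => ?_
    rw [((mMU n M H hH).2.2.2.2.2.1 e he _ measurableSet_ball hbt).2.1,
      ← lintegral_const_mul' _ _ ENNReal.ofReal_ne_top]
    refine setLIntegral_mono' measurableSet_ball fun z hz => ?_
    have e1 : ‖M.lc (f i) e z - P z‖ₑ = ‖f i (e.symm z) - (P (e x)).re‖ₑ := by
      rw [h2 z hz, Mf.lc, ← ofReal_sub, ← ofReal_norm_eq_enorm, norm_real, ofReal_norm_eq_enorm]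
    rw [e1]
    exact mul_le_mul_left (ENNReal.ofReal_le_ofReal
      (hb z (ball_subset_closedBall (hb2 hz))).2.2.2) _

end R21

open R21 in
theorem st_RON : St_RON := by
  intro n M _ H f c hK hf h01 hc hd h1
  have hH := hK.toMet
  obtain ⟨-, hfin, hop, -, -⟩ := mMU n M H hH
  have hm : ∀ i, Measurable (f i) := fun i => (((mTR n M).2.2.2.1 ℝ _).1 (hf i)).measurable
  refine tendsto_iff_ultrafilter _ _ _ |>.2 fun l hl => ?_
  choose κ U hU hT using loc hH hf h01 l (hd.mono_left hl)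
  have hlc : IsLocallyConstant κ := by
    refine (IsLocallyConstant.iff_eventually_eq κ).2 fun x => ?_
    filter_upwards [interior_mem_nhds.2 (hU x)] with y hy
    have hO : U y ∩ U x ∈ 𝓝 y := inter_mem (hU y) (mem_interior_iff_mem_nhds.1 hy)
    have lim := (hT y).add (hT x)
    rw [add_zero] at lim
    have h0 := ge_of_tendsto' lim fun i =>
      two (M.mu H) (hm i) (κ y) (κ x) inter_subset_left inter_subset_right
    rcases mul_eq_zero.1 (le_antisymm h0 zero_le) with h | h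
    · simpa [sub_eq_zero] using h
    · exact absurd h (Measure.measure_pos_of_mem_nhds _ hO).ne'
  obtain ⟨x₀⟩ : Nonempty M.X := inferInstance
  obtain ⟨t, ht⟩ := CompactSpace.elim_nhds_subcover U hU
  have hall : Tendsto (fun i => ∫⁻ y, ‖f i y - κ x₀‖ₑ ∂M.mu H) l (𝓝 0) := by
    have lim := tendsto_finsetSum (Finset.univ : Finset t) fun a _ => hT a
    rw [Finset.sum_const_zero] at lim
    refine tendsto_of_tendsto_of_tendsto_of_le_of_le tendsto_const_nhds lim (fun _ => zero_le)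
      fun i => ?_
    have e : (⋃ a : t, U a) = univ := by
      rw [iUnion_subtype]
      exact ht
    have := lintegral_iUnion_le (μ := M.mu H) (fun a : t => U a) fun y => ‖f i y - κ x₀‖ₑ
    rw [e, Measure.restrict_univ, tsum_fintype] at this
    refine this.trans (le_of_eq (Finset.sum_congr rfl fun a _ => ?_))
    rw [hlc.apply_eq_of_preconnectedSpace a x₀]
  have hk : κ x₀ = 1 := by
    have h0 : ‖1 - κ x₀‖ₑ * ENNReal.ofReal c ≤ 0 := by
      refine ge_of_tendsto hall ((h1.filter_mono hl).mono fun i hi => ?_)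
      have hs : MeasurableSet {x | f i x = 1} := hm i (measurableSet_singleton 1)
      calc _ ≤ ‖1 - κ x₀‖ₑ * M.mu H {x | f i x = 1} :=
            mul_le_mul_right (ENNReal.ofReal_le_of_le_toReal hi) _
        _ = ∫⁻ _ in {x | f i x = 1}, ‖1 - κ x₀‖ₑ ∂M.mu H := (setLIntegral_const _ _).symm
        _ = ∫⁻ y in {x | f i x = 1}, ‖f i y - κ x₀‖ₑ ∂M.mu H :=
            setLIntegral_congr_fun hs fun y hy => by rw [show f i y = 1 from hy]
        _ ≤ _ := setLIntegral_le_lintegral _ _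
    rcases mul_eq_zero.1 (le_antisymm h0 zero_le) with h | h
    · have : 1 = κ x₀ := by simpa [sub_eq_zero] using h
      exact this.symm
    · exact absurd h (ENNReal.ofReal_pos.2 hc).ne'
  rw [hk] at hall
  have lim := (ENNReal.tendsto_toReal ENNReal.zero_ne_top).comp hall
  rw [ENNReal.toReal_zero] at lim
  refine squeeze_zero_norm (fun i => (norm_integral_le_lintegral_norm _).trans (le_of_eq ?_)) lim
  simp only [Function.comp, ofReal_norm_eq_enorm, enorm_sub_rev (1 : ℝ)]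

end Pool.Agent.Lib.RB
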