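import Pool.Agent.Lib.RB.Blue
import Pool.Agent.Lib.HS32.MAll
import Pool.Agent.Lib.HS76.Diag

/-! Project rb9: bounds for the gradients of the potential and of the logarithm of the density. -/

open scoped Topology ComplexOrder Matrix
open Set MeasureTheory Filter

namespace Pool.Agent.Lib.RB

open Pool.Agent.Lib.HS32 Pool.Agent.Lib.HS32.Mf

namespace R94

variable {n : ℕ} {M : Mf n} [M.Cpt] {H : M.Fam (Mat n)}

theorem grad_exp (hK : M.Kae H) {C A : ℝ} (hC : 0 ≤ C) {u : M.X → ℝ} (hu : M.Sm u)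
    (hle : M.Le 0 (C • H + M.hs u)) (h0 : ∀ x, u x ≤ 0) (hA : 0 < A) :
    ∫ x, Real.exp (u x / A) * M.gr H u u x ∂M.mu H ≤ (M.mu H).real univ * (C * n) * A := by
  obtain ⟨-, hf, -, hv, hi, -⟩ := mMU n M H hK.toMet
  have c1 : ∀ x, ContDiffAt ℝ (⊤ : ℕ∞) (fun s => Real.exp (s / A)) (u x) :=
    fun x => (contDiffAt_id.div_const A).exp
  have s2 : M.Sm fun x => Real.exp (u x / A) := ((mLAP n M u u hu hu).2.1 _ c1).1
  have hu2 := (mLAP n M u u hu hu).2.2 H hK.toMet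
  have h2 := ((mGRN n M).2 H u _ hK hu s2).2.1
  have h3 : ∀ x, M.gr H u (fun x => Real.exp (u x / A)) x =
      A⁻¹ * (Real.exp (u x / A) * M.gr H u u x) := fun x => by
    rw [(((mLAP n M u _ hu s2).2.2 H hK.toMet).2.2.1 x 0).2.2.2.2.2.1, (hu2.2.2.2.1 _ c1 x).2,
      (((hasDerivAt_id' (u x)).div_const A).exp).deriv]
    ring
  simp only [h3, integral_const_mul] at h2
  have h4 := integral_mono (μ := M.mu H) (integrable_const (-(C * n)))
    (hi ℝ _ (s2.mul hu2.1).continuous) fun x => by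
      have h5 := hK.toMet.tr_nonneg hle x
      rw [tr_add, tr_smul, hK.toMet.tr_self] at h5
      have h6 : Real.exp (u x / A) ≤ 1 :=
        Real.exp_le_one_iff.2 (div_nonpos_of_nonpos_of_nonneg (h0 x) hA.le)
      have h7 : 0 ≤ C * n := by positivity
      beta_reduce
      rw [lap]
      nlinarith [Real.exp_pos (u x / A)]
  rw [h2, integral_const, smul_eq_mul, mul_neg, neg_le_neg_iff, inv_mul_le_iff₀ hA] at h4
  linarith

theorem grad_log {G : M.Fam (Mat n)} (hG : M.Kae G) {r : M.X → ℝ} (hr : M.Sm r)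
    (h0 : ∀ x, 0 < r x) (h1 : ∀ x, M.lap G r x ≤ r x) :
    M.mn G (M.gr G (fun x => Real.log (r x)) fun x => Real.log (r x)) ≤ 1 := by
  obtain ⟨-, hf, -, hv, hi, -⟩ := mMU n M G hG.toMet
  have c1 : ∀ x, ContDiffAt ℝ (⊤ : ℕ∞) Real.log (r x) := fun x => Real.contDiffAt_log.2 (h0 x).ne'
  have s1 : M.Sm fun x => Real.log (r x) := hr.log fun x => (h0 x).ne'
  have a1 := (mLAP n M r r hr hr).2.2 G hG.toMet
  have a2 := (mLAP n M r _ hr s1).2.2 G hG.toMet
  have a3 := (mLAP n M _ _ s1 s1).2.2 G hG.toMet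
  have e1 : ∀ x, M.gr G (fun x => Real.log (r x)) (fun x => Real.log (r x)) x ≤
      1 - M.lap G (fun x => Real.log (r x)) x := fun x => by
    have d2 : deriv (deriv Real.log) (r x) = -((r x) ^ 2)⁻¹ := by
      rw [Real.deriv_log', deriv_inv]
    rw [(a2.2.2.2.1 _ c1 x).2, (a2.2.2.1 x 0).2.2.2.2.2.1, (a1.2.2.2.1 _ c1 x).2,
      (a1.2.2.2.1 _ c1 x).1, d2, Real.deriv_log]
    have b : (r x)⁻¹ * M.lap G r x ≤ 1 := by
      rw [inv_mul_le_iff₀ (h0 x), mul_one]
      exact h1 x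
    rw [← inv_pow]
    nlinarith
  have h2 := integral_mono (μ := M.mu G) (hi ℝ _ a3.2.1.continuous)
    (hi ℝ _ ((sm_const (1 : ℝ)).sub a3.1).continuous) e1
  rw [integral_sub (integrable_const _) (hi ℝ _ a3.1.continuous), ((mGRN n M).2 G _ _ hG s1 s1).1,
    integral_const, smul_eq_mul, mul_one, sub_zero] at h2
  exact (div_le_one hv).2 h2

end R94

theorem st_RC0 : St_RC0 := by
  intro n M _ H C hK hC
  obtain ⟨C₁, h1, hC₁, -⟩ := mPSH n M H C hK.toMet
  obtain ⟨-, hf, -, hv, hi, -⟩ := mMU n M H hK.toMet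
  have p2 : 0 ≤ (M.mu H).real univ * (C * n) := by positivity
  refine ⟨C₁ + (M.mu H).real univ * (C * n), by linarith, fun φ hφ hle h0 hz A hA => ⟨?_, ?_⟩,
    fun G r hG hr r0 r1 => ⟨R94.grad_log hG hr r0 r1, fun w hw x => ?_⟩⟩
  · have a1 := hC₁ φ hφ hle h0 hz
    have h2 := mul_meas_ge_le_integral_of_nonneg (μ := M.mu H) (f := fun x => -φ x)
      (Filter.Eventually.of_forall fun x => neg_nonneg.2 (h0 x)) (hi ℝ _ hφ.neg.continuous) A
    rw [integral_neg] at h2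
    rw [le_div_iff₀' (by linarith), show {x | φ x ≤ -A} = {x | A ≤ -φ x} from
      Set.ext fun x => (le_neg : φ x ≤ -A ↔ A ≤ -φ x)]
    linarith
  · refine (R94.grad_exp hK (by linarith) hφ hle h0 (by linarith)).trans ?_
    exact mul_le_mul_of_nonneg_right (by linarith) (by linarith)
  · have b := AllOn.ch ((mHES n M).2.2.1 w hw).2 x
    rw [Pi.zero_apply, Pi.zero_apply, sub_zero] at b
    exact HS76.tr_le_mul (hK.toMet.ev_pos x) (hG.toMet.ev_pos x) b

end Pool.Agent.Lib.RB
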