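import Pool.Agent.Lib.RB.Blue
import Pool.Agent.Lib.HS32.MAll
import Pool.Agent.Lib.HS.B_BRIDGE
import Pool.Agent.Lib.HS76.Diag

/-! Project rb9: from the statement to the manifold layer and back. -/

open scoped Classical Topology ContDiff ComplexOrder Matrix Manifold
open Set Complex Filter

noncomputable section

namespace Pool.Agent.Lib.RB

open Pool.Agent.Lib.SV (E Pluri jacAt)
open Pool.Agent.Lib.HS32 Pool.Agent.Lib.GH Pool.Agent.Lib.HS.BBR

namespace R32

variable {n : ℕ}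

theorem rm_curv {T : E n → Mat n} {z : E n} (hT : SmM T z) (h0 : (T z).det ≠ 0) (a v : E n) :
    rm T z a a v v = curv T z a v := by
  have e : HS.delb a T z * (T z)⁻¹ * HS.del a T z - HS.delb a (HS.del a T) z =
      ∑ k, ∑ l, (a k * star (a l)) • (T z * th T k l z) := by
    rw [delb_eq, delb_eq, del_eq, Finset.sum_comm]
    simp only [dMb_del hT, mul_th hT h0, Finset.sum_mul, Finset.mul_sum, Finset.smul_sum,
      smul_sub, Finset.sum_sub_distrib, Matrix.smul_mul, Matrix.mul_smul, smul_smul]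
    congr 1
    · exact Finset.sum_comm.trans (Finset.sum_congr rfl fun k _ => Finset.sum_congr rfl
        fun l _ => by rw [mul_comm])
    · exact Finset.sum_congr rfl fun k _ => Finset.sum_congr rfl fun l _ => by rw [mul_comm]
  rw [curv, e, rm]
  simp only [Matrix.sum_mulVec, dotProduct_sum, Matrix.smul_mulVec, dotProduct_smul, smul_eq_mul]

theorem frame {h ξ : Mat n} (hh : h.PosDef) (hξ : ξ.PosSemidef) :
    ∃ (w : Fin n → E n) (a : Fin n → ℝ),
      (∀ i j, star (w i) ⬝ᵥ h *ᵥ w j = if i = j then 1 else 0) ∧ (∀ i, 0 ≤ a i) ∧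
      ∀ k l, ξ k l = ∑ i, a i * (w i k * star (w i l)) := by
  have p := hξ.conjTranspose_mul_mul_same h
  obtain ⟨W, a, h1, h2⟩ := HS76.simul_diag hh p.1
  have q := p.conjTranspose_mul_mul_same W
  rw [h2, Matrix.posSemidef_diagonal_iff] at q
  have e1 : W * (Wᴴ * h) = 1 := mul_eq_one_comm.1 h1
  have e2 : h * W * Wᴴ = 1 := by
    have := congrArg Matrix.conjTranspose e1
    rwa [Matrix.conjTranspose_mul, Matrix.conjTranspose_mul, Matrix.conjTranspose_conjTranspose,
      hh.1.eq, Matrix.conjTranspose_one] at this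
  have e3 : ξ = W * Matrix.diagonal (fun i => (a i : ℂ)) * Wᴴ := by
    rw [← h2, hh.1.eq]
    calc ξ = W * (Wᴴ * h) * ξ * (h * W * Wᴴ) := by rw [e1, e2, Matrix.one_mul, Matrix.mul_one]
      _ = _ := by simp only [Matrix.mul_assoc]
  refine ⟨fun i k => W k i, a, fun i j => ?_, fun i => by exact_mod_cast q i, fun k l => ?_⟩
  · have := congrFun (congrFun h1 i) j
    rw [Matrix.one_apply, Matrix.mul_assoc] at this
    exact this
  · rw [e3, Matrix.mul_apply]
    simp only [Matrix.mul_diagonal, Matrix.conjTranspose_apply]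
    exact Finset.sum_congr rfl fun i _ => by ring

theorem qx_eq {T : E n → Mat n} {z : E n} {ξ : Mat n} {w : Fin n → E n} {a : Fin n → ℝ}
    (h : ∀ k l, ξ k l = ∑ i, a i * (w i k * star (w i l))) :
    (qx T ξ z).re = -∑ i, ∑ j, a i * a j * (rm T z (w i) (w i) (w j) (w j)).re := by
  have e : ∀ A : Mat n, (ξ * A).trace = ∑ j, a j * (star (w j) ⬝ᵥ A *ᵥ w j) := fun A => by
    simp only [Matrix.trace, Matrix.diag_apply, Matrix.mul_apply, h, dotProduct, Matrix.mulVec,
      Finset.sum_mul, Finset.mul_sum, Pi.star_apply]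
    calc _ = ∑ k, ∑ j, ∑ l, (a j : ℂ) * (w j k * star (w j l)) * A l k :=
          Finset.sum_congr rfl fun _ _ => Finset.sum_comm
      _ = _ := Finset.sum_comm.trans (Finset.sum_congr rfl fun j _ => Finset.sum_comm.trans
          (Finset.sum_congr rfl fun l _ => Finset.sum_congr rfl fun k _ => by ring))
  have e2 : qx T ξ z = -∑ i, ∑ j, ((a i * a j : ℝ) : ℂ) * rm T z (w i) (w i) (w j) (w j) := by
    simp only [qx, Matrix.mul_assoc, e, rm, neg_inj]
    simp only [h, Finset.sum_mul, Finset.mul_sum, ofReal_mul]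
    calc _ = ∑ k, ∑ l, ∑ p : Fin n × Fin n, (a p.1 : ℂ) * a p.2 * (w p.1 k * star (w p.1 l) *
          (star (w p.2) ⬝ᵥ (T z * th T k l z) *ᵥ w p.2)) := by
          simp only [Fintype.sum_prod_type]
          exact Finset.sum_congr rfl fun k _ => Finset.sum_congr rfl fun l _ =>
            Finset.sum_comm.trans (Finset.sum_congr rfl fun i _ => Finset.sum_congr rfl
              fun j _ => by ring)
      _ = ∑ p : Fin n × Fin n, ∑ k, ∑ l, _ :=
          (Finset.sum_congr rfl fun _ _ => Finset.sum_comm).trans Finset.sum_comm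
      _ = _ := Fintype.sum_prod_type _
  rw [e2, neg_re, re_sum]
  simp only [re_sum, re_ofReal_mul]

variable {X : Type} [TopologicalSpace X] [ChartedSpace (E n) X] [IsManifold 𝓘(ℂ, E n) ω X]

/-- The metric read in all charts. -/
def fam (h : X → Mat n) : (mf n X).Fam (Mat n) := fun e z =>
  (jm (chartAt (M := X) (E n) (e.symm z) ∘ e.symm) z)ᴴ * h (e.symm z) *
    jm (chartAt (M := X) (E n) (e.symm z) ∘ e.symm) z

theorem fam_ok {h : X → Mat n} (hh : Hermitian h) : (mf n X).Met (fam h) ∧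
    (Kaehler h → (mf n X).All fun e z => ClM (fam h e) z) ∧
    (RbcNonpos h → (mf n X).Rbc (fam h)) := by
  let M : Mf n := mf n X
  let c : M.X → M.Ch := chartAt (M := X) (E n)
  have hc : ∀ x, c x ∈ M.C := fun x y => ⟨cp_chart (X := X) x y, cp_chart (X := X) y x⟩
  have hs : ∀ x, x ∈ (c x).source := mem_chart_source (M := X) (E n)
  obtain ⟨hch, hov, -⟩ := mTR n M
  have hH : ∀ e : M.Ch, ∀ x ∈ e.source,
      fam h e (e x) = (M.J (c x) e x)ᴴ * h x * M.J (c x) e x := fun e x hx => by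
    simp only [fam, e.left_inv hx, Mf.J]
    rfl
  have cmp : M.Ov fun e e' x =>
      fam h e' (e' x) = (M.J e e' x)ᴴ * fam h e (e x) * M.J e e' x := by
    intro e he e' he' x hx hx'
    show fam h e' (e' x) = (M.J e e' x)ᴴ * fam h e (e x) * M.J e e' x
    rw [hH e x hx, hH e' x hx', (hov _ (hc x) e he x (hs x) hx).2.2.2.2 e' he' hx']
    simp only [Matrix.conjTranspose_mul, Matrix.mul_assoc]
  have pos : M.All fun e z => (fam h e z).PosDef := by
    intro e he z hz
    have h1 := (hov _ (hc (e.symm z)) e he _ (hs _) (e.map_target hz)).2.1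
    rw [Mf.J, e.right_inv hz] at h1
    exact (hh.pos _).conjTranspose_mul_mul_same
      (Matrix.mulVec_injective_iff_isUnit.2 ((Matrix.isUnit_iff_isUnit_det _).2 h1.isUnit))
  have key : M.All fun e z => SmM (fam h e) z ∧ (Kaehler h → ClM (fam h e) z) ∧
      ∀ a v, (rm (fam h e) z a a v v).re = curvAt h (e.symm z)
        (jm (c (e.symm z) ∘ e.symm) z *ᵥ a) (jm (c (e.symm z) ∘ e.symm) z *ᵥ v) := by
    intro e he z hz
    obtain ⟨h1, h2, -, h3, -⟩ := hov _ (hc (e.symm z)) e he _ (hs _) (e.map_target hz)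
    rw [Mf.J] at h2
    rw [e.right_inv hz] at h1 h2 h3
    have h4 : SmM (fam h (c (e.symm z))) (c (e.symm z) (e.symm z)) := hh.smooth (e.symm z)
    have h0 : (fam h (c (e.symm z)) (c (e.symm z) (e.symm z))).det ≠ 0 :=
      (pos _ (hc _) _ ((c _).map_source (hs _))).det_pos.ne'
    obtain ⟨h5, h6, h7⟩ := mPB n (c (e.symm z) ∘ e.symm) z (fam h (c (e.symm z))) (fam h e) h1 h2
      h4 (by
        filter_upwards [h3] with w hw
        have h8 : fam h e (e (e.symm w)) = _ := cmp _ (hc (e.symm z)) e he _ hw.2.1 hw.2.2.1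
        rw [hw.2.2.2.2.2.1, hw.2.2.2.2.2.2] at h8
        exact h8)
    refine ⟨h5, fun hk => h6 (clM_of (hk.closed (e.symm z))), fun a v => ?_⟩
    rw [(h7 h0).2.2.1]
    exact congrArg Complex.re (rm_curv h4 h0 _ _)
  refine ⟨⟨⟨⟨fun e he z hz => (key e he z hz).1, cmp⟩, fun e he z hz => (pos e he z hz).1⟩, pos⟩,
    fun hk e he z hz => (key e he z hz).2.1 hk, fun hr e he z hz ξ hξ => ?_⟩
  obtain ⟨w, a, h1, h2, h3⟩ := frame (pos e he z hz) hξ
  rw [qx_eq h3, Left.nonneg_neg_iff]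
  simp only [(key e he z hz).2.2]
  refine hr _ _ a (fun i j => ?_) h2
  rw [← h1 i j, Matrix.star_mulVec, ← Matrix.dotProduct_mulVec, Matrix.mulVec_mulVec,
    Matrix.mulVec_mulVec]
  rfl

end R32

open R32 in
theorem st_RBR : St_RBR := by
  intro n X _ _ _ _ _ _ g h hg hh hr
  let M : Mf n := mf n X
  let c : M.X → M.Ch := chartAt (M := X) (E n)
  have hc : ∀ x, c x ∈ M.C := fun x y => ⟨cp_chart (X := X) x y, cp_chart (X := X) y x⟩
  have hs : ∀ x, x ∈ (c x).source := mem_chart_source (M := X) (E n)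
  obtain ⟨hch, hov, -⟩ := mTR n M
  obtain ⟨g1, g2, -⟩ := fam_ok hg.toHermitian
  obtain ⟨k1, -, k2⟩ := fam_ok hh
  refine ⟨M, ⟨‹_›, ‹_›, ‹_›⟩, fam g, fam h, ⟨⟨g1.toForm, g2 hg⟩, g1.pos⟩, k1, k2 hr, ?_⟩
  rintro ⟨m, hm, hS⟩
  refine ⟨m, hm, fun x : M.X => ?_⟩
  obtain ⟨s, h1, h2⟩ := hS x
  refine ⟨fun y : M.X => s (c y) (c y y), fun y : M.X => ?_, fun h3 => h2 ?_⟩
  · refine (h1.hol _ (hc y) _ ((c y).map_source (hs y))).congr_of_eventuallyEq ?_
    filter_upwards [(c y).open_target.mem_nhds ((c y).map_source (hs y))] with w hw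
    have h4 : s (c y) (c y ((c y).symm w)) = _ :=
      h1.cmp _ (hc ((c y).symm w)) _ (hc y) _ (hs _) ((c y).map_target hw)
    have h5 := (hov _ (hc ((c y).symm w)) _ (hc y) _ (hs _) ((c y).map_target hw)).1
    rw [Mf.J] at h4
    rw [(c y).right_inv hw] at h4 h5
    rw [h4, ← (mCHN n _ _ h5).2.2.2.2.2.2.1]
    rfl
  · have h4 : M.ev s x = _ := h1.cmp _ (hc x) _ (hch x).1 x (hs x) (hch x).2
    have h5 : s (c x) (c x x) = 0 := h3
    rw [h4, h5, zero_mul]

end Pool.Agent.Lib.RB
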