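import Pool.Agent.Lib.RB.Blue
import Pool.Agent.Lib.HS76.Pt
import Pool.Agent.Lib.GH.B_GSE
import Pool.Agent.Lib.GH.B_GT2

/-! Project rb9: the gradient term controls the torsion. -/

open scoped Classical Topology ContDiff ComplexOrder Matrix Manifold
open Set MeasureTheory Complex Metric Filter

noncomputable section

namespace Pool.Agent.Lib.RB

open Pool.Agent.Lib.SV (E Pluri)
open Pool.Agent.Lib.HS32 Pool.Agent.Lib.GH

namespace R68

open Matrix

variable {n : ℕ} {G h : Mat n}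

theorem rk_le (hG : G.PosDef) (u : E n) :
    ((nq G u : ℂ) • G⁻¹ - vecMulVec u (star u)).PosSemidef := by
  refine HS76.le_tr_smul hG.inv (posSemidef_vecMulVec_self_star u) (le_of_eq ?_)
  rw [nonsing_inv_nonsing_inv _ hG.det_pos.ne'.isUnit, mul_vecMulVec, trace_vecMulVec, nq,
    dotProduct_comm]

theorem ip3_rk (h : Mat n) (D : Fin n → Mat n) (u v : E n) :
    HS76.ip3 (vecMulVec u (star u)) (vecMulVec v (star v)) h D D =
      star ((∑ k, u k • D k) *ᵥ v) ⬝ᵥ h *ᵥ ((∑ k, u k • D k) *ᵥ v) := by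
  have e : ∀ k l, (vecMulVec v (star v) * (D l)ᴴ * h * D k).trace =
      star (D l *ᵥ v) ⬝ᵥ h *ᵥ (D k *ᵥ v) := fun k l => by
    rw [Matrix.mul_assoc, Matrix.mul_assoc, vecMulVec_mul, trace_vecMulVec, dotProduct_comm,
      ← dotProduct_mulVec, star_mulVec, ← dotProduct_mulVec, mulVec_mulVec, mulVec_mulVec,
      Matrix.mul_assoc]
  simp only [HS76.ip3, e, vecMulVec_apply, Pi.star_apply, sum_mulVec, smul_mulVec, star_sum,
    star_smul, mulVec_sum, mulVec_smul, sum_dotProduct, dotProduct_sum, smul_dotProduct,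
    dotProduct_smul, smul_eq_mul, Finset.mul_sum]
  exact Finset.sum_congr rfl fun k _ => Finset.sum_congr rfl fun l _ => by ring

theorem nq_form (hG : G.PosDef) (hh : h.PosSemidef) (D : Fin n → Mat n) (u v : E n) :
    nq h ((∑ k, u k • D k) *ᵥ v) ≤ nq G u * nq G v * (HS76.ip3 G⁻¹ G⁻¹ h D D).re := by
  have := HS76.ip3_le (H' := h) (c := 1) (posSemidef_vecMulVec_self_star u)
    (posSemidef_vecMulVec_self_star v) hh (rk_le hG u) (rk_le hG v)
    (by simpa using PosSemidef.zero) D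
  rwa [ip3_rk, mul_one] at this

theorem nq_inv (hG : G.PosDef) (hh : h.PosDef) (a : E n) :
    nq G ((G⁻¹ * h) *ᵥ a) ≤ (G⁻¹ * h).trace.re * nq h a := by
  have e : ∀ {A : Mat n}, A.PosDef → ∀ w, nq A (A⁻¹ *ᵥ w) = nq A⁻¹ w := fun {A} hA w => by
    rw [nq, nq, mulVec_mulVec, mul_nonsing_inv _ hA.det_pos.ne'.isUnit, one_mulVec, star_mulVec,
      ← dotProduct_mulVec, hA.inv.1.eq]
  have h1 := G48.nq_le_tr hh.inv hG.inv.posSemidef (h *ᵥ a)
  rwa [nonsing_inv_nonsing_inv _ hh.det_pos.ne'.isUnit, trace_mul_comm, ← e hG, ← e hh,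
    mulVec_mulVec, mulVec_mulVec, nonsing_inv_mul _ hh.det_pos.ne'.isUnit, one_mulVec] at h1

theorem nq_smul (G : Mat n) (ε : ℝ) (P : Mat n) (a : E n) :
    nq G ((ε • P) *ᵥ a) = ε ^ 2 * nq G (P *ᵥ a) := by
  rw [nq, nq, smul_mulVec, mulVec_smul, star_smul, smul_dotProduct, dotProduct_smul, star_trivial,
    smul_re, smul_re, smul_eq_mul, smul_eq_mul]
  ring

theorem pt (hG : G.PosDef) (hh : h.PosDef) (D : Fin n → Mat n) {ε S y : ℝ} (hε : 0 < ε)
    (hS : ε * (G⁻¹ * h).trace.re ≤ S) (hy : (HS76.ip3 G⁻¹ G⁻¹ h D D).re ≤ y) (a b : E n) :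
    nq h (-asy D ((ε • (G⁻¹ * h)) *ᵥ a) b) ≤
      4 * S * ((h⁻¹ * G).trace.re * (ε * y)) * (nq h a * nq h b) := by
  set x := (ε • (G⁻¹ * h)) *ᵥ a with hx
  have a0 := G48.nq_pos hh.posSemidef a
  have b0 := G48.nq_pos hG.posSemidef b
  have x0 := G48.nq_pos hG.posSemidef x
  have e0 := HS76.ip3_nonneg hG.inv.posSemidef hG.inv.posSemidef hh.posSemidef D
  have x1 : nq G x ≤ ε * S * nq h a := by
    rw [hx, nq_smul]
    calc _ ≤ ε ^ 2 * ((G⁻¹ * h).trace.re * nq h a) := by gcongr; exact nq_inv hG hh a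
      _ = ε * (ε * (G⁻¹ * h).trace.re) * nq h a := by ring
      _ ≤ _ := by gcongr
  have b1 := G48.nq_le_tr hh hG.posSemidef b
  have c1 : nq G x * nq G b * (HS76.ip3 G⁻¹ G⁻¹ h D D).re ≤
      ε * S * nq h a * ((h⁻¹ * G).trace.re * nq h b) * y :=
    mul_le_mul (mul_le_mul x1 b1 b0 (x0.trans x1)) hy e0 (mul_nonneg (x0.trans x1) (b0.trans b1))
  have c2 := nq_form hG hh.posSemidef D x b
  have c3 := nq_form hG hh.posSemidef D b x
  have c4 := G48.nq_sub hh.posSemidef ((∑ k, b k • D k) *ᵥ x) ((∑ k, x k • D k) *ᵥ b)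
  rw [asy, neg_sub]
  rw [mul_comm (nq G b)] at c3
  linarith

end R68

theorem st_RTB (h1 : St_RCL) : St_RTB := by
  intro n M G h ε S hG hh hr hε hS e he z hz a b
  obtain ⟨-, -, -, c1, c2⟩ := h1 n M G h hG hh
  have t1 := ((mINV n M G hG.toMet).1 h hh.toTen).1 e he z hz
  have t2 := ((mINV n M h hh).1 G hG.toTen).1 e he z hz
  have s1 := hS (e.symm z)
  rw [t1] at s1
  rw [t2, (st_GSE n (G e) (h e) 1 z one_pos (hG.sm e he z hz) (hh.sm e he z hz)
    ((e.open_target.eventually_mem hz).mono fun w hw =>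
      ⟨hG.pos e he w hw, hh.pos e he w hw, hG.cl e he w hw⟩)).2.2.2]
  refine R68.pt (hG.pos e he z hz) (hh.pos e he z hz) _ hε s1 ?_ a b
  have := (c2 hr).1 e he z hz
  rw [(c1 e he z hz).1, HS76.ip3_cyc]
  exact le_add_of_nonneg_right this

end Pool.Agent.Lib.RB
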