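import Pool.Agent.Lib.GH.Defs
import Pool.Agent.Lib.HS32.EKit
import Pool.Agent.Lib.HS68.Fun
import Pool.Agent.Lib.HS76.Pt

/-! The curvature of a Hermitian metric vanishes on a parallel subbundle in the kernel of the
torsion, in the equality case of the inequality of Royden. -/

open scoped Classical Topology ContDiff ComplexOrder Matrix
open Set Complex Filter Matrix

noncomputable section

namespace Pool.Agent.RB85

open Pool.Agent.Lib.HS76

section alg

variable {n : Type*} [Fintype n] [DecidableEq n]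

theorem q4_single (R : n → n → n → n → ℂ) (k l i j : n) :
    q4 R (Pi.single k 1) (Pi.single l 1) (Pi.single i 1) (Pi.single j 1) = R k l i j := by
  unfold q4
  simp only [Pi.single_apply, apply_ite star, star_one, star_zero, ite_mul, one_mul, zero_mul,
    mul_ite, mul_one, mul_zero]
  simp

variable {H P Q S : Matrix n n ℂ} {Th : n → n → Matrix n n ℂ}

/-- The pointwise statement. -/
theorem flat_pt (hHp : H.PosDef) (hPP : P * P = P) (hP : (H * P).IsHermitian)
    (hc : ∀ k l, Th k l * P = P * Th k l)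
    (ht : ∀ l i j m, ∑ k, P k m * Th k l i j = (Th j l * P) i m)
    (hh : ∀ k l, (H * Th k l)ᴴ = H * Th l k)
    (hH : ∀ v : n → ℂ, (∑ k, ∑ l, v k * star (v l) * (star v ⬝ᵥ (H * Th k l) *ᵥ v)).re ≤ 0)
    (hA : (Q * H⁻¹).PosSemidef) (hPQ : P * Q = Q) (hS : P = Q * S)
    (h0 : 0 ≤ (∑ k, ∑ l, (Q * H⁻¹) k l * (Q * H⁻¹ * (H * Th k l)).trace).re) (k l : n) :
    Th k l * P = 0 := by
  have hd : IsUnit H.det := (isUnit_iff_isUnit_det _).mp hHp.isUnit
  have e1 : Pᴴ * H = H * P := by rw [← hP.eq, conjTranspose_mul, hHp.1.eq]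
  set R : n → n → n → n → ℂ := fun k l i j => (H * Th k l) j i with hR
  set R' : n → n → n → n → ℂ := fun k l i j => (H * Th k l * P) j i with hR'
  have rh : ∀ k l i j, star (R k l i j) = R l k j i := fun k l i j => by
    simp only [hR]
    rw [← hh k l, conjTranspose_apply]
  have f0 : ∀ a b v w, q4 R' a b v w = q4 R a b (P *ᵥ v) w := fun a b v w => by
    rw [hR, hR', q4_fam (fun k l => H * Th k l), q4_fam (fun k l => H * Th k l * P)]
    simp only [mulVec_mulVec]
  have f1 : ∀ a b v w, q4 R a b (P *ᵥ v) w = q4 R a b v (P *ᵥ w) := fun a b v w => by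
    rw [hR, q4_fam (fun k l => H * Th k l), q4_fam (fun k l => H * Th k l)]
    refine Finset.sum_congr rfl fun k _ => Finset.sum_congr rfl fun l _ => ?_
    rw [mulVec_mulVec, Matrix.mul_assoc, hc, ← Matrix.mul_assoc, ← e1, star_mulVec,
      ← dotProduct_mulVec, mulVec_mulVec, Matrix.mul_assoc]
  have f2 : ∀ a b v w, q4 R (P *ᵥ a) b v w = q4 R v b (P *ᵥ a) w := fun a b v w => by
    have e : ∀ l, ∑ k, (P *ᵥ a) k • (Th k l *ᵥ v) = ∑ k, v k • (Th k l *ᵥ (P *ᵥ a)) := fun l => by
      ext i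
      simp only [mulVec_mulVec]
      simp only [Finset.sum_apply, Pi.smul_apply, mulVec, dotProduct, smul_eq_mul, ← ht,
        Finset.mul_sum, Finset.sum_mul]
      rw [Finset.sum_comm]
      refine Finset.sum_congr rfl fun j _ => ?_
      rw [Finset.sum_comm]
      exact Finset.sum_congr rfl fun m _ => Finset.sum_congr rfl fun k _ => by ring
    have e' : ∀ x y : n → ℂ, q4 R x b y w =
        ∑ l, star (b l) * (star w ⬝ᵥ H *ᵥ ∑ k, x k • (Th k l *ᵥ y)) := fun x y => by
      rw [hR, q4_fam (fun k l => H * Th k l), Finset.sum_comm]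
      refine Finset.sum_congr rfl fun l _ => ?_
      simp only [mulVec_sum, dotProduct_sum, mulVec_smul, dotProduct_smul, smul_eq_mul,
        mulVec_mulVec, Finset.mul_sum]
      exact Finset.sum_congr rfl fun k _ => by ring
    rw [e', e']
    simp only [e]
  have pp : ∀ v, P *ᵥ P *ᵥ v = P *ᵥ v := fun v => by rw [mulVec_mulVec, hPP]
  have f3 : ∀ a b v w, q4 R' a b v w = q4 R (P *ᵥ a) b (P *ᵥ v) w := fun a b v w => by
    rw [f0, ← pp v, f1, ← f2, ← f1, f2 a, pp]
  have f4 : ∀ a b v w, q4 R' a b v w = q4 R' v b a w := fun a b v w => by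
    rw [f3, f3, f2]
  have f5 : ∀ a b v w, star (q4 R' a b v w) = q4 R' b a w v := fun a b v w => by
    rw [f0, f0, q4_star rh, f1]
  have r13 : ∀ k l i j, R' k l i j = R' i l k j := fun k l i j => by
    rw [← q4_single R', f4, q4_single]
  have rh' : ∀ k l i j, star (R' k l i j) = R' l k j i := fun k l i j => by
    rw [← q4_single R', f5, q4_single]
  have r24 : ∀ k l i j, R' k l i j = R' k j i l := fun k l i j => by
    rw [← rh', r13, rh']
  have f6 : ∀ v, q4 R' v v v v = q4 R' (P *ᵥ v) (P *ᵥ v) (P *ᵥ v) (P *ᵥ v) := fun v => by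
    have a : ∀ a b v w, q4 R' a b v w = q4 R' (P *ᵥ a) b (P *ᵥ v) w := fun a b v w => by
      rw [f3, f3, pp, pp]
    rw [a, ← f5, a, f5]
  have rH : ∀ v, (q4 R' v v v v).re ≤ 0 := fun v => by
    rw [f6, f0, pp, hR, q4_fam (fun k l => H * Th k l)]
    exact hH _
  have z := royden_zero r13 r24 rH hA (by
    rw [hR', q2_fam (fun k l => H * Th k l * P)]
    refine h0.trans_eq (congrArg _ (Finset.sum_congr rfl fun k _ => Finset.sum_congr rfl
      fun l _ => ?_))
    rw [← Matrix.mul_assoc _ _ P, trace_mul_comm _ P, ← Matrix.mul_assoc P, ← Matrix.mul_assoc P,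
      hPQ])
  have hz : H * Th k l * P = 0 := by
    ext j i
    have := (k4_q4 r13 r24).polar ⊤ (fun v _ => by
      have := z (H *ᵥ S *ᵥ v)
      rw [mulVec_mulVec, Matrix.mul_assoc, nonsing_inv_mul _ hd, Matrix.mul_one, mulVec_mulVec,
        ← hS, ← f6] at this
      exact q4_eq_zero_of_re rh' this) (x := Pi.single k 1) (y := Pi.single l 1)
      (z := Pi.single i 1) (w := Pi.single j 1) trivial trivial trivial trivial
    rwa [q4_single] at this
  rw [← nonsing_inv_mul_cancel_left H (Th k l * P) hd, ← Matrix.mul_assoc H, hz, Matrix.mul_zero]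

end alg

open Pool.Agent.Lib.SV (E)
open Pool.Agent.Lib.HS32 Pool.Agent.Lib.HS68

variable {n : ℕ} {h P : E n → Mat n} {z : E n}

/-- The `(0,1)` derivative of the vanishing of the torsion. -/
theorem dbar_tors (hh : Loc h z) (hP : SmM P z) (h1 : ∀ l, dMb l P z = 0)
    (ht : ∀ᶠ w in 𝓝 z, ∀ a b, tors h w (P w *ᵥ a) b = 0) (l i j m : Fin n) :
    ∑ k, P z k m * th h k l z i j = (th h j l z * P z) i m := by
  have e : (fun w => ∑ k, P w k m * gam h k w i j) =ᶠ[𝓝 z]
      fun w => ∑ k, gam h j w i k * P w k m := ht.mono fun w hw => by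
    have := congrFun (hw (Pi.single m 1) (Pi.single j 1)) i
    simpa [tors, asy, Pi.single_apply, Matrix.sum_apply, sub_eq_zero, mulVec, dotProduct] using this
  have e' := dzb_congr (j := l) e
  have g := fun k => hh.smM_gam k
  have p : ∀ a b, dzb l (fun w => P w a b) z = 0 := fun a b => congrFun (congrFun (h1 l) a) b
  rw [dzb_sum fun k _ => (hP.diff k m).fun_mul ((g k).diff i j),
    dzb_sum fun k _ => ((g j).diff i k).fun_mul (hP.diff k m)] at e'
  simp only [dzb_mul (hP.diff _ m) ((g _).diff i j), dzb_mul ((g j).diff i _) (hP.diff _ m), p,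
    zero_mul, zero_add, mul_zero, add_zero] at e'
  simp only [th, dMb, Matrix.mul_apply, Matrix.neg_apply, Matrix.of_apply, mul_neg, neg_mul,
    Finset.sum_neg_distrib, e']

/-- The local statement. -/
theorem flat_loc (hh : Loc h z) (hP : SmM P z) (h1 : ∀ l, dMb l P z = 0)
    (ht : ∀ᶠ w in 𝓝 z, ∀ a b, tors h w (P w *ᵥ a) b = 0) (hPP : P z * P z = P z)
    (hs : (h z * P z).IsHermitian) (hc : ∀ k l, th h k l z * P z = P z * th h k l z)
    (hH : ∀ v, (rm h z v v v v).re ≤ 0) {Q S : Mat n} (hA : (Q * (h z)⁻¹).PosSemidef)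
    (hPQ : P z * Q = Q) (hS : P z = Q * S)
    (h0 : 0 ≤ (∑ k, ∑ l, (Q * (h z)⁻¹) k l * (Q * (h z)⁻¹ * (h z * th h k l z)).trace).re)
    (k l : Fin n) : th h k l z * P z = 0 :=
  flat_pt (Th := fun k l => th h k l z) hh.pos hPP hs hc (dbar_tors hh hP h1 ht) hh.mul_th_herm
    hH hA hPQ hS h0 k l

end Pool.Agent.RB85
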