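import Pool.Agent.Lib.RB.Blue
import Pool.Agent.Lib.HS32.MAll
import Pool.Agent.Lib.HS76.Diag

/-! Project rb9: the rank of the limit. -/

open scoped Classical Topology ContDiff ComplexOrder Matrix
open Set MeasureTheory Complex Metric Filter

noncomputable section

namespace Pool.Agent.Lib.RB

open Pool.Agent.Lib.SV (E)
open Pool.Agent.Lib.HS32 Pool.Agent.Lib.HS32.Mf Pool.Agent.Lib.HS76

namespace R14

theorem det_le {n k : ℕ} {h Q P : Mat n} {a b t c : ℝ} (hh : h.PosDef) (ha : 0 < a) (ht : 0 ≤ t)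
    (h1 : (h * P).IsHermitian) (h2 : P * P = P) (h3 : (h * Q - a • (h * P)).PosSemidef)
    (h4 : (b • (h * P) - h * Q).PosSemidef) (h5 : (1 + t • Q).det = c)
    (h6 : (1 + (t * b) • P).det = ((1 + t * b : ℝ) : ℂ) ^ k) : c ≤ (1 + t * b) ^ k := by
  have p1 : (h * P).PosSemidef := by
    have := hh.posSemidef.conjTranspose_mul_mul_same P
    rwa [← hh.1.eq, ← Matrix.conjTranspose_mul, h1.eq, mul_assoc, h2] at this
  have p2 := h3.add (psd_rsmul p1 ha.le)
  rw [sub_add_cancel] at p2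
  have p3 := det_mono (hh.add_posSemidef (psd_rsmul p2 ht)) (B := h + (t * b) • (h * P)) (by
    have := psd_rsmul h4 ht
    rwa [smul_sub, smul_smul, ← add_sub_add_left_eq_sub _ _ h] at this)
  have e : ∀ (r : ℝ) (A : Mat n), h + r • (h * A) = h * (1 + r • A) := fun r A => by
    rw [mul_add, mul_one, Matrix.mul_smul]
  rw [e, e, Matrix.det_mul, Matrix.det_mul, h5, h6, ← ofReal_pow, re_mul_ofReal, re_mul_ofReal]
    at p3
  exact le_of_mul_le_mul_left p3 (pd_det_re hh)

end R14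

theorem st_RKL (hVO : St_RVO) (hMN : St_RMN) (hPA : St_RPA) : St_RKL := by
  intro n M _ H h Q P k k' C a b g ε φ f l _ hH hh hr ho hv hs hl hQ hL hP
  obtain ⟨C₁, hC₁, h1⟩ := hVO n M H k hH ho hv
  obtain ⟨C₀, hC₀, h2, -⟩ := (mBD n M h hh).1 H hH.toForm
  have hb := hP.b0
  have key : ∀ s : ℝ, 0 ≤ s → (1 + s) ^ k ≤ C₁ * (1 + s * C₀ * b) ^ k' := fun s hs0 => by
    obtain ⟨c, hc⟩ := (hPA n M h Q hh hQ).2.2 (s * C₀)
    have h3 := hMN n M H h Q 1 k C g ε φ f l (s * C₀) c hH hh hr hs hQ.en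
      ⟨fun _ _ _ _ => smM_const 1, fun _ _ _ _ _ _ _ => by simp⟩ hL
      (by simpa only [Pi.one_apply, mul_one] using hc)
    rw [mul_one] at h3
    have h4 : ∀ᶠ j in l, (1 + s) * ε j ≤ 1 := by
      have := (hs.e0.mono_left hl).const_mul (1 + s)
      rw [mul_zero] at this
      exact this.eventually (eventually_le_nhds one_pos)
    have h5 : (1 + s) ^ k ≤ C₁ * c := by
      refine ge_of_tendsto (h3.const_mul C₁) (h4.mono fun j hj => ?_)
      have hm := (hs.kae j).toMet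
      have he := (hs.eps j).1
      obtain ⟨-, -, -, hV, hi, -⟩ := mMU n M _ hm
      have i := fun T (hT : M.Met T) (r : ℝ) => hi ℝ _
        ((mINV n M _ hm).1 _ (hm.toTen.add (hT.toTen.smul r))).2.2.2.1.continuous
      refine ((h1 _ _ _ (hs.kae j) (hs.sm j) (hs.eps j) (hs.cls j)).2.2 s hs0 hj).trans
        (mul_le_mul_of_nonneg_left (div_le_div_of_nonneg_right
          (integral_mono (i H hH.toMet _) (i h hh _) fun x => ?_) hV.le) (by linarith))
      have q := det_mono ((hm.ev_pos x).add_posSemidef (psd_rsmul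
        (hH.toMet.ev_pos x).posSemidef (mul_nonneg hs0 he.le)))
        (B := M.ev (g j) x + (s * C₀ * ε j) • M.ev h x) (by
          have := psd_rsmul (AllOn.ch h2 x) (mul_nonneg hs0 he.le)
          rwa [Pi.smul_apply, Pi.smul_apply, smul_sub, smul_smul, mul_right_comm,
            ← add_sub_add_left_eq_sub _ _ (M.ev (g j) x)] at this)
      rw [dq, dq, ← herm_det (hm.ev_pos x).1, div_ofReal_re, div_ofReal_re]
      exact div_le_div_of_nonneg_right q (pd_det_re (hm.ev_pos x)).le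
    obtain ⟨x⟩ : Nonempty M.X := inferInstance
    exact h5.trans (mul_le_mul_of_nonneg_left (R14.det_le (hh.ev_pos x) hP.a0
      (mul_nonneg hs0 hC₀.le) (AllOn.ch hP.herm x) (AllOn.ch hP.idem x) (AllOn.ch hP.lo x)
      (AllOn.ch hP.hi x) (AllOn.ch hc x) (AllOn.ch (hP.det _) x)) (by linarith))
  by_contra hk
  obtain ⟨s, hs'⟩ : ∃ s, s = C₁ * (1 + C₀ * b) ^ k' := ⟨_, rfl⟩
  have s0 : 0 ≤ s := by rw [hs']; positivity
  have p : 0 ≤ C₀ * b := by positivity
  have q1 := pow_le_pow_right₀ (by linarith : 1 ≤ 1 + s) (Nat.succ_le_of_lt (not_le.1 hk))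
  have q2 := pow_le_pow_left₀ (by positivity) (by nlinarith [mul_nonneg s0 p] :
    1 + s * C₀ * b ≤ (1 + C₀ * b) * (1 + s)) k'
  have q3 := q1.trans ((key s s0).trans (mul_le_mul_of_nonneg_left q2 (by linarith)))
  rw [mul_pow, ← mul_assoc, ← hs', pow_succ'] at q3
  linarith [le_of_mul_le_mul_right q3 (by positivity)]

end Pool.Agent.Lib.RB
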