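import Pool.Agent.Lib.RB.TDefs
import Pool.Agent.Lib.GH.B_GSB

/-! Project rb9: bounds for the solutions of the twisted equation. -/

open scoped Topology ComplexOrder Matrix
open Set MeasureTheory Filter

namespace Pool.Agent.Lib.RB

open Pool.Agent.Lib.HS32 Pool.Agent.Lib.HS32.Mf Pool.Agent.Lib.HS76
open Pool.Agent.Lib.GH.G34 (sol_ric sol_det ip_ric)

theorem st_TSB : St_TSB := by
  intro n M _ H h B hn hK hh hg hB hB0
  obtain ⟨K, hK1, hS⟩ := schwarz hn hK.toMet hh hg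
  obtain ⟨c, hc, hr, -⟩ := (mBD n M H hK.toMet).1 _
    (hB.sub ((mHES n M).2.2.2.2.2.2.2.2.1 H hK.toMet)).toForm
  have p1 : 0 < (1 + c) ^ n := by positivity
  have p2 : (1 + c) ^ n ≤ (1 + c) ^ n * K ^ (n - 1) :=
    le_mul_of_one_le_right p1.le (one_le_pow₀ hK1)
  refine ⟨(1 + c) ^ n * K ^ (n - 1) + K, by linarith, fun ε hε u hu => ?_⟩
  have h1 : M.Le (ε • H + B - M.ric H) ((1 + c) • H) := by
    have := (hK.toMet.le_smul hε.2).add hr
    rwa [← add_smul, ← add_sub_assoc] at this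
  have h2 : ∀ x, Real.exp (u x) ≤ (1 + c) ^ n := by
    obtain ⟨y, hy⟩ := hu.sm.exists_max
    have h3 := ((((mLAP n M _ _ hu.sm hu.sm).2.2 _ hK.toMet).2.2.1 y 0).2.2.2.2.2.2.2.2.1
      (Eventually.of_forall hy)).2.2 _ (ch_mem y) (mem_ch y)
    have h4 := (AllOn.ch h1 y).add h3
    rw [← sub_eq_add_neg, sub_sub] at h4
    have h6 := det_le_of_le (c := 1 + c) (hK.toMet.ev_pos y) (hu.kae.toMet.ev_pos y).posSemidef h4
    have h7 := AllOn.ch (sol_det hK hu) y
    rw [ch_symm] at h7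
    rw [Fintype.card_fin, ev, ev, h7] at h6
    exact fun x => (Real.exp_le_exp.2 (hy x)).trans
      (le_of_mul_le_mul_right h6 (pd_det_re (hK.toMet.ev_pos y)))
  have h0 : M.Le ((ε / K) • H) (M.gB H B ε u) := (hS _ (ε • H + B) ε hε.1 hu.kae
    (by simpa only [add_zero] using (Le.refl (ε • H)).add hB0) (sol_ric hK hu)).2
  have h3 : M.Le ((ε / ((1 + c) ^ n * K ^ (n - 1) + K)) • H) (M.gB H B ε u) :=
    (hK.toMet.le_smul (div_le_div_of_nonneg_left hε.1.le (by linarith) (by linarith))).trans h0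
  refine ⟨sol_ric hK hu, fun x => ?_, h3,
    Le.trans (T := ((1 + c) ^ n / (ε / K) ^ (Fintype.card (Fin n) - 1)) • H)
      (fun e he z hz => ?_) (hK.toMet.le_smul ?_),
    fun x => ⟨?_, by linarith [h2 x, Real.add_one_le_exp (u x)]⟩, fun f => ?_⟩
  · obtain ⟨-, hp, hq⟩ := hg _ hu.kae
    refine le_trans ?_ (hq x)
    have h4 := ip_mono hu.kae.toMet hh (hK.toMet.smul hε.1).nonneg x
    rw [ip_smul, ← zero_smul ℝ H, ip_smul] at h4
    rw [le_div_iff₀ (hp x)]
    linarith [ip_ric hK hh hB0 hu x]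
  · refine le_of_det_le (hK.pos e he z hz) (hu.kae.herm e he z hz) (div_pos hε.1 (by linarith))
      (h0 e he z hz) ?_
    rw [sol_det hK hu e he z hz]
    exact mul_le_mul_of_nonneg_right (h2 _) (pd_det_re (hK.pos e he z hz)).le
  · rw [Fintype.card_fin, div_pow, div_div_eq_mul_div, div_eq_mul_inv, ← inv_pow]
    exact mul_le_mul (by linarith) (pow_le_pow_right₀ ((one_le_inv₀ hε.1).2 hε.2) (Nat.sub_le _ _))
      (by have := hε.1; positivity) (by linarith)
  · have h0 : 0 < ε / ((1 + c) ^ n * K ^ (n - 1) + K) := div_pos hε.1 (by linarith)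
    have h4 := le_det_of_le (hK.toMet.ev_pos x) (hu.kae.toMet.ev_pos x).1 h0.le (AllOn.ch h3 x)
    have h5 := AllOn.ch (sol_det hK hu) x
    rw [ch_symm] at h5
    rw [Fintype.card_fin, ev, ev, h5] at h4
    rw [← Real.log_pow, Real.log_le_iff_le_exp (pow_pos h0 n)]
    exact le_of_mul_le_mul_right h4 (pd_det_re (hK.toMet.ev_pos x))
  · rw [((mMU n M H hK.toMet).2.2.2.2.2.2 _ hu.kae.toMet).2.1 f]
    simp only [hu.det, mul_comm]

end Pool.Agent.Lib.RB
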