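import Pool.Agent.Lib.RB.Tail
import Pool.Agent.Lib.RB.B_TSB
import Pool.Agent.Lib.GH.B_GGR
import Pool.Agent.Lib.GH.B_GSM
import Pool.Agent.Lib.HS.All

/-! Project rb9: the first and the last steps, without hypotheses. -/

open scoped ComplexOrder Matrix
open MeasureTheory

namespace Pool.Agent.Lib.RB

open Pool.Agent.Lib.HS32 Pool.Agent.Lib.GH

theorem st_TGR : St_TGR := by
  intro n M _ H h B hn hH hh hg hB h0
  obtain ⟨Cs, hCs, sb⟩ := st_TSB n M H h B hn hH hh hg hB h0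
  obtain ⟨C, N, hC, q⟩ := G94.gen HS.asCALG M hn hH hh.toForm hB.toForm hCs
  refine ⟨C, N, hC, fun ε hε u hu x => ?_⟩
  obtain ⟨ric, -, lo, up, -⟩ := sb ε hε u hu
  exact q ε hε _ hu.kae ric lo up x

theorem st_TSM : St_TSM := by
  intro n M _ H h B c C hn hH hh hg hB hB0 hc hv
  obtain ⟨C₁, hC₁, hs⟩ := st_TSB n M H h B hn hH hh hg hB hB0
  obtain ⟨C₂, N, hC₂, hgr⟩ := st_TGR n M H h B hn hH hh hg hB hB0
  exact G28.core HS.asRHO HS.asPOP M hn hH hh hB.toForm hc hC₁ hC₂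
    (fun ε hε u hu => ⟨(hs ε hε u hu).2.1, (hs ε hε u hu).2.2.2.2.1⟩) hgr hv

variable {n : ℕ} {M : Mf n} [M.Cpt] {H h P : M.Fam (Mat n)} {k : ℕ}

theorem sol_ex (hn : 0 < n) (hH : M.Kae H) (hh : M.Met h) (hc : M.CLh h) (ε : ℝ) (hε : 0 < ε) :
    ∃ u, M.Sol H ε u := by
  obtain ⟨u, u1, u2, u3⟩ := nef HS.asAUBIN hn hH hh hc _ (hH.smul hε)
  exact ⟨u, u1, u2, u3⟩

theorem semi_of_flat (hn : 0 < n) (hH : M.Kae H) (hh : M.Met h) (hc : M.CLh h)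
    (hf : M.Fl0 h P k) (ht : M.All fun e z => ∀ a b, tors (h e) z (P e z *ᵥ a) b = 0)
    (hv : 0 < ∫ x, M.dq H (h * P - M.ric h) x ∂M.mu H) : M.Semi :=
  tail HS.asAUBIN st_TSM HS.asSEC4 HS.asPEAK hn hH hh hc
    ⟨hf, st_GT1' n M H h P k hH hh hf, ht⟩ hv

end Pool.Agent.Lib.RB
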