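import Pool.Agent.Lib.RB.Blue
import Pool.Agent.Lib.HS32.MAll

/-! The good sequence of metrics and cut-off functions. -/

open scoped Classical Topology ContDiff ComplexOrder Matrix
open Set MeasureTheory Complex Metric Filter

noncomputable section

namespace Pool.Agent.Lib.RB

open Pool.Agent.Lib.SV (E)
open Pool.Agent.Lib.HS32 Pool.Agent.Lib.HS32.Mf

namespace R66

variable {n : ℕ} {M : Mf n}

/-- Change from the volume of `H` to the weighted volume of `G` on the support of `f`. -/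
theorem int_le [M.Cpt] {H G : M.Fam (Mat n)} (hH : M.Met H) (hG : M.Met G) {f r Y φ : M.X → ℝ}
    {A L C : ℝ} (hC : 0 ≤ C) (hf : M.Sm f) (hr : M.Sm r) (hY : M.Sm Y) (hf1 : ∀ x, f x ≤ 1)
    (hr0 : ∀ x, 0 < r x) (hY0 : ∀ x, 0 ≤ Y x)
    (hs : ∀ x, f x ≠ 0 → -(2 * A) ≤ φ x ∧ Real.exp (-(2 * L)) ≤ r x)
    (hl : ∀ x, Real.exp (φ x) * M.vv G ≤ C * M.dq H G x) :
    ∫ x, f x * Y x ∂M.mu H ≤
      Real.exp (2 * A) * Real.exp (2 * L) * C * M.mn G fun x => r x * Y x := by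
  obtain ⟨-, -, -, -, hint, -, hch⟩ := mMU n M H hH
  have hv : 0 < M.vv G := (mMU n M G hG).2.2.2.1
  have hq := ((mINV n M H hH).2.2.2.2.2.2.2 G hG).1
  have hqs := ((mINV n M H hH).1 G hG.toTen).2.2.2.1
  rw [Mf.mn, (hch G hG).2.1, mul_div_assoc', le_div_iff₀ hv, ← integral_const_mul,
    ← integral_mul_const]
  refine integral_mono ((hint ℝ _ (hf.mul hY).continuous).mul_const _)
    ((hint ℝ _ (hqs.mul (hr.mul hY)).continuous).const_mul _) fun x => ?_
  have h0 := hq x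
  have h1 := hr0 x
  have h2 := hY0 x
  beta_reduce
  by_cases h : f x = 0
  · rw [h, zero_mul, zero_mul]
    positivity
  obtain ⟨h3, h4⟩ := hs x h
  have h5 : 1 ≤ Real.exp (2 * L) * r x := by
    rwa [Real.exp_neg, inv_le_iff_one_le_mul₀' (Real.exp_pos _)] at h4
  have h6 : M.vv G ≤ Real.exp (2 * A) * (C * M.dq H G x) := by
    refine le_trans ?_ (mul_le_mul_of_nonneg_left (hl x) (Real.exp_pos _).le)
    rw [← mul_assoc, ← Real.exp_add]
    exact le_mul_of_one_le_left hv.le (Real.one_le_exp (by linarith))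
  calc f x * Y x * M.vv G ≤ (Real.exp (2 * L) * r x) * Y x *
        (Real.exp (2 * A) * (C * M.dq H G x)) :=
        mul_le_mul (mul_le_mul_of_nonneg_right ((hf1 x).trans h5) h2) h6 hv.le (by positivity)
    _ = _ := by ring

end R66

open R66

theorem st_RSQ (hCL : St_RCL) (hT1 : St_RT1) (hT2 : St_RT2) (hCH : St_RCH) (hNO : St_RNO)
    (hC0 : St_RC0) (hC1 : St_RC1) (hON : St_RON) : St_RSQ := by
  intro n M _ H h k C g φ hn hH hh hb hI
  obtain ⟨-, S₁, hS₁, hT⟩ := hT1 n M h g hh hb hI.kae hI.ric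
  obtain ⟨S, hS, h2⟩ := hT2 n M h g hh hb hI.kae hI.ric
  obtain ⟨c, hc, h3⟩ := hNO n M H k C g φ hn hH hI
  obtain ⟨D₀, hD₀, h4, -⟩ := hC0 n M H C hH hI.one
  obtain ⟨D₁, hD₁, h5⟩ := hC1 n M H C hH hI.one
  obtain ⟨-, hfin, -⟩ := mMU n M H hH.toMet
  have hC : 0 < C := one_pos.trans_le hI.one
  have hle : ∀ j, M.Le 0 (C • H + M.hs (φ j)) := fun j => (hI.kae j).toMet.nonneg.trans (hI.le j)
  have hY := fun j => hCL n M (g j) h (hI.kae j) hh
  have hY0 : ∀ j x, 0 ≤ (1 / 2 : ℝ) ^ j * M.yT (g j) h x := fun j x =>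
    mul_nonneg (by positivity) (((hY j).2.2.2.2 hb).2.1 x)
  have key : ∀ i : ℕ, ∃ (j : ℕ) (f : M.X → ℝ), i ≤ j ∧ M.Sm f ∧ (∀ x, 0 ≤ f x ∧ f x ≤ 1) ∧
      c - D₀ / (i + 1) ≤ (M.mu H).real {x | f x = 1} ∧
      ∫ x, √(M.gr H f f x) ∂M.mu H ≤ D₁ / √(i + 1) + D₁ * Real.exp (-(i + 1)) ∧
      ∫ x, f x * ((1 / 2) ^ (j + 1) * M.yT (g (j + 1)) h x) ∂M.mu H ≤ 1 / (i + 1) := fun i => by
    set A : ℝ := i + 1 with hA
    have hA1 : 1 ≤ A := le_add_of_nonneg_left (Nat.cast_nonneg i)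
    have hA0 : 0 < A := one_pos.trans_le hA1
    set L : ℝ := Real.exp (2 * A) with hL
    have hL1 : 1 ≤ L := Real.one_le_exp (by linarith)
    set K : ℝ := Real.exp (2 * A) * Real.exp (2 * L) * C with hK
    have hK0 : 0 < K := by positivity
    obtain ⟨m₀, hm₀⟩ := exists_nat_ge (K * S * A)
    have hm : 0 < m₀ + i + 1 := Nat.succ_pos _
    obtain ⟨r, hr⟩ := hCH n M g hn hI.kae (2 * (m₀ + i + 1))
    obtain ⟨j, hj1, hj2, hj3⟩ := h2 _ r hm hr
    obtain ⟨f, f1, f2, f3, f4, f5⟩ := h5 (g (j + 1)) (φ (j + 1)) (r j) A L (hI.kae _) (hI.sm _)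
      (hle _) (hI.np _) (hI.zer _) (hI.low _) (hI.trc _) (hr.sm j) (hr.pos j) (hr.sub j hj2) hA1 hL1
    refine ⟨j, f, by omega, f1, f2, ?_, f5.trans (le_of_eq ?_), ?_⟩
    · have h6 := (h4 _ (hI.sm (j + 1)) (hle _) (hI.np _) (hI.zer _) A hA1).1
      have h7 : (M.mu H).real {x | 1 / 2 ≤ r j x} ≤
          (M.mu H).real ({x | f x = 1} ∪ {x | φ (j + 1) x ≤ -A}) :=
        measureReal_mono fun x hx => (le_total (-A) (φ (j + 1) x)).imp (fun h => f4 x h hx) id
      have h8 := measureReal_union_le (μ := M.mu H) {x | f x = 1} {x | φ (j + 1) x ≤ -A}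
      linarith [h3 _ r hr j hj2]
    · rw [hL, mul_div_assoc, ← Real.exp_sub, show A - 2 * A = -A by ring]
    · refine (int_le hH.toMet (hI.kae _).toMet hC.le f1 (hr.sm j) ((hY _).2.1.const_mul _)
        (fun x => (f2 x).2) (hr.pos j) (hY0 _) f3 (hI.low _)).trans
        ((mul_le_mul_of_nonneg_left hj3 hK0.le).trans ?_)
      rw [mul_div_assoc', div_le_div_iff₀ (Nat.cast_pos.2 hm) hA0, one_mul]
      push_cast
      linarith [Nat.cast_nonneg (α := ℝ) i]
  choose j f k1 k2 k3 k4 k5 k6 using key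
  have hv : ∀ j, 0 ≤ M.vv (g j) := fun j => measureReal_nonneg
  have ht : Tendsto (fun i : ℕ => (i : ℝ) + 1) atTop atTop :=
    tendsto_atTop_add_const_right _ _ tendsto_natCast_atTop_atTop
  have hdf : Tendsto (fun i => ∫ x, √(M.gr H (f i) (f i) x) ∂M.mu H) atTop (𝓝 0) := by
    refine squeeze_zero (fun i => integral_nonneg fun x => Real.sqrt_nonneg _) k5 ?_
    have h6 := ((Real.tendsto_sqrt_atTop.comp ht).const_div_atTop D₁).add
      ((Real.tendsto_exp_neg_atTop_nhds_zero.comp ht).const_mul D₁)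
    rw [mul_zero, add_zero] at h6
    exact h6
  refine ⟨max C S₁, fun i => g (j i + 1), fun i => (1 / 2) ^ (j i + 1), fun i => φ (j i + 1), f,
    le_max_of_le_left hI.one, fun i => hI.kae _, fun i => ⟨by positivity, ?_⟩, ?_,
    fun i => hI.sm _, fun i => hI.cls _,
    fun i => (hI.vol _).trans (mul_le_mul_of_nonneg_right (le_max_left _ _) (hv _)),
    fun i x => (hI.up _ x).trans (mul_le_mul_of_nonneg_right (le_max_left _ _) (hv _)),
    fun i => (hI.trc _).trans (le_max_left _ _), fun i x => (hT _ x).2.trans (le_max_right _ _),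
    k2, k3, ?_, hdf, ?_⟩
  · exact pow_le_of_le_one (by norm_num) (by norm_num) (Nat.succ_ne_zero _)
  · exact (tendsto_pow_atTop_nhds_zero_of_lt_one (by norm_num) (by norm_num)).comp
      (tendsto_atTop_mono (fun i => (k1 i).trans (Nat.le_succ _)) tendsto_id)
  · refine hON n M H f (c / 2) hH k2 k3 (half_pos hc) hdf ?_
    filter_upwards [(ht.const_div_atTop D₀).eventually (gt_mem_nhds (half_pos hc))] with i hi
    linarith [k4 i]
  · exact squeeze_zero (fun i => integral_nonneg fun x => mul_nonneg (k3 i x).1 (hY0 _ x)) k6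
      (ht.const_div_atTop 1)

end Pool.Agent.Lib.RB
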