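import Pool.Agent.Lib.RB.Blue
import Pool.Agent.Lib.RB27.Tel
import Pool.Agent.Lib.HS76.Diag

/-! Project rb9: the differential inequality along the iteration and the maximum principle. -/

open scoped Classical Topology ContDiff ComplexOrder Matrix
open Set MeasureTheory Complex Metric Filter

noncomputable section

namespace Pool.Agent.Lib.RB

open Pool.Agent.Lib.SV (E)
open Pool.Agent.Lib.HS32 Pool.Agent.Lib.HS32.Mf

namespace R27

theorem sq_mat {n : ℕ} {A T B : Mat n} (hA : A.PosDef) (hT : T.PosDef) (hB : B.PosSemidef) :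
    2 * (A⁻¹ * B).trace.re - (T⁻¹ * B).trace.re ≤ (A⁻¹ * B * A⁻¹ * T).trace.re := by
  have h1 := hT.posSemidef.mul_mul_conjTranspose_same (A⁻¹ - T⁻¹)
  rw [(hA.inv.1.sub hT.inv.1).eq] at h1
  have h2 := (Complex.le_def.1 (HS76.tr_mul_nonneg h1 hB)).1
  have h3 := Matrix.nonsing_inv_mul T (pd_det_ne hT).isUnit
  have h4 := Matrix.mul_nonsing_inv T (pd_det_ne hT).isUnit
  have h5 : (A⁻¹ - T⁻¹) * T * (A⁻¹ - T⁻¹) * B =
      A⁻¹ * T * (A⁻¹ * B) - A⁻¹ * B - A⁻¹ * B + T⁻¹ * B := by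
    have e1 : (A⁻¹ - T⁻¹) * T * (A⁻¹ - T⁻¹) * B = A⁻¹ * T * (A⁻¹ * B) - A⁻¹ * (T * T⁻¹) * B -
        T⁻¹ * T * A⁻¹ * B + T⁻¹ * T * T⁻¹ * B := by noncomm_ring
    rw [e1, h3, h4]
    simp only [mul_one, one_mul]
  rw [h5, Matrix.trace_add, Matrix.trace_sub, Matrix.trace_sub, Matrix.trace_mul_comm,
    ← mul_assoc] at h2
  simp only [add_re, sub_re, zero_re] at h2
  linarith

theorem lap_ge {n : ℕ} {M : Mf n} {G G' h : M.Fam (Mat n)} (hG : M.Met G) (hG' : M.Met G')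
    (hh : M.Met h) (hr : M.All fun e z => M.ric G' e z = (1 / 2 : ℝ) • G e z - G' e z) (x : M.X) :
    M.yT G' h x + M.tr G' h x - 2 * M.tr G h x ≤ M.lap G' (M.tr G' h) x := by
  have h3 := sq_mat (hG'.ev_pos x) ((hG.smul one_half_pos).ev_pos x) (hh.ev_pos x).posSemidef
  have h4 : ((M.ev ((1 / 2 : ℝ) • G) x)⁻¹ * M.ev h x).trace.re = 2 * M.tr G h x := by
    have e : (M.ev ((1 / 2 : ℝ) • G) x)⁻¹ = (2 : ℝ) • (M.ev G x)⁻¹ := by
      refine Matrix.inv_eq_left_inv ?_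
      rw [show M.ev ((1 / 2 : ℝ) • G) x = (1 / 2 : ℝ) • M.ev G x from rfl, Matrix.smul_mul,
        Matrix.mul_smul, smul_smul, Matrix.nonsing_inv_mul _ (hG.ev_det x).isUnit]
      norm_num
    rw [e, Matrix.smul_mul, Matrix.trace_smul, smul_re, smul_eq_mul, Mf.tr]
  have h5 : 2 * M.tr G' h x - 2 * M.tr G h x ≤ M.ip G' h ((1 / 2 : ℝ) • G) x := h4 ▸ h3
  rw [Mf.yT, ip_congr (S' := h) (T' := (1 / 2 : ℝ) • G - G') (fun _ _ _ _ => rfl)
    (fun _ _ _ _ => rfl) hr, ip_sub, hG'.ip_self]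
  linarith

end R27

theorem st_RT1 (hC : St_RCL) : St_RT1 := by
  intro n M _ h g hh hr hg hric
  have h1 := fun j x => R27.lap_ge (hg j).toMet (hg (j + 1)).toMet hh (hric j) x
  have hs := fun j => (hC n M _ h (hg j) hh).1
  obtain ⟨x₀, -, hx₀⟩ :=
    isCompact_univ.exists_isMaxOn univ_nonempty (RB27.sm_cont (hs 0)).continuousOn
  refine ⟨h1, max 1 (M.tr (g 0) h x₀), le_max_left _ _, fun j x =>
    ⟨(hg j).toMet.tr_nonneg hh.nonneg x, ?_⟩⟩
  refine RB27.max_seq (S := fun j x => (1 / 2) ^ j * M.tr (g j) h x) (fun j => (hg j).toMet)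
    (fun j => RB27.sm_mul (RB27.sm_const _) (hs j)) (fun j x => ?_) (fun x => ?_) j x
  · have h2 := (((mLAP n M _ _ (hs (j + 1)) (hs (j + 1))).2.2 _ (hg (j + 1)).toMet).2.2.1 x
      ((1 / 2) ^ (j + 1))).2.2.2.1
    have h3 := ((hC n M _ h (hg (j + 1)) hh).2.2.2.2 hr).2.1 x
    have h4 : M.tr (g (j + 1)) h x - 2 * M.tr (g j) h x ≤
        M.lap (g (j + 1)) (M.tr (g (j + 1)) h) x := by linarith [h1 j x]
    have h6 := mul_le_mul_of_nonneg_left h4 (pow_pos one_half_pos (j + 1)).le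
    rw [h2]
    rw [pow_succ] at h6 ⊢
    linarith
  · rw [pow_zero, one_mul]
    exact le_max_of_le_right (hx₀ (mem_univ x))

end Pool.Agent.Lib.RB
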