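import Pool.Agent.Lib.RB.Blue
import Pool.Agent.Lib.HS32.MAll

/-! Project rb9: the telescoping sum. -/

open scoped Classical Topology ContDiff ComplexOrder Matrix
open Set MeasureTheory Complex Metric Filter

noncomputable section

namespace Pool.Agent.Lib.RB

open Pool.Agent.Lib.SV (E)
open Pool.Agent.Lib.HS32 Pool.Agent.Lib.GH

namespace R10b

theorem tele {s y : ℕ → ℝ} {S : ℝ} {m : ℕ} (hm : 0 < m) (h : ∀ j < 2 * m, s (j + 1) ≤ s j - y j)
    (h0 : 0 ≤ s (2 * m)) (h1 : s m ≤ S) : ∃ j, m ≤ j ∧ j < 2 * m ∧ y j ≤ S / m := by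
  by_contra hc
  push Not at hc
  have key : ∀ i, i < m → s (m + i + 1) < s m - (i + 1 : ℕ) * (S / m) := by
    intro i
    induction i with
    | zero =>
      intro _
      have := h m (by omega)
      have := hc m le_rfl (by omega)
      simp only [add_zero, zero_add, Nat.cast_one, one_mul]
      linarith
    | succ i ih =>
      intro hi
      have := ih (by omega)
      have := h (m + i + 1) (by omega)
      have := hc (m + i + 1) (by omega) (by omega)
      push_cast at *
      rw [← add_assoc]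
      linarith
  obtain ⟨i, rfl⟩ : ∃ i, m = i + 1 := ⟨m - 1, by omega⟩
  have := key i (by omega)
  rw [mul_div_cancel₀ _ (by positivity), show i + 1 + i + 1 = 2 * (i + 1) by ring] at this
  linarith

variable {n : ℕ} {M : Mf n} [M.Cpt] {G : M.Fam (Mat n)}

theorem int (hG : M.Met G) {f : M.X → ℝ} (hf : M.Sm f) : Integrable f (M.mu G) :=
  (mMU n M G hG).2.2.2.2.1 ℝ f hf.continuous

theorem mono (hG : M.Met G) {f g : M.X → ℝ} (hf : M.Sm f) (hg : M.Sm g) (h : ∀ x, f x ≤ g x) :
    M.mn G f ≤ M.mn G g :=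
  div_le_div_of_nonneg_right (integral_mono (int hG hf) (int hG hg) h) measureReal_nonneg

theorem lin (hG : M.Met G) {f g : M.X → ℝ} (hf : M.Sm f) (hg : M.Sm g) (a b : ℝ) :
    M.mn G (fun x => a * f x - b * g x) = a * M.mn G f - b * M.mn G g := by
  rw [Mf.mn, integral_sub ((int hG hf).const_mul a) ((int hG hg).const_mul b), integral_const_mul,
    integral_const_mul, Mf.mn, Mf.mn]
  ring

end R10b

open R10b in
theorem st_RT2 (hCL : St_RCL) (hT1 : St_RT1) : St_RT2 := by
  intro n M _ h g hh hr hg hric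
  obtain ⟨a1, S, hS, a2⟩ := hT1 n M h g hh hr hg hric
  have st := fun j => (hCL n M _ h (hg j) hh).1
  have sy := fun j => (hCL n M _ h (hg j) hh).2.1
  refine ⟨S, by linarith, fun m r hm hc => ?_⟩
  have sr := fun j => (hc.sm j).mul (st j)
  refine tele (s := fun j => (1 / 2) ^ j * M.mn (g (j + 1)) fun x => r j x * M.tr (g j) h x) hm
    (fun j hj => ?_) ?_ ?_
  · have sl : M.Sm (M.lap (g (j + 1)) (M.tr (g (j + 1)) h)) :=
      ((mINV n M _ (hg (j + 1)).toMet).1 _ ((mHES n M).1 _ (st (j + 1))).toForm.toTen).2.1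
    have b1 := mono (hg (j + 1)).toMet ((hc.sm j).mul ((st (j + 1)).sub sl))
      (((sr j).const_mul 2).sub (((hc.sm j).mul (sy (j + 1))).const_mul 1)) fun x => by
        have := mul_le_mul_of_nonneg_left (a1 j x) (hc.pos j x).le
        linarith
    rw [hc.dual j hj _ (st (j + 1)), lin (hg (j + 1)).toMet (sr j) ((hc.sm j).mul (sy (j + 1)))]
      at b1
    have b2 := lin (hg (j + 1)).toMet ((hc.sm j).mul (sy (j + 1))) (sr j) ((1 / 2) ^ (j + 1)) 0
    have b3 : (fun x => r j x * ((1 / 2) ^ (j + 1) * M.yT (g (j + 1)) h x)) = fun x =>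
        (1 / 2) ^ (j + 1) * (r j x * M.yT (g (j + 1)) h x) - 0 * (r j x * M.tr (g j) h x) :=
      funext fun x => by ring
    have b4 := mul_le_mul_of_nonneg_left b1 (show (0 : ℝ) ≤ (1 / 2) ^ (j + 1) by positivity)
    rw [b3, b2]
    refine b4.trans_eq ?_
    ring
  · exact mul_nonneg (by positivity) (div_nonneg (integral_nonneg fun x =>
      mul_nonneg (hc.pos _ x).le (a2 _ x).1) measureReal_nonneg)
  · have b1 := mono (hg (m + 1)).toMet (((sr m).const_mul ((1 / 2) ^ m)).sub ((sr m).const_mul 0))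
      (((hc.sm m).const_mul S).sub ((sr m).const_mul 0)) fun x => by
        have := mul_le_mul_of_nonneg_left (a2 m x).2 (hc.pos m x).le
        linarith
    rw [lin (hg (m + 1)).toMet (sr m) (sr m), lin (hg (m + 1)).toMet (hc.sm m) (sr m),
      hc.one m (by omega)] at b1
    linarith

end Pool.Agent.Lib.RB
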