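import Pool.Agent.Lib.RB.Defs

/-! Project rb9: blueprint. -/

open scoped Classical Topology ContDiff ComplexOrder Matrix Manifold
open Set MeasureTheory Complex Metric Filter

noncomputable section

namespace Pool.Agent.Lib.RB

open Pool.Agent.Lib.SV (E Pluri)
open Pool.Agent.Lib.HS32 Pool.Agent.Lib.GH

/-- From the statement to the manifold layer and back. -/
def St_RBR : Prop := ∀ (n : ℕ) (X : Type) [TopologicalSpace X] [ChartedSpace (E n) X]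
  [IsManifold 𝓘(ℂ, E n) ω X] [CompactSpace X] [T2Space X] [ConnectedSpace X] (g h : X → Mat n),
  Kaehler g → Hermitian h → RbcNonpos h →
  ∃ (M : Mf n) (_ : M.Cpt) (H h' : M.Fam (Mat n)), M.Kae H ∧ M.Met h' ∧ M.Rbc h' ∧
    (M.Semi → ∃ m : ℕ, 0 < m ∧ ∀ x : X, ∃ s ∈ Pluri n X m, s x ≠ 0)

/-! ### The identity of Chern and Lu and existence -/

/-- The identity of Chern and Lu for a Hermitian target. -/
def St_RCL : Prop := ∀ (n : ℕ) (M : Mf n) (G h : M.Fam (Mat n)), M.Kae G → M.Met h →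
  M.Sm (M.tr G h) ∧ M.Sm (M.yT G h) ∧ (0 < n → ∀ x, 0 < M.tr G h x) ∧
  (M.All fun e z => M.yT G h (e.symm z) = (en (G e) (h e) (h e) z).re + (qq (G e) (h e) z).re ∧
    0 ≤ (en (G e) (h e) (h e) z).re) ∧
  (M.Rbc h → (M.All fun e z => 0 ≤ (qq (G e) (h e) z).re) ∧ (∀ x, 0 ≤ M.yT G h x) ∧
    (0 < n → ∀ x, M.ip G h (M.ric G) x / M.tr G h x ≤ M.lap G (fun y => Real.log (M.tr G h y)) x))

/-- Existence. -/
def St_REX : Prop := ∀ (n : ℕ) (M : Mf n) [M.Cpt] (H h : M.Fam (Mat n)), 0 < n → M.Kae H →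
  M.Met h → M.Rbc h → (∀ ε : ℝ, 0 < ε → ∃ u, M.Sol H ε u) ∧
  ∀ B, M.Clo B → M.Le 0 B → ∀ ε : ℝ, 0 < ε → ∃ u, M.SolB H B ε u

/-! ### The iteration -/

/-- Existence of the iteration. -/
def St_RIT : Prop := ∀ (n : ℕ) (M : Mf n) [M.Cpt] (H : M.Fam (Mat n)), M.Kae H →
  (∀ B, M.Clo B → M.Le 0 B → ∀ ε : ℝ, 0 < ε → ∃ u, M.SolB H B ε u) → ∃ g u p, M.It0 H g u p

/-- The volumes. -/
def St_RVO : Prop := ∀ (n : ℕ) (M : Mf n) [M.Cpt] (H : M.Fam (Mat n)) (k : ℕ), M.Kae H →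
  M.Ord H k → (∀ ε : ℝ, 0 < ε → 0 < M.vol H ε) → ∃ C : ℝ, 1 ≤ C ∧
    ∀ (G : M.Fam (Mat n)) (ε : ℝ) (φ : M.X → ℝ), M.Kae G → M.Sm φ → ε ∈ Ioc (0 : ℝ) (1 / 2) →
      (M.All fun e z => G e z = M.gI H ε φ e z) →
      ε ^ k ≤ C * M.vv G ∧ M.vv G ≤ C * ε ^ k ∧ ∀ s : ℝ, 0 ≤ s → (1 + s) * ε ≤ 1 →
        (1 + s) ^ k ≤ C * M.mn G (M.dq G (G + (s * ε) • H))

/-- The bounds for the densities. -/
def St_RDE : Prop := ∀ (n : ℕ) (M : Mf n) [M.Cpt] (H : M.Fam (Mat n)) (k : ℕ)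
  (g : ℕ → M.Fam (Mat n)) (u p : ℕ → M.X → ℝ), M.Kae H → M.Ord H k →
  (∀ ε : ℝ, 0 < ε → 0 < M.vol H ε) → M.It0 H g u p → ∃ C φ, M.It H k C g φ

/-- The differential inequality and the maximum principle. -/
def St_RT1 : Prop := ∀ (n : ℕ) (M : Mf n) [M.Cpt] (h : M.Fam (Mat n)) (g : ℕ → M.Fam (Mat n)),
  M.Met h → M.Rbc h → (∀ j, M.Kae (g j)) →
  (∀ j, M.All fun e z => M.ric (g (j + 1)) e z = (1 / 2 : ℝ) • g j e z - g (j + 1) e z) →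
  (∀ j x, M.yT (g (j + 1)) h x + M.tr (g (j + 1)) h x - 2 * M.tr (g j) h x ≤
    M.lap (g (j + 1)) (M.tr (g (j + 1)) h) x) ∧
  ∃ S : ℝ, 1 ≤ S ∧ ∀ j x, 0 ≤ M.tr (g j) h x ∧ (1 / 2) ^ j * M.tr (g j) h x ≤ S

/-- Existence of the backward chains. -/
def St_RCH : Prop := ∀ (n : ℕ) (M : Mf n) [M.Cpt] (g : ℕ → M.Fam (Mat n)), 0 < n →
  (∀ j, M.Kae (g j)) → ∀ J, ∃ r, M.Cn g J r

/-- The telescoping sum. -/
def St_RT2 : Prop := ∀ (n : ℕ) (M : Mf n) [M.Cpt] (h : M.Fam (Mat n)) (g : ℕ → M.Fam (Mat n)),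
  M.Met h → M.Rbc h → (∀ j, M.Kae (g j)) →
  (∀ j, M.All fun e z => M.ric (g (j + 1)) e z = (1 / 2 : ℝ) • g j e z - g (j + 1) e z) →
  ∃ S : ℝ, 0 < S ∧ ∀ (m : ℕ) (r : ℕ → M.X → ℝ), 0 < m → M.Cn g (2 * m) r →
    ∃ j, m ≤ j ∧ j < 2 * m ∧
      M.mn (g (j + 1)) (fun x => r j x * ((1 / 2) ^ (j + 1) * M.yT (g (j + 1)) h x)) ≤ S / m

/-! ### No concentration -/

/-- The densities of the chains are large on sets of large volume. -/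
def St_RNO : Prop := ∀ (n : ℕ) (M : Mf n) [M.Cpt] (H : M.Fam (Mat n)) (k : ℕ) (C : ℝ)
  (g : ℕ → M.Fam (Mat n)) (φ : ℕ → M.X → ℝ), 0 < n → M.Kae H → M.It H k C g φ →
  ∃ c : ℝ, 0 < c ∧ ∀ J r, M.Cn g J r → ∀ j < J, c ≤ (M.mu H).real {x | 1 / 2 ≤ r j x}

/-! ### Cut-off functions -/

/-- Bounds for the gradients of the potential and of the logarithm of the density. -/
def St_RC0 : Prop := ∀ (n : ℕ) (M : Mf n) [M.Cpt] (H : M.Fam (Mat n)) (C : ℝ), M.Kae H → 1 ≤ C →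
  ∃ D : ℝ, 0 < D ∧
    (∀ φ, M.Sm φ → M.Le 0 (C • H + M.hs φ) → (∀ x, φ x ≤ 0) → (∃ x, φ x = 0) → ∀ A : ℝ, 1 ≤ A →
      (M.mu H).real {x | φ x ≤ -A} ≤ D / A ∧
      ∫ x, Real.exp (φ x / A) * M.gr H φ φ x ∂M.mu H ≤ D * A) ∧
    ∀ (G : M.Fam (Mat n)) (r : M.X → ℝ), M.Kae G → M.Sm r → (∀ x, 0 < r x) →
      (∀ x, M.lap G r x ≤ r x) →
      M.mn G (M.gr G (fun x => Real.log (r x)) fun x => Real.log (r x)) ≤ 1 ∧
      ∀ w, M.Sm w → ∀ x, M.gr H w w x ≤ M.tr H G x * M.gr G w w x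

/-- The cut-off function for one metric. -/
def St_RC1 : Prop := ∀ (n : ℕ) (M : Mf n) [M.Cpt] (H : M.Fam (Mat n)) (C : ℝ), M.Kae H → 1 ≤ C →
  ∃ D : ℝ, 0 < D ∧ ∀ (G : M.Fam (Mat n)) (φ r : M.X → ℝ) (A L : ℝ), M.Kae G → M.Sm φ →
    M.Le 0 (C • H + M.hs φ) → (∀ x, φ x ≤ 0) → (∃ x, φ x = 0) →
    (∀ x, Real.exp (φ x) * M.vv G ≤ C * M.dq H G x) → ∫ x, M.tr H G x ∂M.mu H ≤ C →
    M.Sm r → (∀ x, 0 < r x) → (∀ x, M.lap G r x ≤ r x) → 1 ≤ A → 1 ≤ L →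
    ∃ f, M.Sm f ∧ (∀ x, 0 ≤ f x ∧ f x ≤ 1) ∧
      (∀ x, f x ≠ 0 → -(2 * A) ≤ φ x ∧ Real.exp (-(2 * L)) ≤ r x) ∧
      (∀ x, -A ≤ φ x → 1 / 2 ≤ r x → f x = 1) ∧
      ∫ x, √(M.gr H f f x) ∂M.mu H ≤ D / √A + D * Real.exp A / L

/-- A form of the inequality of Poincaré. -/
def St_RON : Prop := ∀ (n : ℕ) (M : Mf n) [M.Cpt] (H : M.Fam (Mat n)) (f : ℕ → M.X → ℝ) (c : ℝ),
  M.Kae H → (∀ i, M.Sm (f i)) → (∀ i x, 0 ≤ f i x ∧ f i x ≤ 1) → 0 < c →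
  Tendsto (fun i => ∫ x, √(M.gr H (f i) (f i) x) ∂M.mu H) atTop (𝓝 0) →
  (∀ᶠ i in atTop, c ≤ (M.mu H).real {x | f i x = 1}) →
  Tendsto (fun i => ∫ x, (1 - f i x) ∂M.mu H) atTop (𝓝 0)

/-- The good sequence. -/
def St_RSQ : Prop := ∀ (n : ℕ) (M : Mf n) [M.Cpt] (H h : M.Fam (Mat n)) (k : ℕ) (C : ℝ)
  (g : ℕ → M.Fam (Mat n)) (φ : ℕ → M.X → ℝ), 0 < n → M.Kae H → M.Met h → M.Rbc h →
  M.It H k C g φ → ∃ C' g' ε φ' f, M.Gs H h k C' g' ε φ' f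

/-! ### The limit -/

/-- Bounds for the fields and their `(0,1)` derivatives. -/
def St_RDB : Prop := ∀ (n : ℕ) (M : Mf n) [M.Cpt] (H h : M.Fam (Mat n)), M.Met H → M.Met h →
  (∀ G (ε : ℝ), M.Met G → 0 < ε → M.End (M.qE G h ε) ∧
    M.All fun e z => (h e z * M.qE G h ε e z).PosSemidef) ∧
  (M.Rbc h → ∀ S : ℝ, ∀ e ∈ M.C, ∀ K : Set (E n), IsCompact K → K ⊆ e.target → ∃ C : ℝ, 0 < C ∧
    (∀ f, M.Sm f → ∀ z ∈ K, ∀ l, ‖dzb l (M.lc f e) z‖ ^ 2 ≤ C * M.gr H f f (e.symm z)) ∧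
    ∀ G (ε : ℝ), M.Kae G → 0 < ε → (∀ x, ε * M.tr G h x ≤ S) → ∀ z ∈ K, ∀ i j,
      ‖M.qE G h ε e z i j‖ ≤ C ∧ ∀ l, ‖dMb l (M.qE G h ε e) z i j‖ ^ 2 ≤
        C * (M.tr H G (e.symm z) * (ε * M.yT G h (e.symm z))))

/-- The local holomorphic limit. -/
def St_RLO : Prop := ∀ (n : ℕ) (M : Mf n) [M.Cpt] (H h : M.Fam (Mat n)) (k : ℕ) (C : ℝ)
  (g : ℕ → M.Fam (Mat n)) (ε : ℕ → ℝ) (φ f : ℕ → M.X → ℝ) (l : Ultrafilter ℕ), M.Kae H →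
  M.Met h → M.Rbc h → M.Gs H h k C g ε φ f → (l : Filter ℕ) ≤ atTop → ∀ e ∈ M.C,
  ∀ (c : E n) (ρ : ℝ), closedBall c ρ ⊆ e.target →
  ∃ P : E n → Mat n, (∀ i j, DifferentiableOn ℂ (fun z => P z i j) (ball c ρ)) ∧
    ∀ K : Set (E n), IsCompact K → K ⊆ ball c ρ → ∀ i j,
      Tendsto (fun a => ∫ z in K, ‖(M.qE (g a) h (ε a) e z - P z) i j‖) l (𝓝 0)

/-- A holomorphic self-adjoint field is parallel. -/
def St_RPA : Prop := ∀ (n : ℕ) (M : Mf n) [M.Cpt] (h P : M.Fam (Mat n)), M.Met h → M.HolSA h P →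
  (M.All fun e z => ∀ i, dM i (P e) z = P e z * gam (h e) i z - gam (h e) i z * P e z) ∧
  (M.All fun e z => ∀ a b, th (h e) a b z * P e z = P e z * th (h e) a b z) ∧
  ∀ s : ℝ, ∃ c : ℝ, M.All fun e z => (1 + s • P e z).det = c

/-- The null and tight quantities. -/
def St_RNT : Prop := ∀ (n : ℕ) (M : Mf n) [M.Cpt] (H h : M.Fam (Mat n)) (k : ℕ) (C : ℝ)
  (g : ℕ → M.Fam (Mat n)) (ε : ℕ → ℝ) (φ f : ℕ → M.X → ℝ), M.Kae H → M.Met h → M.Rbc h →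
  M.Gs H h k C g ε φ f → Nl (M.mu H) (fun i x => ε i * M.yT (g i) h x) ∧
    Nl (M.mu H) fun i x => M.tr h (g i) x * (ε i * M.yT (g i) h x)

/-- The gradient term controls the torsion. -/
def St_RTB : Prop := ∀ (n : ℕ) (M : Mf n) (G h : M.Fam (Mat n)) (ε S : ℝ), M.Kae G → M.Met h →
  M.Rbc h → 0 < ε → (∀ x, ε * M.tr G h x ≤ S) → M.All fun e z => ∀ a b,
    nq (h e z) (tors (h e) z (M.qE G h ε e z *ᵥ a) b) ≤
      4 * S * (M.tr h G (e.symm z) * (ε * M.yT G h (e.symm z))) * (nq (h e z) a * nq (h e z) b)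

/-- The properties of the limit. -/
def St_RLQ : Prop := ∀ (n : ℕ) (M : Mf n) [M.Cpt] (H h Q : M.Fam (Mat n)) (k : ℕ) (C : ℝ)
  (g : ℕ → M.Fam (Mat n)) (ε : ℕ → ℝ) (φ f : ℕ → M.X → ℝ) (l : Filter ℕ) [l.NeBot], M.Kae H →
  M.Met h → M.Rbc h → M.Gs H h k C g ε φ f → l ≤ atTop → M.HolSA h Q →
  M.L1c h l (fun a => M.qE (g a) h (ε a)) Q → M.All fun e z => (h e z * Q e z).PosSemidef ∧
    (∀ a b, tors (h e) z (Q e z *ᵥ a) b = 0) ∧ (qx (h e) (Q e z * (h e z)⁻¹) z).re ≤ 0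

/-- The projection on the image. -/
def St_RPJ : Prop := ∀ (n : ℕ) (M : Mf n) [M.Cpt] (h Q : M.Fam (Mat n)), M.Met h → M.HolSA h Q →
  (M.All fun e z => (h e z * Q e z).PosSemidef) →
  (∀ s : ℝ, ∃ c : ℝ, M.All fun e z => (1 + s • Q e z).det = c) → ∃ P k a b, M.Pj h Q P k a b

/-- The limit of the mean value of a determinant. -/
def St_RMN : Prop := ∀ (n : ℕ) (M : Mf n) [M.Cpt] (H h Q R : M.Fam (Mat n)) (k : ℕ) (C : ℝ)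
  (g : ℕ → M.Fam (Mat n)) (ε : ℕ → ℝ) (φ f : ℕ → M.X → ℝ) (l : Filter ℕ) (s c : ℝ), M.Kae H →
  M.Met h → M.Rbc h → M.Gs H h k C g ε φ f → M.End Q → M.End R →
  M.L1c h l (fun a => M.qE (g a) h (ε a)) Q →
  (M.All fun e z => (1 + s • (Q e z * R e z)).det = c) →
  Tendsto (fun a => M.mn (g a) (M.dq (g a) (g a + (s * ε a) • (h * R)))) l (𝓝 c)

/-- The rank of the limit is at least the order of vanishing of the volume. -/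
def St_RKL : Prop := ∀ (n : ℕ) (M : Mf n) [M.Cpt] (H h Q P : M.Fam (Mat n)) (k k' : ℕ) (C a b : ℝ)
  (g : ℕ → M.Fam (Mat n)) (ε : ℕ → ℝ) (φ f : ℕ → M.X → ℝ) (l : Filter ℕ) [l.NeBot], M.Kae H →
  M.Met h → M.Rbc h → M.Ord H k → (∀ δ : ℝ, 0 < δ → 0 < M.vol H δ) → M.Gs H h k C g ε φ f →
  l ≤ atTop → M.HolSA h Q → M.L1c h l (fun a => M.qE (g a) h (ε a)) Q → M.Pj h Q P k' a b →
  k ≤ k'

/-- The curvature vanishes on the image of the projection. -/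
def St_RFL : Prop := ∀ (n : ℕ) (h P : E n → Mat n) (z : E n) (ξ : Mat n) (a : ℝ), SmM h z →
  SmM P z → (∀ᶠ w in 𝓝 z, (h w).PosDef ∧ ∀ x y, tors h w (P w *ᵥ x) y = 0) →
  (∀ l, dMb l P z = 0) → (h z * P z).IsHermitian → P z * P z = P z →
  (∀ i j, th h i j z * P z = P z * th h i j z) →
  (∀ η : Mat n, η.PosSemidef → 0 ≤ (qx h η z).re) → 0 < a →
  (ξ - a • (P z * (h z)⁻¹)).PosSemidef → P z * ξ = ξ → (qx h ξ z).re ≤ 0 →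
  ∀ i j, th h i j z * P z = 0

/-! ### Positivity -/

/-- Continuity of the volume in the parameters. -/
def St_RCT : Prop := ∀ (n : ℕ) (M : Mf n) [M.Cpt] (H T₀ T₁ T₂ T₃ : M.Fam (Mat n)), M.Met H →
  M.Ten T₀ → M.Ten T₁ → M.Ten T₂ → M.Ten T₃ →
  Continuous fun c : ℝ × ℝ × ℝ => ∫ x, M.dq H (T₀ + c.1 • T₁ + c.2.1 • T₂ + c.2.2 • T₃) x ∂M.mu H

/-- The twisted class has positive volume. -/
def St_RB1 : Prop := ∀ (n : ℕ) (M : Mf n) [M.Cpt] (H h Q P : M.Fam (Mat n)) (k k' : ℕ) (C a b : ℝ)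
  (g : ℕ → M.Fam (Mat n)) (ε : ℕ → ℝ) (φ f : ℕ → M.X → ℝ) (l : Filter ℕ) [l.NeBot], M.Kae H →
  M.Met h → M.Rbc h → M.Gs H h k C g ε φ f → l ≤ atTop → M.HolSA h Q →
  M.L1c h l (fun a => M.qE (g a) h (ε a)) Q → M.Pj h Q P k' a b → k ≤ k' → M.Clo (h * P) →
  (M.All fun e z => M.ric h e z * P e z = 0) → 0 < ∫ x, M.dq H (h * P - M.ric h) x ∂M.mu H

/-- From the flat field and the positive volume to the conclusion. -/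
def St_RTL : Prop := ∀ (n : ℕ) (M : Mf n) [M.Cpt] (H h P : M.Fam (Mat n)) (k : ℕ), 0 < n →
  M.Kae H → M.Met h → M.Rbc h → M.Fl1 h P k → 0 < ∫ x, M.dq H (h * P - M.ric h) x ∂M.mu H →
  M.Semi

/-- The flat field and the positive volume. -/
theorem fl1_of (hVOL : HS.St_VOL) (hEX : St_REX) (hIT : St_RIT) (hDE : St_RDE) (hSQ : St_RSQ)
    (hDB : St_RDB) (hLO : St_RLO) (hGLUE : HS.St_GLUE) (hPA : St_RPA) (hLQ : St_RLQ)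
    (hPJ : St_RPJ) (hKL : St_RKL) (hFL : St_RFL) (hT1 : St_GT1) (hPRD : St_GPRD) (hB1 : St_RB1)
    {n : ℕ} (M : Mf n) [M.Cpt] {H h : M.Fam (Mat n)} (hn : 0 < n) (hH : M.Kae H) (hh : M.Met h)
    (hr : M.Rbc h) :
    ∃ P k, M.Fl1 h P k ∧ 0 < ∫ x, M.dq H (h * P - M.ric h) x ∂M.mu H := by
  obtain ⟨x1, x2⟩ := hEX n M H h hn hH hh hr
  have hv : ∀ δ : ℝ, 0 < δ → 0 < M.vol H δ := fun δ hδ =>
    let ⟨u, hu⟩ := x1 δ hδ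
    ((hVOL n M H hH).1 δ u hu).2.2.2.1
  obtain ⟨k, ho⟩ := (hVOL n M H hH).2 hv
  obtain ⟨g₀, u, p, h0⟩ := hIT n M H hH x2
  obtain ⟨C₀, φ₀, h1⟩ := hDE n M H k g₀ u p hH ho hv h0
  obtain ⟨C, g, ε, φ, f, hs⟩ := hSQ n M H h k C₀ g₀ φ₀ hn hH hh hr h1
  have hl : (hyperfilter ℕ : Filter ℕ) ≤ atTop := Nat.hyperfilter_le_atTop
  obtain ⟨Q, hQ, hL⟩ := hGLUE n M h ℕ (hyperfilter ℕ) (fun a => M.qE (g a) h (ε a)) hh
    (Eventually.of_forall fun j =>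
      let a := (hDB n M H h hH.toMet hh).1 _ _ (hs.kae j).toMet (hs.eps j).1
      ⟨a.1, fun e he z hz => (a.2 e he z hz).1⟩)
    (hLO n M H h k C g ε φ f (hyperfilter ℕ) hH hh hr hs hl)
  have q1 := hLQ n M H h Q k C g ε φ f _ hH hh hr hs hl hQ hL
  obtain ⟨P, k', a, b, hP⟩ := hPJ n M h Q hh hQ (fun e he z hz => (q1 e he z hz).1)
    (hPA n M h Q hh hQ).2.2
  obtain ⟨p1, p2, -⟩ := hPA n M h P hh hP.toHolSA
  have t2 : M.All fun e z => ∀ a b, tors (h e) z (P e z *ᵥ a) b = 0 := fun e he z hz x y => by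
    obtain ⟨-, -, R, hR⟩ := hP.pq e he z hz
    rw [hR, ← Matrix.mulVec_mulVec]
    exact (q1 e he z hz).2.1 _ _
  have p5 : M.All fun e z => ∀ a b, th (h e) a b z * P e z = 0 := fun e he z hz => by
    have hp := hh.pos e he z hz
    refine hFL n (h e) (P e) z (Q e z * (h e z)⁻¹) a (hh.sm e he z hz) (hP.en.sm e he z hz)
      ((e.open_target.eventually_mem hz).mono fun w hw => ⟨hh.pos e he w hw, t2 e he w hw⟩)
      (hP.hol e he z hz) (hP.herm e he z hz) (hP.idem e he z hz) (p2 e he z hz) (hr e he z hz)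
      hP.a0 ?_ ?_ (q1 e he z hz).2.2
    · have := (hP.lo e he z hz).conjTranspose_mul_mul_same (h e z)⁻¹
      rwa [hp.inv.1.eq, Matrix.mul_sub, Matrix.mul_smul,
        Matrix.nonsing_inv_mul_cancel_left _ _ hp.det_pos.ne'.isUnit,
        Matrix.nonsing_inv_mul_cancel_left _ _ hp.det_pos.ne'.isUnit, Matrix.sub_mul,
        Matrix.smul_mul] at this
    · rw [← Matrix.mul_assoc, (hP.pq e he z hz).1]
  have f0 : M.Fl0 h P k' := ⟨hP.toHolSA, hP.le, p1, hP.idem, hP.det, p5, fun e he z hz a b =>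
    (p2 e he z hz a b).symm.trans (p5 e he z hz a b)⟩
  have f1 : M.Fl1 h P k' := ⟨f0, hT1 n M H h P k' hH hh f0, t2⟩
  obtain ⟨-, a2, -, -, a4⟩ := hPRD n M h P k' hh f1
  exact ⟨P, k', f1, hB1 n M H h Q P k k' C a b g ε φ f _ hH hh hr hs hl hQ hL hP
    (hKL n M H h Q P k k' C a b g ε φ f _ hH hh hr ho hv hs hl hQ hL hP) a2 a4⟩

theorem main_of (hBR : St_RBR) (hTL : St_RTL)
    (hFL : ∀ {n : ℕ} (M : Mf n) [M.Cpt] {H h : M.Fam (Mat n)}, 0 < n → M.Kae H → M.Met h →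
      M.Rbc h → ∃ P k, M.Fl1 h P k ∧ 0 < ∫ x, M.dq H (h * P - M.ric h) x ∂M.mu H)
    (n : ℕ) (X : Type) [TopologicalSpace X] [ChartedSpace (E n) X] [IsManifold 𝓘(ℂ, E n) ω X]
    [CompactSpace X] [T2Space X] [ConnectedSpace X] (g h : X → Mat n) (hg : Kaehler g)
    (hh : Hermitian h) (hc : RbcNonpos h) :
    ∃ m : ℕ, 0 < m ∧ ∀ x : X, ∃ s ∈ Pluri n X m, s x ≠ 0 := by
  obtain ⟨M, hM, H, h', h1, h2, h3, h4⟩ := hBR n X g h hg hh hc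
  refine h4 ?_
  rcases Nat.eq_zero_or_pos n with rfl | hn
  · refine ⟨1, one_pos, fun x => ⟨fun _ _ => 1, ⟨⟨fun _ _ _ _ => contDiffAt_const,
      fun _ _ _ _ _ _ _ => by simp⟩, fun _ _ _ _ => differentiableAt_const _⟩, one_ne_zero⟩⟩
  · obtain ⟨P, k, hf, hv⟩ := hFL M hn h1 h2 h3
    exact hTL n M H h' P k hn h1 h2 h3 hf hv

end Pool.Agent.Lib.RB
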