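import Pool.Agent.Lib.RB.Blue
import Pool.Agent.Lib.RB27.Tel

/-! Project rb9: existence of the backward chains. -/

open scoped Classical Topology ContDiff ComplexOrder Matrix
open Set MeasureTheory Complex Metric Filter

noncomputable section

namespace Pool.Agent.Lib.RB

open Pool.Agent.Lib.SV (E)
open Pool.Agent.Lib.HS32 Pool.Agent.Lib.RB27

theorem st_RCH (hR : HS.St_RESV) : St_RCH := by
  intro n M _ g hn hg J
  have hv : ∀ j, 0 < M.vv (g j) := fun j => (mMU n M _ (hg j).toMet).2.2.2.1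
  have d0 : ∀ i j x, 0 < M.dq (g i) (g j) x := fun i j =>
    ((mINV n M _ (hg i).toMet).2.2.2.2.2.2.2 _ (hg j).toMet).1
  have hc : ∀ j, ∫ _, (M.vv (g j))⁻¹ ∂M.mu (g j) = 1 := fun j => by
    rw [integral_const, smul_eq_mul]
    exact mul_inv_cancel₀ (hv j).ne'
  obtain ⟨b, ρ, hb, hρ⟩ := back hR hn hg J
    (fun x => M.dq (g J) (g (J + 1)) x * (M.vv (g (J + 1)))⁻¹)
    (sm_mul (sm_dq (hg J).toMet (hg (J + 1)).toTen) (sm_const _))
    (fun x => mul_pos (d0 _ _ x) (inv_pos.2 (hv _)))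
    ((int_dq (hg _).toMet (hg _).toMet _).symm.trans (hc _))
  obtain ⟨r, r1, r2⟩ : ∃ r : ℕ → M.X → ℝ, (∀ j < J, r j = fun x => M.vv (g (j + 1)) * ρ j x) ∧
      ∀ j, ¬j < J → r j = fun _ => 1 :=
    ⟨fun j => if j < J then fun x => M.vv (g (j + 1)) * ρ j x else fun _ => 1,
      fun j hj => if_pos hj, fun j hj => if_neg hj⟩
  have hs : ∀ j, M.Sm (r j) := fun j => by
    by_cases hj : j < J
    · rw [r1 j hj]
      exact sm_mul (sm_const _) (hρ j hj).1
    · rw [r2 j hj]
      exact sm_const 1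
  have hp : ∀ j x, 0 < r j x := fun j x => by
    by_cases hj : j < J
    · rw [r1 j hj]
      exact mul_pos (hv _) ((hρ j hj).2.1 x)
    · rw [r2 j hj]
      exact one_pos
  have hb' : ∀ j ≤ J, ∀ x, b j x = M.dq (g j) (g (j + 1)) x * (r j x / M.vv (g (j + 1))) := by
    intro j hj x
    rcases hj.eq_or_lt with rfl | hj
    · rw [hb, r2 j (lt_irrefl j), one_div]
    · rw [(hρ j hj).2.2.2.1, r1 j hj, mul_div_cancel_left₀ _ (hv _).ne']
  refine ⟨r, fun x => by rw [r2 J (lt_irrefl J)], hs, hp, fun j hj => ?_, fun j hj x => ?_,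
    fun j hj f hf => ?_⟩
  · rcases hj.eq_or_lt with rfl | hj
    · rw [r2 j (lt_irrefl j), Mf.mn, integral_const, smul_eq_mul, mul_one]
      exact div_self (hv _).ne'
    · rw [r1 j hj, Mf.mn, integral_const_mul, (hρ j hj).2.2.2.2, mul_one]
      exact div_self (hv _).ne'
  · obtain ⟨a1, -, a3, -⟩ := hρ j hj
    have h1 := (((mLAP n M _ _ a1 a1).2.2 _ (hg (j + 1)).toMet).2.2.1 x (M.vv (g (j + 1)))).2.2.2.1
    have h2 : 0 < b (j + 1) x := by
      rw [hb' (j + 1) hj]
      exact mul_pos (d0 _ _ x) (div_pos (hp _ x) (hv _))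
    rw [r1 j hj, h1]
    exact mul_le_mul_of_nonneg_left (by linarith [a3 x]) (hv _).le
  · obtain ⟨a1, -, a3, -⟩ := hρ j hj
    have h1 := res_adj (hg (j + 1)) a1 a3 hf
    rw [Mf.mn, Mf.mn, ← integral_div, ← integral_div, int_dq (hg (j + 2)).toMet (hg (j + 1)).toMet]
    refine Eq.trans ?_ (h1.symm.trans ?_)
    · refine integral_congr_ae (Eventually.of_forall fun x => ?_)
      have := (hv (j + 1)).ne'
      simp only [r1 j hj]
      field_simp
    · refine integral_congr_ae (Eventually.of_forall fun x => ?_)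
      simp only [hb' (j + 1) hj]
      ring

end Pool.Agent.Lib.RB
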