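import Pool.Agent.Lib.RB.Blue
import Pool.Agent.Lib.HS32.MAll
import Pool.Agent.Lib.HS.B_DETB

/-! Project rb9: the volume depends continuously on the parameters (row RCT). -/

open scoped Classical Topology ContDiff ComplexOrder Matrix
open Set MeasureTheory Complex Metric Filter

noncomputable section

namespace Pool.Agent.Lib.RB

open Pool.Agent.Lib.SV (E)
open Pool.Agent.Lib.HS32

namespace R56

variable {n : ℕ} {M : Mf n} [M.Cpt] {H : M.Fam (Mat n)}

theorem intg (hm : M.Met H) {T : M.Fam (Mat n)} (hT : M.Ten T) :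
    Integrable (M.dq H T) (M.mu H) :=
  (mMU n M H hm).2.2.2.2.1 ℝ _ ((mINV n M H hm).1 _ hT).2.2.2.1.continuous

/-- One more parameter: interpolation at `n + 1` nodes. -/
theorem step (hm : M.Met H) {Y : Type} [TopologicalSpace Y] {S : Y → M.Fam (Mat n)}
    {T : M.Fam (Mat n)} {t : Y → ℝ} (hS : ∀ y, M.Ten (S y)) (hT : M.Ten T) (ht : Continuous t)
    (hc : ∀ a : ℝ, Continuous fun y => ∫ x, M.dq H (S y + a • T) x ∂M.mu H) :
    Continuous fun y => ∫ x, M.dq H (S y + t y • T) x ∂M.mu H := by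
  obtain ⟨L, hL⟩ := HS.D54.interp_det n
  have e1 : (fun y => ∫ x, M.dq H (S y + t y • T) x ∂M.mu H) = fun y => ∑ a : Fin (n + 1),
      (L a).eval (t y) * ∫ x, M.dq H (S y + ((a : ℝ) + 1) • T) x ∂M.mu H := by
    funext y
    have e2 : ∀ x, M.dq H (S y + t y • T) x = ∑ a : Fin (n + 1),
        (L a).eval (t y) * M.dq H (S y + ((a : ℝ) + 1) • T) x := fun x =>
      hL (M.ev (S y) x) (M.ev T x) (M.ev H x).det (t y)
    simp only [e2]
    rw [integral_finsetSum _ fun a _ => (intg hm ((hS y).add (hT.smul _))).const_mul _]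
    simp only [integral_const_mul]
  rw [e1]
  exact continuous_finsetSum _ fun a _ => ((L a).continuous.comp ht).mul (hc _)

end R56

open R56 in
theorem st_RCT : St_RCT := by
  intro n M _ H T₀ T₁ T₂ T₃ hm h0 h1 h2 h3
  refine step hm (S := fun c : ℝ × ℝ × ℝ => T₀ + c.1 • T₁ + c.2.1 • T₂)
    (fun c => (h0.add (h1.smul _)).add (h2.smul _)) h3 continuous_snd.snd fun a => ?_
  have e1 : ∀ c : ℝ × ℝ × ℝ, T₀ + c.1 • T₁ + c.2.1 • T₂ + a • T₃ =
      T₀ + a • T₃ + c.1 • T₁ + c.2.1 • T₂ := fun c => by abel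
  simp only [e1]
  refine step hm (S := fun c : ℝ × ℝ × ℝ => T₀ + a • T₃ + c.1 • T₁)
    (fun c => (h0.add (h3.smul _)).add (h1.smul _)) h2 continuous_snd.fst fun b => ?_
  have e2 : ∀ c : ℝ × ℝ × ℝ, T₀ + a • T₃ + c.1 • T₁ + b • T₂ =
      T₀ + a • T₃ + b • T₂ + c.1 • T₁ := fun c => by abel
  simp only [e2]
  exact step hm (S := fun _ : ℝ × ℝ × ℝ => T₀ + a • T₃ + b • T₂)
    (fun _ => (h0.add (h3.smul _)).add (h2.smul _)) h1 continuous_fst fun _ => continuous_const

end Pool.Agent.Lib.RB
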