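import Pool.Agent.Lib.RB.Blue
import Pool.Agent.Lib.HS32.MAll
import Pool.Agent.Lib.HS76.Pt

/-! Project rb9: volumes and densities along the Ricci iteration. -/

open scoped Classical Topology ContDiff ComplexOrder Matrix
open Set MeasureTheory Complex Metric Filter

noncomputable section

namespace Pool.Agent.Lib.RB

namespace R76

open Pool.Agent.Lib.SV (E)
open Pool.Agent.Lib.HS32 Pool.Agent.Lib.HS32.Mf Pool.Agent.Lib.HS76

variable {n : ℕ} {M : Mf n} {H h : M.Fam (Mat n)} {g : ℕ → M.Fam (Mat n)} {u p : ℕ → M.X → ℝ}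

/-- The volumes. -/
def sV (H : M.Fam (Mat n)) (u : ℕ → M.X → ℝ) (j : ℕ) : ℝ := ∫ x, Real.exp (u j x) ∂M.mu H

theorem pos_bds {t : ℕ → ℝ} {c : ℝ} (h0 : ∀ j, 0 < t j) (hc : 0 < c)
    (ht : Tendsto t atTop (𝓝 c)) : ∃ a b : ℝ, 0 < a ∧ 0 < b ∧ ∀ j, a ≤ t j ∧ t j ≤ b := by
  obtain ⟨b, hb⟩ := ht.bddAbove_range
  obtain ⟨a, ha⟩ := (ht.inv₀ hc.ne').bddAbove_range
  have h1 : ∀ j, (t j)⁻¹ ≤ a := fun j => ha ⟨j, rfl⟩
  have h2 : 0 < a := (inv_pos.2 (h0 0)).trans_le (h1 0)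
  exact ⟨a⁻¹, b, inv_pos.2 h2, (h0 0).trans_le (hb ⟨0, rfl⟩),
    fun j => ⟨inv_le_of_inv_le₀ (h0 j) (h1 j), hb ⟨j, rfl⟩⟩⟩

variable [M.Cpt]

theorem V_pos (hH : M.Kae H) (I : M.It0 H g u p) (j : ℕ) : 0 < sV H u j :=
  have := (mMU n M H hH.toMet).2.2.1
  integral_exp_pos ((mMU n M H hH.toMet).2.2.2.2.1 ℝ _ (I.su j).exp.continuous)

theorem V_eq (hH : M.Kae H) (I : M.It0 H g u p) (j : ℕ) : sV H u (j + 1) = (2 * (1 - (1 / 2) ^ (j + 1))) ^ n *
    M.vol H ((1 / 2) ^ (j + 1) / (2 * (1 - (1 / 2) ^ (j + 1)))) := by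
  have h1 : (0 : ℝ) < 2 * (1 - (1 / 2) ^ (j + 1)) :=
    mul_pos two_pos (sub_pos.2 (pow_lt_one₀ (by norm_num) (by norm_num) j.succ_ne_zero))
  have hr := (mHES n M).2.2.2.2.2.2.2.2.1 H hH.toMet
  have h2 := I.cls (j + 1)
  rw [gI, show (2 - 2 * (1 / 2) ^ (j + 1) : ℝ) = 2 * (1 - (1 / 2) ^ (j + 1)) by ring] at h2
  generalize (2 * (1 - (1 / 2) ^ (j + 1)) : ℝ) = a at *
  generalize ((1 / 2) ^ (j + 1) : ℝ) = ε at *
  simp only [sV, ← I.det]
  rw [dq_congr (G' := H) (fun _ _ _ _ => rfl) h2,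
    mCOH n M H _ _ hH.toMet ((hH.toClo.smul _).sub (hr.smul _)) (I.sp _), vol,
    ← integral_const_mul]
  simp only [← dq_smul, smul_sub, smul_smul, mul_div_cancel₀ _ h1.ne']

theorem volj (hH : M.Kae H) (I : M.It0 H g u p) {k : ℕ} (ho : M.Ord H k) : ∃ a b : ℝ, 0 < a ∧ 0 < b ∧
    ∀ j, a * ((1 / 2) ^ j) ^ k ≤ sV H u j ∧ sV H u j ≤ b * ((1 / 2) ^ j) ^ k := by
  obtain ⟨-, c, hc, ht⟩ := ho
  have h1 : Tendsto (fun j : ℕ => ((1 : ℝ) / 2) ^ (j + 1)) atTop (𝓝 0) :=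
    (tendsto_pow_atTop_nhds_zero_of_lt_one (by norm_num) (by norm_num)).comp
      (tendsto_add_atTop_nat 1)
  have h2 : Tendsto (fun j : ℕ => 2 * (1 - ((1 : ℝ) / 2) ^ (j + 1))) atTop (𝓝 2) := by
    simpa using (h1.const_sub 1).const_mul 2
  have h3 : ∀ j : ℕ, (0 : ℝ) < 2 * (1 - (1 / 2) ^ (j + 1)) := fun j =>
    mul_pos two_pos (sub_pos.2 (pow_lt_one₀ (by norm_num) (by norm_num) j.succ_ne_zero))
  have h4 := ht.comp (tendsto_nhdsWithin_iff.2 ⟨by simpa [Pi.div_def] using h1.div h2 two_ne_zero,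
    .of_forall fun j => div_pos (pow_pos one_half_pos (j + 1)) (h3 j)⟩)
  have h5 : Tendsto (fun j => sV H u j / ((1 / 2) ^ j) ^ k) atTop (𝓝 (2 ^ n * c / 2 ^ k)) := by
    rw [← tendsto_add_atTop_iff_nat 1]
    refine (((h2.pow n).mul h4).div (h2.pow k) (by positivity)).congr fun j => ?_
    have := (h3 j).ne'
    simp only [Pi.div_apply, Function.comp_apply, V_eq hH I, div_pow _ _ k]
    field_simp
  obtain ⟨a, b, ha, hb, h6⟩ := pos_bds (fun j => div_pos (V_pos hH I j) (by positivity))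
    (by positivity) h5
  exact ⟨a, b, ha, hb, fun j => ⟨(le_div_iff₀ (by positivity)).1 (h6 j).1,
    (div_le_iff₀ (by positivity)).1 (h6 j).2⟩⟩

theorem V_step (hH : M.Kae H) (I : M.It0 H g u p) {k : ℕ} (ho : M.Ord H k) :
    ∃ B : ℝ, 0 < B ∧ ∀ j, sV H u j ≤ B * sV H u (j + 1) := by
  obtain ⟨a, b, ha, hb, h⟩ := volj hH I ho
  refine ⟨b * 2 ^ k / a, by positivity, fun j => (h j).2.trans (le_trans (le_of_eq ?_)
    (mul_le_mul_of_nonneg_left (h (j + 1)).1 (by positivity)))⟩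
  rw [pow_succ, mul_pow, one_div (2 : ℝ), inv_pow 2 k]
  field_simp

theorem u_step (hH : M.Kae H) (I : M.It0 H g u p) : ∃ A : ℝ, 0 ≤ A ∧ ∀ j x, u (j + 1) x - u j x ≤ A := by
  obtain ⟨A, hA, h1⟩ := ((I.su 1).sub (I.su 0)).exists_bound
  have h0 : 0 ≤ n * Real.log (3 / 2) := mul_nonneg n.cast_nonneg (Real.log_nonneg (by norm_num))
  refine ⟨A + n * Real.log (3 / 2), by linarith, fun j x => ?_⟩
  cases j with
  | zero => linarith [(le_abs_self _).trans (h1 x)]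
  | succ j =>
    have s1 := (I.su (j + 1 + 1)).sub (I.su (j + 1))
    obtain ⟨y, hy⟩ := s1.exists_max
    have h2 := ((((mLAP n M _ _ s1 s1).2.2 _ hH.toMet).2.2.1 y 0).2.2.2.2.2.2.2.2.1
      (Eventually.of_forall hy)).2.2 _ (ch_mem y) (mem_ch y)
    rw [((mLAP n M _ _ (I.su _) (I.su _)).1 0 _ (ch_mem y) _ (ch_tgt y)).2.2.1] at h2
    have h3 := h2.add (psd_rsmul ((I.kae j).toMet.ev_pos y).posSemidef one_half_pos.le)
    have h4 : (((3 / 2 : ℝ) : ℂ) • M.ev (g (j + 1)) y - M.ev (g (j + 1 + 1)) y).PosSemidef := by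
      have e1 := AllOn.ch (I.stp j) y
      have e2 := AllOn.ch (I.stp (j + 1)) y
      have e3 : ((3 / 2 : ℝ) : ℂ) • M.ev (g (j + 1)) y - M.ev (g (j + 1 + 1)) y =
          -(M.hs (u (j + 1 + 1)) (M.ch y) (M.ch y y) - M.hs (u (j + 1)) (M.ch y) (M.ch y y)) +
            (1 / 2 : ℝ) • M.ev (g j) y := by
        rw [Complex.coe_smul, ev, ev, ev, e2, e1]
        module
      rwa [e3]
    have h5 := det_le_of_le ((I.kae _).toMet.ev_pos y) ((I.kae _).toMet.ev_pos y).posSemidef h4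
    have h6 := fun i => (AllOn.ch ((mINV n M H hH.toMet).2.1 _ (I.kae i).toForm) y).2.2
    simp only [ch_symm, I.det] at h6
    rw [Fintype.card_fin, ev, ev, h6, h6, ← mul_assoc] at h5
    have h7 := Real.log_le_log (Real.exp_pos _)
      (le_of_mul_le_mul_right h5 (pd_det_re (hH.toMet.ev_pos y)))
    rw [Real.log_mul (by positivity) (Real.exp_pos _).ne', Real.log_exp, Real.log_exp,
      Real.log_pow] at h7
    linarith [hy x]

theorem psh (hH : M.Kae H) (I : M.It0 H g u p) : ∃ C : ℝ, 0 < C ∧ ∀ j (a : ℝ),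
    M.Le (g j) (C • H + M.hs fun x => p j x - a) := by
  obtain ⟨C, hC, -, h1⟩ := (mBD n M H hH.toMet).1 _
    ((mHES n M).2.2.2.2.2.2.2.2.1 H hH.toMet).toForm
  refine ⟨1 + 2 * C, by positivity, fun j a e he z hz => ?_⟩
  have h2 : ((1 : ℝ) / 2) ^ j ≤ 1 := pow_le_one₀ (by norm_num) (by norm_num)
  have h3 : (0 : ℝ) < (1 / 2) ^ j := by positivity
  have h4 := (mLAP n M _ _ (I.sp j) (sm_const a)).1 a e he z hz
  have h5 := (psd_rsmul (hH.pos e he z hz).posSemidef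
    (c := 1 - (1 / 2) ^ j + 2 * (1 / 2) ^ j * C) (by nlinarith)).add
    (psd_rsmul (h1 e he z hz) (c := 2 * (1 - (1 / 2) ^ j)) (by linarith))
  have e1 : (((1 + 2 * C) • H + M.hs fun x => p j x - a) e z - g j e z) =
      (1 - (1 / 2) ^ j + 2 * (1 / 2) ^ j * C : ℝ) • H e z +
        (2 * (1 - (1 / 2) ^ j) : ℝ) • (M.ric H e z - (-(C • H)) e z) := by
    rw [I.cls j e he z hz]
    simp only [gI, Pi.add_apply, Pi.sub_apply, Pi.smul_apply, Pi.neg_apply, h4.2.2.1, h4.1]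
    module
  beta_reduce
  rwa [e1]

/-- The bounds for the densities. -/
theorem dens (hH : M.Kae H) (I : M.It0 H g u p) (hB : ∃ B : ℝ, 0 < B ∧ ∀ j, sV H u j ≤ B * sV H u (j + 1)) :
    ∃ c C : ℝ, 0 < c ∧ 0 < C ∧ ∀ j, ∃ a : ℝ, (∀ x, p j x ≤ a) ∧ (∃ x, p j x = a) ∧
      M.Le (g j) (C • H + M.hs fun x => p j x - a) ∧
      (∀ x, c * Real.exp (p j x - a) ≤ Real.exp (u j x) / sV H u j ∧
        Real.exp (u j x) / sV H u j ≤ C) ∧ ∫ x, M.tr H (g j) x ∂M.mu H ≤ C := by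
  obtain ⟨B, hB, hBl⟩ := hB
  obtain ⟨A₀, hA₀, h0⟩ := u_step hH I
  obtain ⟨A₁, hA₁, h0'⟩ := ((I.su 0).sub ((I.sp 0).div (sm_const 2) fun _ => two_ne_zero)).exists_bound
  obtain ⟨A₂, hA₂, h0''⟩ := (I.su 0).exists_bound
  set A := A₀ + A₁
  have h1 : ∀ j x, u (j + 1) x - u j x ≤ A := fun j x => (h0 j x).trans (le_add_of_nonneg_right hA₁.le)
  obtain ⟨C₁, hC₁, h2⟩ := psh hH I
  have hK := hH
  have hH := hH.toMet
  obtain ⟨C₂, hC₂, h3, -⟩ := mPSH n M H C₁ hH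
  obtain ⟨-, hfin, -, hW, hI, -⟩ := mMU n M H hH
  have hi : ∀ {f : M.X → ℝ}, M.Sm f → Integrable f (M.mu H) := fun hf => hI ℝ _ hf.continuous
  set W := (M.mu H).real univ
  choose y hy using fun j => (I.sp j).exists_max
  set l : ℕ → ℝ := fun j => Real.log (sV H u j) with hl
  have hl1 : ∀ j, l j ≤ Real.log B + l (j + 1) := fun j => by
    simp only [hl]
    rw [← Real.log_mul hB.ne' (V_pos hK I _).ne']
    exact Real.log_le_log (V_pos hK I j) (hBl j)
  have hq : ∀ j x, Real.exp (u j x) / sV H u j = Real.exp (u j x - l j) := fun j x => by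
    rw [Real.exp_sub, Real.exp_log (V_pos hK I j)]
  have h4 : ∀ j x, u j x - p j x / 2 ≤ A := fun j x => by
    induction j with
    | zero => exact ((le_abs_self _).trans (h0' x)).trans (le_add_of_nonneg_left hA₀)
    | succ j ih => rw [I.ps]; linarith [h1 j x]
  have h5 : ∀ j, ∫ x, u j x ∂M.mu H ≤ W * l j + 1 := fun j => by
    have a1 := integral_mono (hi (((I.su j).sub (sm_const (l j))).add (sm_const 1)))
      (hi ((I.su j).sub (sm_const (l j))).exp) fun x => Real.add_one_le_exp _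
    simp only [← hq] at a1
    rw [integral_add (hi ((I.su j).sub (sm_const (l j)))) (integrable_const _),
      integral_sub (hi (I.su j)) (integrable_const _), integral_div,
      show ∫ x, Real.exp (u j x) ∂M.mu H = sV H u j from rfl, div_self (V_pos hK I j).ne'] at a1
    simp only [integral_const, smul_eq_mul] at a1
    linarith
  set K := |(∫ x, p 0 x ∂M.mu H) / 2 - W * l 0| + |W * Real.log B + 1|
  have h6 : ∀ j, (∫ x, p j x ∂M.mu H) / 2 - W * l j ≤ K := fun j => by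
    induction j with
    | zero => exact (le_abs_self _).trans (le_add_of_nonneg_right (abs_nonneg _))
    | succ j ih =>
      simp only [I.ps]
      rw [integral_add ((hi (I.sp j)).div_const 2) (hi (I.su _)), integral_div]
      linarith [h5 (j + 1), mul_le_mul_of_nonneg_left (hl1 j) hW.le, abs_nonneg ((∫ x, p 0 x ∂M.mu H) / 2 - W * l 0),
        le_abs_self (W * Real.log B + 1)]
  have hφ : ∀ j, M.Sm fun x => p j x - p j (y j) := fun j => (I.sp j).sub (sm_const _)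
  set K₂ := (K + C₂ / 2) / W
  have h7 : ∀ j, p j (y j) / 2 ≤ l j + K₂ := fun j => by
    have a1 := h3 _ (hφ j) ((I.kae j).toMet.nonneg.trans (h2 j _)) (fun x => sub_nonpos.2 (hy j x))
      ⟨y j, sub_self _⟩
    rw [integral_sub (hi (I.sp j)) (integrable_const _), integral_const, smul_eq_mul] at a1
    rw [← sub_le_iff_le_add', le_div_iff₀ hW]
    linarith [h6 j]
  have h8 : ∀ j, l j ≤ Real.log W + (p j (y j) / 2 + A) := fun j => by
    have a1 := integral_mono (hi (I.su j).exp) (integrable_const (Real.exp (p j (y j) / 2 + A)))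
      fun x => Real.exp_le_exp.2 (by linarith [h4 j x, hy j x])
    rw [integral_const, smul_eq_mul] at a1
    have a2 := Real.log_le_log (V_pos hK I j) a1
    rwa [Real.log_mul hW.ne' (Real.exp_pos _).ne', Real.log_exp] at a2
  set K₃ := |l 0| + A₂ + |Real.log B + 2 * Real.log W + 2 * A + K₂|
  refine ⟨Real.exp (-K₃), C₁ + Real.exp (K₂ + A) + C₁ * n * W, Real.exp_pos _, by positivity,
    fun j => ⟨p j (y j), hy j, ⟨_, rfl⟩, (h2 j _).trans ((hH.le_smul ?_).add (Le.refl _)),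
      fun x => ⟨?_, ?_⟩, ?_⟩⟩
  · rw [add_assoc]; exact le_add_of_nonneg_right (by positivity)
  · rw [hq, ← Real.exp_add, Real.exp_le_exp]
    cases j with
    | zero =>
      linarith [le_abs_self (l 0), hy 0 x, (neg_le_abs _).trans (h0'' x), abs_nonneg (Real.log B + 2 * Real.log W + 2 * A + K₂)]
    | succ j =>
      have a1 := I.ps j x
      linarith [hy j x, h7 j, h8 (j + 1), hl1 j, abs_nonneg (l 0),
        le_abs_self (Real.log B + 2 * Real.log W + 2 * A + K₂)]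
  · have a1 : Real.exp (u j x - l j) ≤ Real.exp (K₂ + A) :=
      Real.exp_le_exp.2 (by linarith [h4 j x, hy j x, h7 j])
    have a2 : 0 ≤ C₁ * n * W := by positivity
    rw [hq]
    linarith
  · have s1 := ((mLAP n M _ _ (hφ j) (hφ j)).2.2 _ hH).1
    have a1 := integral_mono (hi ((mINV n M H hH).1 _ (I.kae j).toTen).2.1)
      (hi ((sm_const (C₁ * n)).add s1)) fun x => (hH.tr_mono (h2 j (p j (y j))) x).trans_eq (by
        rw [tr_add, tr_smul, hH.tr_self]; rfl)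
    rw [integral_add (integrable_const _) (hi s1), ((mGRN n M).2 H _ _ hK (hφ j) (hφ j)).1,
      integral_const, smul_eq_mul] at a1
    linarith [Real.exp_pos (K₂ + A)]

theorem vv_eq (hH : M.Kae H) (I : M.It0 H g u p) (j : ℕ) : M.vv (g j) = sV H u j := by
  simpa [I.det, vv, sV] using
    ((mMU n M H hH.toMet).2.2.2.2.2.2 _ (I.kae j).toMet).2.1 fun _ => 1

end R76

open R76 Pool.Agent.Lib.HS32 Pool.Agent.Lib.HS32.Mf in
theorem st_RDE : St_RDE := by
  intro n M _ H k g u p hH ho _ I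
  obtain ⟨a, b, ha, -, h1⟩ := volj hH I ho
  obtain ⟨c, C, hc, hC, h2⟩ := dens hH I (V_step hH I ho)
  choose s h3 h4 h5 h6 h7 using h2
  have hV := V_pos hH I
  have ha' := inv_pos.2 ha
  have hc' := inv_pos.2 hc
  refine ⟨1 + C + a⁻¹ + c⁻¹, fun j x => p j x - s j, by linarith, I.kae, I.ric,
    fun j => (I.sp j).sub (sm_const _), fun j x => sub_nonpos.2 (h3 j x),
    fun j => (h4 j).imp fun x hx => sub_eq_zero.2 hx, fun j e he z hz => ?_,
    fun j => (h5 j).trans ((hH.toMet.le_smul (by linarith)).add (Le.refl _)), fun j => ?_,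
    fun j x => ?_, fun j x => ?_, fun j => by linarith [h7 j]⟩
  · have h8 := (mLAP n M _ _ (I.sp j) (sm_const (s j))).1 (s j) e he z hz
    beta_reduce
    rw [I.cls j e he z hz]
    simp only [gI, Pi.add_apply, h8.2.2.1, h8.1, sub_zero]
  · rw [vv_eq hH I]
    exact ((le_inv_mul_iff₀ ha).2 (h1 j).1).trans
      (mul_le_mul_of_nonneg_right (by linarith) (hV j).le)
  · rw [vv_eq hH I, I.det]
    exact ((div_le_iff₀ (hV j)).1 (h6 j x).2).trans
      (mul_le_mul_of_nonneg_right (by linarith) (hV j).le)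
  · rw [vv_eq hH I, I.det]
    have h8 := (le_div_iff₀ (hV j)).1 (h6 j x).1
    rw [mul_assoc] at h8
    exact ((le_inv_mul_iff₀ hc).2 h8).trans
      (mul_le_mul_of_nonneg_right (by linarith) (Real.exp_pos _).le)

end Pool.Agent.Lib.RB
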