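import Pool.Agent.Lib.RB.Blue
import Pool.Agent.Lib.GH76.Iter

/-! Project rb9: existence of the iteration. -/

open scoped Classical Topology ContDiff ComplexOrder Matrix
open Set MeasureTheory Complex Metric Filter

noncomputable section

namespace Pool.Agent.Lib.RB

open Pool.Agent.Lib.HS32 Pool.Agent.Lib.HS32.Mf

theorem st_RIT : St_RIT := by
  intro n M _ H hH hS
  obtain ⟨g, u, p, I⟩ := GH76.iter hH fun T hT => by
    obtain ⟨c, hc, h1, -⟩ := (mBD n M T hT.toMet).1 H hH.toForm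
    obtain ⟨u, hu⟩ := hS (T - c⁻¹ • H) (hT.toClo.sub (hH.toClo.smul _)) (le_iff_sub.1 (by
      simpa only [smul_smul, inv_mul_cancel₀ hc.ne', one_smul] using
        h1.smul (inv_pos.2 hc).le)) _ (inv_pos.2 hc)
    have e : M.gB H (T - c⁻¹ • H) c⁻¹ u = T - M.ric H + M.hs u := by rw [gB, add_sub_cancel]
    exact ⟨u, hu.sm, e ▸ hu.kae, e ▸ hu.det⟩
  refine ⟨g, u, p, I.kae, I.sm, I.smp, I.det, fun j e _ z _ => by rw [I.gs]; rfl,
    fun j x => by rw [I.ps], fun j e he z hz => ?_, I.ric⟩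
  beta_reduce
  rw [I.form j e he z hz, gI, mul_sub, mul_one]

end Pool.Agent.Lib.RB
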