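import Pool.Agent.Lib.RB.Blue
import Pool.Agent.Lib.HS.B_LOCP
import Pool.Agent.Lib.HS32.MAll

/-! Project rb9: the local holomorphic limit of the fields of the good sequence. -/

open scoped Classical Topology ContDiff ComplexOrder Matrix ENNReal
open Set MeasureTheory Complex Metric Filter

noncomputable section

namespace Pool.Agent.Lib.RB

open Pool.Agent.Lib.SV (E)
open Pool.Agent.Lib.HS32 Pool.Agent.Lib.HS.Locp

namespace R18

theorem cut_dzb {n : ℕ} {q p : E n → ℂ} {z : E n} {s r C γ τ y : ℝ} (m : Fin n)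
    (hq : ContDiffAt ℝ ∞ q z) (hp : ContDiffAt ℝ ∞ p z) (hs : q z = s) (s0 : 0 ≤ s) (s1 : s ≤ 1)
    (hr : 0 < r) (hC : 0 ≤ C) (hτ : 0 ≤ τ) (hy : 0 ≤ y) (h1 : ‖dzb m q z‖ ^ 2 ≤ C * γ)
    (h2 : ‖p z‖ ≤ C) (h3 : ‖dzb m p z‖ ^ 2 ≤ C * (τ * y)) :
    ‖dzb m (fun w => q w * p w) z‖ ≤ C * √C * √γ + (τ / r + r * (C * (s * y))) := by
  rw [dzb_mul (j := m) (cd_diff hq) (cd_diff hp)]
  refine (norm_add_le _ _).trans (add_le_add ?_ ?_)
  · rw [norm_mul, mul_comm, mul_assoc, ← Real.sqrt_mul hC]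
    exact mul_le_mul h2 (Real.le_sqrt_of_sq_le h1) (norm_nonneg _) hC
  · refine young hτ (by positivity) hr ?_
    rw [norm_mul, hs, Complex.norm_real, Real.norm_of_nonneg s0, mul_pow]
    have h4 : s ^ 2 ≤ s := by nlinarith
    calc _ ≤ s * (C * (τ * y)) := mul_le_mul h4 h3 (sq_nonneg _) s0
      _ = _ := by ring

end R18

theorem st_RLO (hDB : St_RDB) (hCL : St_RCL) : St_RLO := by
  intro n M _ H h k C g ε φ f l hK hh hr hs hl e he c ρ hcρ
  have hM : M.Met H := hK.toMet
  have hcont : ∀ f : M.X → ℝ, M.Sm f → Continuous f := fun f => ((mTR n M).2.2.2.1 ℝ f).1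
  have hint : ∀ f : M.X → ℝ, Continuous f → Integrable f (M.mu H) :=
    (mMU n M H hM).2.2.2.2.1 ℝ
  obtain ⟨hE, hB⟩ := hDB n M H h hM hh
  obtain ⟨C1, hC1, hd1, hd2⟩ := hB hr C e he _ (isCompact_closedBall c ρ) hcρ
  obtain ⟨C4, hC4, hc⟩ := chart_le mMU mBD hM he (isCompact_closedBall c ρ) hcρ
  have hε : ∀ a, 0 < ε a := fun a => (hs.eps a).1
  have hd := fun a => hd2 (g a) (ε a) (hs.kae a) (hε a) (hs.sb a)
  set η : ℕ → ℝ := fun a => ∫ x, f a x * (ε a * M.yT (g a) h x) ∂M.mu H with hη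
  have hτ0 : Tendsto (fun a => |η a| + ε a) l (𝓝 0) := by
    simpa using (hs.fy.abs.add hs.e0).mono_left hl
  obtain ⟨r, hr1, hr2, hr3⟩ := slow (l := l)
    (fun a => add_pos_of_nonneg_of_pos (abs_nonneg (η a)) (hε a)) hτ0 fun r => r
  have hr0 : ∀ a, 0 < r a := fun a => one_pos.trans_le (hr1 a)
  have hsf : ∀ a, ∀ z ∈ closedBall c ρ, ContDiffAt ℝ ∞ (M.lc (f a) e) z :=
    fun a z hz => cd_ofReal (hs.fs a e he z (hcρ hz))
  have hsp : ∀ a, ∀ z ∈ closedBall c ρ, SmM (M.qE (g a) h (ε a) e) z :=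
    fun a z hz => (hE _ _ (hs.kae a).toMet (hε a)).1.sm e he z (hcρ hz)
  have hcf : ∀ a, Continuous (f a) := fun a => hcont _ (hs.fs a)
  let Q : Fin n → Fin n → ℕ → E n → ℂ := fun i j a z =>
    M.lc (f a) e z * M.qE (g a) h (ε a) e z i j
  have est1 : ∀ i j m, Tendsto (fun a => ∫⁻ z in closedBall c ρ, ‖dzb m (Q i j a) z‖ₑ) l (𝓝 0) := by
    intro i j m
    have lim : Tendsto (fun a => ENNReal.ofReal (C4 * (C1 * √C1 *
        (∫ x, √(M.gr H (f a) (f a) x) ∂M.mu H) +
        (C * (r a)⁻¹ + C1 * (r a * (|η a| + ε a)))))) l (𝓝 0) := by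
      have := ENNReal.tendsto_ofReal ((((hs.df.mono_left hl).const_mul (C1 * √C1)).add
        ((hr2.const_mul C).add (hr3.const_mul C1))).const_mul C4)
      simpa using this
    refine tendsto_of_tendsto_of_tendsto_of_le_of_le tendsto_const_nhds lim (fun _ => zero_le)
      fun a => ?_
    obtain ⟨-, hg1, -⟩ := (mLAP n M _ _ (hs.fs a) (hs.fs a)).2.2 H hM
    obtain ⟨-, hy1, -, -, hy2⟩ := hCL n M (g a) h (hs.kae a) hh
    have hy0 : ∀ x, 0 ≤ ε a * M.yT (g a) h x := fun x =>
      mul_nonneg (hε a).le ((hy2 hr).2.1 x)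
    have ht0 : ∀ x, 0 ≤ M.tr H (g a) x := fun x => by
      obtain ⟨h1, h2⟩ := (mTR n M).1 x
      exact HS76.tr_nonneg (hM.pos _ h1 _ ((M.ch x).map_source h2))
        ((hs.kae a).pos _ h1 _ ((M.ch x).map_source h2)).posSemidef
    have c1 : Continuous fun x => √(M.gr H (f a) (f a) x) := (hcont _ hg1).sqrt
    have c2 : Continuous fun x => f a x * (ε a * M.yT (g a) h x) :=
      (hcf a).mul (continuous_const.mul (hcont _ hy1))
    have c3 : Continuous (M.tr H (g a)) := hcont _ ((mINV n M H hM).1 _ (hs.kae a).toTen).2.1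
    have hra := hr0 a
    refine (hc (fun x => C1 * √C1 * √(M.gr H (f a) (f a) x) +
        (M.tr H (g a) x / r a + r a * (C1 * (f a x * (ε a * M.yT (g a) h x))))) _
      (by fun_prop) (fun x => by
        have := ht0 x; have := hy0 x; have := (hs.f01 a x).1; positivity)
      fun z hz => R18.cut_dzb m (hsf a z hz) (hsp a z hz i j) rfl (hs.f01 a _).1 (hs.f01 a _).2
        hra hC1.le (ht0 _) (hy0 _) (hd1 _ (hs.fs a) z hz m) (hd a z hz i j).1
        ((hd a z hz i j).2 m)).trans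
      (ENNReal.ofReal_le_ofReal (mul_le_mul_of_nonneg_left ?_ hC4))
    rw [integral_add (hint _ (by fun_prop)) (hint _ (by fun_prop)), integral_const_mul,
      integral_add (hint _ (by fun_prop)) (hint _ (by fun_prop)), integral_div,
      integral_const_mul, integral_const_mul]
    have i1 := hs.trc a
    have i2 : η a ≤ |η a| + ε a := (le_abs_self _).trans (le_add_of_nonneg_right (hε a).le)
    refine add_le_add le_rfl (add_le_add ?_ ?_)
    · rw [div_eq_mul_inv]; gcongr
    · calc _ ≤ r a * (C1 * (|η a| + ε a)) := by gcongr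
        _ = _ := by ring
  have est2 : ∀ i j, Tendsto (fun a => ∫⁻ z in closedBall c ρ,
      ‖M.qE (g a) h (ε a) e z i j - Q i j a z‖ₑ) l (𝓝 0) := by
    intro i j
    have lim : Tendsto (fun a => ENNReal.ofReal (C4 * (C1 * ∫ x, (1 - f a x) ∂M.mu H))) l
        (𝓝 0) := by
      have := ENNReal.tendsto_ofReal (((hs.f1.mono_left hl).const_mul C1).const_mul C4)
      simpa using this
    refine tendsto_of_tendsto_of_tendsto_of_le_of_le tendsto_const_nhds lim (fun _ => zero_le)
      fun a => ?_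
    have := hcf a
    refine (hc (fun x => C1 * (1 - f a x)) _ (by fun_prop)
      (fun x => mul_nonneg hC1.le (sub_nonneg.2 (hs.f01 a x).2)) fun z hz => ?_).trans
      (by rw [integral_const_mul])
    have e1 : M.qE (g a) h (ε a) e z i j - Q i j a z =
        M.qE (g a) h (ε a) e z i j * ((1 - f a (e.symm z) : ℝ) : ℂ) := by
      simp only [Q, Mf.lc]; push_cast; ring
    have h1 := sub_nonneg.2 (hs.f01 a (e.symm z)).2
    rw [e1, norm_mul, Complex.norm_real, Real.norm_of_nonneg h1]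
    exact mul_le_mul_of_nonneg_right (hd a z hz i j).1 h1
  have hQ : ∀ i j a, ∀ z ∈ closedBall c ρ, ContDiffAt ℝ ∞ (Q i j a) z :=
    fun i j a z hz => (hsf a z hz).mul (hsp a z hz i j)
  have main : ∀ i j, ∃ P : E n → ℂ, DifferentiableOn ℂ P (ball c ρ) ∧ (∀ z ∈ ball c ρ, ‖P z‖ ≤ C1) ∧
      ∀ K, IsCompact K → K ⊆ ball c ρ →
        Tendsto (fun a => ∫⁻ z in K, ‖Q i j a z - P z‖ₑ) l (𝓝 0) := fun i j =>
    HS66.limHol l isOpen_ball (fun a z hz => cd_le (hQ i j a z (ball_subset_closedBall hz)) 1)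
      (fun a z hz => by
        have h1 := hs.f01 a (e.symm z)
        simp only [Q, Mf.lc]
        rw [norm_mul, Complex.norm_real, Real.norm_of_nonneg h1.1]
        exact (mul_le_of_le_one_left (norm_nonneg _) h1.2).trans
          (hd a z (ball_subset_closedBall hz) i j).1)
      fun K _ hKb m => tendsto_of_tendsto_of_tendsto_of_le_of_le tendsto_const_nhds (est1 i j m)
        (fun _ => zero_le) fun a => lintegral_mono_set (hKb.trans ball_subset_closedBall)
  choose P hP1 _ hP3 using main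
  refine ⟨fun z => Matrix.of fun i j => P i j z, hP1, fun K hKc hKb i j => ?_⟩
  have hKs : K ⊆ closedBall c ρ := hKb.trans ball_subset_closedBall
  have t1 : Tendsto (fun a => ∫⁻ z in K, ‖M.qE (g a) h (ε a) e z i j - P i j z‖ₑ) l (𝓝 0) := by
    have := (est2 i j).add (hP3 i j K hKc hKb)
    rw [add_zero] at this
    refine tendsto_of_tendsto_of_tendsto_of_le_of_le tendsto_const_nhds this (fun _ => zero_le)
      fun a => ?_
    have hm : AEMeasurable (fun z => ‖Q i j a z - P i j z‖ₑ) (volume.restrict K) :=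
      (ContinuousOn.aestronglyMeasurable (ContinuousOn.sub
        (fun z hz => (hQ i j a z (hKs hz)).continuousAt.continuousWithinAt)
        ((hP1 i j).continuousOn.mono hKb)) hKc.measurableSet).enorm
    calc _ ≤ ∫⁻ z in K, (‖M.qE (g a) h (ε a) e z i j - Q i j a z‖ₑ + ‖Q i j a z - P i j z‖ₑ) :=
          lintegral_mono fun z => by
            rw [← sub_add_sub_cancel _ (Q i j a z)]; exact enorm_add_le _ _
      _ = _ := lintegral_add_right' _ hm
      _ ≤ _ := add_le_add (lintegral_mono_set hKs) le_rfl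
  refine ((ENNReal.tendsto_toReal ENNReal.zero_ne_top).comp t1).congr fun a => ?_
  have hm : AEStronglyMeasurable (fun z => M.qE (g a) h (ε a) e z i j - P i j z)
      (volume.restrict K) :=
    ContinuousOn.aestronglyMeasurable (ContinuousOn.sub
      (fun z hz => (hsp a z (hKs hz) i j).continuousAt.continuousWithinAt)
      ((hP1 i j).continuousOn.mono hKb)) hKc.measurableSet
  have := (integral_norm_eq_lintegral_enorm hm).symm
  simp only [Function.comp, this]
  simp only [Matrix.sub_apply, Matrix.of_apply]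

end Pool.Agent.Lib.RB
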