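import Pool.Agent.Lib.RB.Blue
import Pool.Agent.Lib.GH.B_GT2

/-! Project rb9: the properties of the limit. -/

open scoped Classical Topology ContDiff ComplexOrder Matrix
open Set MeasureTheory Complex Metric Filter

noncomputable section

namespace Pool.Agent.Lib.RB

open Pool.Agent.Lib.SV (E)
open Pool.Agent.Lib.HS32 Pool.Agent.Lib.GH Pool.Agent.Lib.GH.G48

namespace R10

variable {n : ℕ}

theorem cont_tors {h : E n → Mat n} {z : E n} (hs : SmM h z) (h0 : (h z).det ≠ 0) (A : Mat n)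
    (a b : E n) : ContinuousAt (fun p : E n × Mat n => tors h p.1 (p.2 *ᵥ a) b) (z, A) := by
  have h1 : Continuous fun p : (Fin n → Mat n) × Mat n => asy p.1 (p.2 *ᵥ a) b := by
    unfold asy
    fun_prop
  have h2 : ContinuousAt (fun p : E n × Mat n => fun k => gam h k p.1) (z, A) :=
    continuousAt_pi.2 fun k =>
      ContinuousAt.comp (f := Prod.fst) (x := (z, A)) (hs.gam h0 k).continuousAt continuousAt_fst
  exact h1.continuousAt.comp (f := fun p : E n × Mat n => (fun k => gam h k p.1, p.2))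
    (h2.prodMk continuousAt_snd)

theorem cont_qx {h : E n → Mat n} {z : E n} (hs : SmM h z) (h0 : (h z).det ≠ 0) (A : Mat n) :
    ContinuousAt (fun p : E n × Mat n => (qx h (p.2 * (h p.1)⁻¹) p.1).re) (z, A) := by
  have h1 : Continuous fun p : ((Fin n → Fin n → Mat n) × Mat n × Mat n) × Mat n =>
      (-∑ k, ∑ l, (p.2 * p.1.2.2) k l * (p.2 * p.1.2.2 * p.1.2.1 * p.1.1 k l).trace).re := by
    fun_prop
  have h2 : ContinuousAt (fun w => ((fun k l => th h k l w), h w, (h w)⁻¹)) z :=
    (continuousAt_pi.2 fun k => continuousAt_pi.2 fun l => (hs.th h0 k l).continuousAt).prodMk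
      (hs.continuousAt.prodMk (hs.inv h0).continuousAt)
  exact h1.continuousAt.comp
    (f := fun p : E n × Mat n => (((fun k l => th h k l p.1), h p.1, (h p.1)⁻¹), p.2))
    ((ContinuousAt.comp (f := Prod.fst) (x := (z, A)) h2 continuousAt_fst).prodMk continuousAt_snd)

theorem qx_eq {G h : E n → Mat n} {z : E n} (hp : (h z).PosDef) (ε : ℝ) :
    (qx h (ε • ((G z)⁻¹ * h z) * (h z)⁻¹) z).re = ε * (ε * (qq G h z).re) := by
  have e : ε • ((G z)⁻¹ * h z) * (h z)⁻¹ = ε • (G z)⁻¹ := by
    rw [Matrix.smul_mul, Matrix.mul_assoc, Matrix.mul_nonsing_inv _ hp.det_pos.ne'.isUnit,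
      Matrix.mul_one]
  rw [e, qx, qq, ← mul_assoc, ← Complex.re_ofReal_mul, mul_neg, Finset.mul_sum]
  refine congrArg (fun w : ℂ => (-w).re) (Finset.sum_congr rfl fun k _ => ?_)
  rw [Finset.mul_sum]
  refine Finset.sum_congr rfl fun l _ => ?_
  rw [Matrix.smul_mul, Matrix.smul_mul, Matrix.trace_smul, Matrix.smul_apply, Complex.real_smul,
    Complex.real_smul]
  push_cast
  ring

end R10

theorem st_RLQ (hLIM : St_GLIM) (hCL : St_RCL) (hDB : St_RDB) (hNT : St_RNT) (hTB : St_RTB)
    (hME : St_GME) : St_RLQ := by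
  intro n M _ H h Q k C g ε φ f l _ hH hh hr hs hl hQ hL e he z hz
  obtain ⟨n1, n2⟩ := hNT n M H h k C g ε φ f hH hh hr hs
  have hfin : IsFiniteMeasure (M.mu H) := (mMU n M H hH.toMet).2.1
  have ME := hME M.X (M.mu H)
  have D := fun j => (hDB n M H h hH.toMet hh).1 _ _ (hs.kae j).toMet (hs.eps j).1
  have CL := fun j => hCL n M _ h (hs.kae j) hh
  have y0 := fun j => ((CL j).2.2.2.2 hr).2.1
  have lim := fun b hb => hLIM n M H h Q (fun a => M.qE (g a) h (ε a)) l b hH.toMet hh hl
    (fun j => (D j).1) hQ.en hL hb e he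
  have hc : ∀ w ∈ e.target, ∀ A : Mat n, ContinuousAt (fun p : E n × Mat n => h e p.1) (w, A) :=
    fun w hw A => ContinuousAt.comp (f := Prod.fst) (x := (w, A)) (hh.sm e he w hw).continuousAt
      continuousAt_fst
  have hp := hh.pos e he
  refine ⟨.of_dotProduct_mulVec_nonneg (hQ.herm e he z hz) fun v => Complex.nonneg_iff.2
    ⟨?_, ((hQ.herm e he z hz).im_star_dotProduct_mulVec_self v).symm⟩, fun a b => ?_, ?_⟩
  · have := lim (fun _ _ => 0) ((ME (fun _ _ => 0) fun _ _ => 0).2.2.2.2.2.1 _ tendsto_const_nhds)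
      (fun p => -nq (h e p.1 * p.2) v)
      (fun p hw => (cont_nq ((hc _ hw.1 _).mul continuousAt_snd)
        continuousAt_const).neg.continuousWithinAt)
      (fun j w hw => neg_nonpos.2 (nq_pos ((D j).2 e he w hw) v)) z hz
    exact neg_nonpos.1 this
  · have c0 : 0 ≤ 4 * C := by linarith [hs.one]
    have t0 : ∀ j x, 0 ≤ M.tr h (g j) x * (ε j * M.yT (g j) h x) := fun j x =>
      mul_nonneg (hh.tr_nonneg (hs.kae j).toMet.nonneg x) (mul_nonneg (hs.eps j).1.le (y0 j x))
    have key := lim _ (((ME _ _).2.2.2.2.1 t0 fun _ _ => c0).1 n2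
      ((ME (fun _ _ => 0) fun _ _ => 0).2.2.2.2.2.2.1 (4 * C)))
      (fun p => nq (h e p.1) (tors (h e) p.1 (p.2 *ᵥ a) b) /
        ((1 + nq (h e p.1) a) * (1 + nq (h e p.1) b))) ?_ ?_ z hz
    · have ha := nq_pos (hp z hz).posSemidef a
      have hb := nq_pos (hp z hz).posSemidef b
      rw [div_le_iff₀ (by positivity), zero_mul] at key
      exact nq_zero (hp z hz) key
    · rintro ⟨w, A⟩ ⟨hw, -⟩
      have ha := nq_pos (hp w hw).posSemidef a
      have hb := nq_pos (hp w hw).posSemidef b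
      exact ((cont_nq (hc w hw A) (R10.cont_tors (hh.sm e he w hw) (hp w hw).det_pos.ne' A a b)).div
        ((continuousAt_const.add (cont_nq (hc w hw A) continuousAt_const)).mul
          (continuousAt_const.add (cont_nq (hc w hw A) continuousAt_const)))
        (mul_pos (add_pos_of_pos_of_nonneg one_pos ha)
          (add_pos_of_pos_of_nonneg one_pos hb)).ne').continuousWithinAt
    · intro j w hw
      have ha := nq_pos (hp w hw).posSemidef a
      have hb := nq_pos (hp w hw).posSemidef b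
      rw [div_le_iff₀ (by positivity)]
      refine (hTB n M _ h _ C (hs.kae j) hh hr (hs.eps j).1 (hs.sb j) e he w hw a b).trans ?_
      rw [mul_comm (4 * C)]
      exact mul_le_mul_of_nonneg_left (by nlinarith) (mul_nonneg (t0 j _) c0)
  · refine lim _ n1 (fun p => (qx (h e) (p.2 * (h e p.1)⁻¹) p.1).re)
      (fun p hw => (R10.cont_qx (hh.sm e he _ hw.1) (hp _ hw.1).det_pos.ne' _).continuousWithinAt)
      (fun j w hw => ?_) z hz
    obtain ⟨b1, b2⟩ := (CL j).2.2.2.1 e he w hw
    have b3 := ((CL j).2.2.2.2 hr).1 e he w hw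
    obtain ⟨b4, b5⟩ := hs.eps j
    refine (R10.qx_eq (hp w hw) (ε j)).trans_le (mul_le_mul_of_nonneg_left ?_ b4.le)
    nlinarith

end Pool.Agent.Lib.RB
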