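import Pool.Agent.Lib.RB.Blue
import Pool.Agent.Lib.RB51.Nonc
import Pool.Agent.Lib.GH76.Pshp

/-! Project rb9: the densities of the chains are large on sets of large volume. -/

open scoped Classical Topology ContDiff ComplexOrder Matrix
open Set MeasureTheory Complex Metric Filter

noncomputable section

namespace Pool.Agent.Lib.RB

open Pool.Agent.Lib.SV (E)
open Pool.Agent.Lib.HS32 Pool.Agent.Lib.RB51

theorem st_RNO (hA : HS.St_AUBIN) : St_RNO := by
  intro n M _ H k C g φ hn hH hI
  obtain ⟨K, -, hK⟩ := GH76.pshp M C (n + 1) hH.toMet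
  obtain ⟨A, c, hc, h⟩ := nonc (C₁ := C) (K := K) hA hn hH.toMet (zero_lt_one.trans_le hI.one)
    fun w hw => hK w hw.1 hw.2.1 hw.2.2.1 hw.2.2.2
  refine ⟨c, hc, fun J r hr => ?_⟩
  have h' := fun j => h (g j) (φ j) (hI.kae j) (hI.sm j) (hI.le j) (hI.up j)
  have hV : ∀ j, 0 < M.vv (g j) := fun j => (mMU n M _ (hI.kae j).toMet).2.2.2.1
  have e1 : ∀ (j : ℕ) (f q : M.X → ℝ), ∫ x, f x * (q x * (M.vv (g j))⁻¹) ∂M.mu (g j) =
      M.mn (g j) fun x => q x * f x := fun j f q => by
    rw [Mf.mn, div_eq_mul_inv, ← integral_mul_const]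
    exact integral_congr_ae (Eventually.of_forall fun x => by ring)
  have st : ∀ j < J, (∀ w, P0 M H C w → M.mn (g (j + 2)) (fun x => r (j + 1) x * -w x) ≤ A) →
      (∀ w, P0 M H C w → M.mn (g (j + 1)) (fun x => r j x * -w x) ≤ A) ∧
        c ≤ (M.mu H).real {x | 1 / 2 ≤ r j x} := fun j hj ih => by
    have hm := (hI.kae (j + 1)).toMet
    have sr := hr.sm j
    have sl := ((mLAP n M _ _ sr sr).2.2 _ hm).1
    obtain ⟨a1, a2, -⟩ := (h' (j + 1)).2 (fun x => r j x * (M.vv (g (j + 1)))⁻¹)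
      (fun x => (r j x - M.lap (g (j + 1)) (r j) x) * (M.vv (g (j + 1)))⁻¹)
      (sr.mul (Mf.sm_const _)) ((sr.sub sl).mul (Mf.sm_const _))
      (fun x => mul_pos (hr.pos j x) (inv_pos.2 (hV _)))
      (fun x => mul_nonneg (sub_nonneg.2 (hr.sub j hj x)) (inv_pos.2 (hV _)).le)
      (fun x => by
        have := (((mLAP n M _ _ sr sr).2.2 _ hm).2.2.1 x (M.vv (g (j + 1)))⁻¹).2.2.2.1
        simp only [mul_comm _ (M.vv (g (j + 1)))⁻¹, this]
        ring)
      (by rw [integral_mul_const, ← div_eq_mul_inv]; exact hr.one j hj.le)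
      fun w hw => by
        have sw := hw.1.neg
        have sw' := ((mLAP n M _ _ sw sw).2.2 _ hm).1
        have g1 := ((mGRN n M).2 _ _ _ (hI.kae (j + 1)) sw sr).2.2
        rw [e1 (j + 1) (fun x => -w x)]
        refine le_trans (le_of_eq ?_) (ih w hw)
        rw [← hr.dual j hj _ sw, Mf.mn, Mf.mn]
        simp only [sub_mul, mul_sub]
        rw [integral_sub (itg hm (sr.mul sw).continuous) (itg hm (sl.mul sw).continuous),
          integral_sub (itg hm (sr.mul sw).continuous) (itg hm (sr.mul sw').continuous), g1]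
        simp only [mul_comm]
    refine ⟨fun w hw => by rw [← e1 (j + 1) fun x => -w x]; exact a1 w hw, a2.trans (le_of_eq ?_)⟩
    have : ∀ x, r j x * (M.vv (g (j + 1)))⁻¹ * (M.mu (g (j + 1))).real univ = r j x :=
      fun x => inv_mul_cancel_right₀ (hV _).ne' _
    simp only [this]
  have key : ∀ j ≤ J, ∀ w, P0 M H C w → M.mn (g (j + 1)) (fun x => r j x * -w x) ≤ A :=
    fun j hj => by
      induction hj using Nat.decreasingInduction with
      | self =>
        intro w hw
        rw [← e1 (J + 1) fun x => -w x]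
        simpa only [hr.last, one_mul, Mf.vv] using (h' (J + 1)).1 w hw
      | of_succ k hk ih => exact (st k hk ih).1
  exact fun j hj => (st j hj (key _ hj)).2

end Pool.Agent.Lib.RB
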