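import Pool.Agent.Lib.RB.Blue
import Pool.Agent.Lib.HS32.MAll
import Pool.Agent.Lib.HS32.MKit
import Pool.Agent.Lib.HS76.Diag
import Pool.Agent.Lib.GH.B_GME

/-! Project rb9: the null and tight quantities. -/

open scoped Classical Topology ContDiff ComplexOrder Matrix
open Set MeasureTheory Complex Metric Filter

noncomputable section

namespace Pool.Agent.Lib.RB

open Pool.Agent.Lib.HS32 Pool.Agent.Lib.HS32.Mf Pool.Agent.Lib.GH Pool.Agent.Lib.GH.G56

theorem st_RNT (hCL : St_RCL) : St_RNT := by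
  intro n M _ H h k C g ε φ f hH hh hr hs
  obtain ⟨-, hfin, -, -, hint, -⟩ := mMU n M H hH.toMet
  have it : ∀ f : M.X → ℝ, M.Sm f → Integrable f (M.mu H) := fun f hf => hint ℝ f hf.continuous
  have y0 : ∀ i x, 0 ≤ ε i * M.yT (g i) h x := fun i x =>
    mul_nonneg (hs.eps i).1.le (((hCL n M _ h (hs.kae i) hh).2.2.2.2 hr).2.1 x)
  have ys : ∀ i, M.Sm fun x => ε i * M.yT (g i) h x := fun i =>
    (sm_const _).mul (hCL n M _ h (hs.kae i) hh).2.1
  have n1 := nl_int (fun i x => mul_nonneg (hs.f01 i x).1 (y0 i x))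
    (fun i => it _ ((hs.fs i).mul (ys i))) hs.fy
  have n2 := nl_int (fun i x => sub_nonneg.2 (hs.f01 i x).2)
    (fun i => it _ ((sm_const _).sub (hs.fs i))) hs.f1
  have a : Nl (M.mu H) fun i x => ε i * M.yT (g i) h x := fun η hη => by
    have ht := (n1 _ (half_pos hη)).add (n2 _ one_half_pos)
    rw [add_zero] at ht
    refine squeeze_zero (fun _ => measureReal_nonneg) (fun i => sub_le fun x hx => ?_) ht
    by_contra hc
    simp only [mem_union, mem_ofPred_eq, not_or, not_le] at hc hx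
    nlinarith [y0 i x, hc.1, hc.2]
  have t1 : Tg (M.mu H) fun _ => M.tr h H :=
    tg_int (fun _ => hh.tr_nonneg hH.toMet.nonneg) (fun _ => it _ ((mINV n M h hh).1 H hH.toTen).2.1)
      _ fun _ => le_rfl
  have t2 : Tg (M.mu H) fun i => M.tr H (g i) :=
    tg_int (fun i => hH.toMet.tr_nonneg (hs.kae i).toMet.nonneg)
      (fun i => it _ ((mINV n M H hH.toMet).1 _ (hs.kae i).toTen).2.1) C hs.trc
  have t3 : Tg (M.mu H) fun i => M.tr h (g i) :=
    tg_mono (tg_mul (fun _ => hh.tr_nonneg hH.toMet.nonneg)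
      (fun i => hH.toMet.tr_nonneg (hs.kae i).toMet.nonneg) t1 t2) fun i x =>
      HS76.tr_le_mul (hh.ev_pos x) (hH.toMet.ev_pos x) ((hs.kae i).toMet.ev_pos x).posSemidef
  exact ⟨a, nl_mono (nl_mul y0 (fun i => hh.tr_nonneg (hs.kae i).toMet.nonneg) a t3)
    fun i x => (mul_comm _ _).le⟩

end Pool.Agent.Lib.RB
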