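import Pool.Agent.Lib.RB.Blue
import Pool.Agent.Lib.HS.B_PAR

/-! A holomorphic self-adjoint field of endomorphisms is parallel for a Hermitian metric. -/

open scoped Classical Topology ContDiff ComplexOrder Matrix
open Set Complex Metric Filter

noncomputable section

namespace Pool.Agent.Lib.RB

open Pool.Agent.Lib.SV (E)
open Pool.Agent.Lib.HS32

open Pool.Agent.Lib.HS.BPAR in
theorem st_RPA : St_RPA := by
  intro n M _ H P hH hP
  have h0 : M.All fun e z => (H e z).det ≠ 0 := fun e he z hz => (hH.pos e he z hz).det_pos.ne'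
  have ev : ∀ {p : M.Ch → E n → Prop}, M.All p → M.All fun e z => ∀ᶠ w in 𝓝 z, p e w :=
    fun h e he z hz => (e.open_target.eventually_mem hz).mono (h e he)
  have h1 : M.All fun e z => ∀ i, dM i (P e) z = P e z * gam (H e) i z - gam (H e) i z * P e z :=
    fun e he z hz => par (hH.sm e he z hz) (hP.en.sm e he z hz) (h0 e he z hz)
      (ev hH.herm e he z hz) (ev hP.herm e he z hz) (hP.hol e he z hz)
  refine ⟨h1, fun e he z hz => comm (hH.sm e he z hz) (hP.en.sm e he z hz) (h0 e he z hz)
      (ev hP.hol e he z hz) (ev h1 e he z hz), fun s => ?_⟩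
  obtain ⟨c, hc⟩ := const (M := M) (Φ := fun e z => (1 + s • P e z).det)
    (fun e he e' he' x hx hx' => by
      have a : (H e' (e' x)).det ≠ 0 := h0 e' he' _ (e'.map_source hx')
      rw [hH.cmp e he e' he' x hx hx', Matrix.det_mul] at a
      have b : M.J e e' x * (1 + s • P e' (e' x)) = (1 + s • P e (e x)) * M.J e e' x := by
        rw [Matrix.mul_add, Matrix.add_mul, Matrix.mul_smul, Matrix.smul_mul,
          hP.en.cmp e he e' he' x hx hx', Matrix.mul_one, Matrix.one_mul]
      have b' := congrArg Matrix.det b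
      rw [Matrix.det_mul, Matrix.det_mul, mul_comm] at b'
      exact mul_right_cancel₀ (right_ne_zero_of_mul a) b')
    (fun e he z hz => ⟨cd_diff (SmM.det ((smM_const 1).add
      (SmM.rsmul (u := fun _ => s) contDiffAt_const (hP.en.sm e he z hz)))),
      fd0 (hP.en.sm e he z hz) (hP.hol e he z hz) _ (h1 e he z hz) s⟩)
  refine ⟨c.re, fun e he z hz => ?_⟩
  rw [← hc e he z hz]
  exact (real (hH.herm e he z hz) (h0 e he z hz) (hP.herm e he z hz) s).symm

end Pool.Agent.Lib.RB
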