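import Pool.Agent.Lib.RB.Blue
import Pool.Agent.Lib.HS32.MAll
import Pool.Agent.Lib.HS76.Diag

/-! Project rb9: the projection on the image of a field with constant eigenvalues. -/

open scoped Classical Topology ContDiff ComplexOrder Matrix
open Set Complex Filter Matrix

noncomputable section

namespace Pool.Agent.Lib.RB

open Pool.Agent.Lib.SV (E)
open Pool.Agent.Lib.HS32 Pool.Agent.Lib.HS32.Mf

namespace R33

variable {n : ℕ}

/-- A polynomial in a matrix. -/
def pf : List ℝ → Mat n → Mat n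
  | [], _ => 0
  | l :: L, A => pf L A + l⁻¹ • (A * (1 - pf L A))

/-- The same polynomial of a number. -/
def ps : List ℝ → ℝ → ℝ
  | [], _ => 0
  | l :: L, x => ps L x + l⁻¹ * (x * (1 - ps L x))

theorem ps_zero : ∀ L : List ℝ, ps L 0 = 0
  | [] => rfl
  | l :: L => by simp [ps, ps_zero L]

theorem ps_mem {x : ℝ} (hx : x ≠ 0) : ∀ L : List ℝ, x ∈ L → ps L x = 1
  | [], h => by simp at h
  | l :: L, h => by
    rcases List.mem_cons.1 h with rfl | h
    · rw [ps, ← mul_assoc, inv_mul_cancel₀ hx]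
      ring
    · simp [ps, ps_mem hx L h]

/-- A real diagonal matrix. -/
def dg (d : Fin n → ℝ) : Mat n := diagonal fun i => (d i : ℂ)

theorem dg_mul (c d : Fin n → ℝ) : dg c * dg d = dg fun i => c i * d i := by
  simp [dg, diagonal_mul_diagonal]

theorem dg_lin (c d : Fin n → ℝ) (s t : ℝ) : s • dg c + t • dg d = dg fun i => s * c i + t * d i := by
  ext i j
  by_cases h : i = j <;> simp [dg, h]

theorem dg_one : dg (fun _ : Fin n => 1) = 1 := by simp [dg]

theorem dg_psd {d : Fin n → ℝ} : (dg d).PosSemidef ↔ ∀ i, 0 ≤ d i := by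
  simp [dg, posSemidef_diagonal_iff]

section
variable {W V : Mat n}

theorem cj_mul (h : V * W = 1) (c d : Fin n → ℝ) :
    W * dg c * V * (W * dg d * V) = W * dg (fun i => c i * d i) * V := by
  rw [← dg_mul]
  calc _ = W * dg c * (V * W) * dg d * V := by simp only [Matrix.mul_assoc]
    _ = _ := by rw [h]; simp only [Matrix.mul_assoc, Matrix.one_mul]

theorem cj_lin (c d : Fin n → ℝ) (s t : ℝ) :
    s • (W * dg c * V) + t • (W * dg d * V) = W * dg (fun i => s * c i + t * d i) * V := by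
  rw [← dg_lin]
  simp only [Matrix.mul_add, Matrix.add_mul, Matrix.mul_smul, Matrix.smul_mul]

theorem cj_one (h : V * W = 1) : W * dg (fun _ => 1) * V = 1 := by
  rw [dg_one, Matrix.mul_one, mul_eq_one_comm.1 h]

theorem cj_det (h : V * W = 1) (d : Fin n → ℝ) (s : ℝ) :
    (1 + s • (W * dg d * V)).det = ((∏ i, (1 + s * d i) : ℝ) : ℂ) := by
  have := cj_lin (W := W) (V := V) (fun _ => 1) d 1 s
  rw [cj_one h, one_smul] at this
  rw [this, det_mul_comm, ← Matrix.mul_assoc, h, Matrix.one_mul, dg, det_diagonal]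
  simp

theorem pf_cj (h : V * W = 1) (d : Fin n → ℝ) :
    ∀ L, pf L (W * dg d * V) = W * dg (fun i => ps L (d i)) * V
  | [] => by simp [pf, ps, dg]
  | l :: L => by
    have a := cj_lin (W := W) (V := V) (fun _ => 1) (fun i => ps L (d i)) 1 (-1)
    rw [cj_one h, one_smul, neg_one_smul, ← sub_eq_add_neg] at a
    have b := cj_lin (W := W) (V := V) (fun i => ps L (d i))
      (fun i => d i * (1 * 1 + -1 * ps L (d i))) 1 l⁻¹
    rw [pf, pf_cj h d L, a, cj_mul h, ← one_smul ℝ (W * dg (fun i => ps L (d i)) * V), b]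
    congr 3
    ext i
    simp only [ps]
    ring

end

theorem pf_cmp {J A B : Mat n} (h : J * A = B * J) : ∀ L, J * pf L A = pf L B * J
  | [] => by simp [pf]
  | l :: L => by
    simp only [pf, Matrix.mul_add, Matrix.add_mul, Matrix.mul_smul, Matrix.smul_mul,
      Matrix.mul_sub, Matrix.sub_mul, Matrix.mul_one]
    rw [← Matrix.mul_assoc, h, Matrix.mul_assoc, pf_cmp h L, Matrix.mul_assoc]

theorem pf_hol {Q : E n → Mat n} {z : E n} (hs : SmM Q z) (hd : ∀ l, dMb l Q z = 0) :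
    ∀ L, SmM (fun w => pf L (Q w)) z ∧ ∀ l, dMb l (fun w => pf L (Q w)) z = 0
  | [] => ⟨smM_const 0, fun _ => dMb_const 0⟩
  | c :: L => by
    obtain ⟨a, b⟩ := pf_hol hs hd L
    have a1 := (smM_const (z := z) (1 : Mat n)).sub a
    have a2 := (hs.mul a1).rsmul (contDiffAt_const (c := c⁻¹))
    refine ⟨a.add a2, fun l => ?_⟩
    simp only [pf]
    rw [dMb_add a a2, dMb_rsmul _ (hs.mul a1), dMb_mul hs a1, dMb_sub (smM_const 1) a, b, hd]
    simp

theorem diag {h Q : Mat n} (hh : h.PosDef) (hq : (h * Q).PosSemidef) :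
    ∃ (W V : Mat n) (d : Fin n → ℝ), V * W = 1 ∧ h * W = Vᴴ ∧ Q = W * dg d * V ∧ ∀ i, 0 ≤ d i := by
  obtain ⟨W, d, h1, h2⟩ := HS76.simul_diag hh hq.1
  have h3 : W * (Wᴴ * h) = 1 := mul_eq_one_comm.1 h1
  refine ⟨W, Wᴴ * h, d, h1, by rw [conjTranspose_mul, conjTranspose_conjTranspose, hh.1.eq], ?_,
    dg_psd.1 ?_⟩
  · rw [dg, ← h2]
    calc Q = W * (Wᴴ * h) * Q * (W * (Wᴴ * h)) := by rw [h3, Matrix.mul_one, Matrix.one_mul]
      _ = _ := by simp only [Matrix.mul_assoc]
  · rw [dg, ← h2]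
    exact hq.conjTranspose_mul_mul_same W

theorem deg (d : Fin n → ℝ) :
    (∏ i, (Polynomial.C (d i) * Polynomial.X + Polynomial.C 1)).natDegree =
      (Finset.univ.filter fun i => d i ≠ 0).card := by
  rw [Polynomial.natDegree_prod, Finset.card_filter]
  · refine Finset.sum_congr rfl fun i _ => ?_
    by_cases h : d i = 0
    · simp [h]
    · rw [Polynomial.natDegree_linear h, if_pos h]
  · intro i _ h
    simpa using congrArg (Polynomial.eval 0) h

theorem same {c d : Fin n → ℝ} (h : ∀ s : ℝ, ∏ i, (1 + s * d i) = ∏ i, (1 + s * c i)) :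
    (∀ j, d j ≠ 0 → ∃ i, c i = d j) ∧
      (Finset.univ.filter fun i => d i ≠ 0).card = (Finset.univ.filter fun i => c i ≠ 0).card := by
  refine ⟨fun j hj => ?_, ?_⟩
  · have a := h (-(d j)⁻¹)
    rw [Finset.prod_eq_zero (Finset.mem_univ j) (by field_simp; ring)] at a
    obtain ⟨i, -, hi⟩ := Finset.prod_eq_zero_iff.1 a.symm
    refine ⟨i, ?_⟩
    field_simp at hi
    linarith
  · rw [← deg, ← deg]
    congr 1
    refine Polynomial.funext fun s => ?_
    simp only [Polynomial.eval_prod, Polynomial.eval_add, Polynomial.eval_mul, Polynomial.eval_C,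
      Polynomial.eval_X, mul_comm _ s, add_comm _ (1 : ℝ)]
    exact h s

end R33

open R33

theorem st_RPJ : St_RPJ := by
  intro n M _ h Q hh hQ hp hc
  obtain ⟨x0⟩ : Nonempty M.X := inferInstance
  obtain ⟨W0, V0, c, w1, -, w3, w4⟩ := diag (hh.ev_pos x0) (AllOn.ch hp x0)
  have s1 : 0 < 1 + ∑ i, (c i)⁻¹ :=
    add_pos_of_pos_of_nonneg one_pos (Finset.sum_nonneg fun i _ => inv_nonneg.2 (w4 i))
  have s2 : 0 < 1 + ∑ i, c i := add_pos_of_pos_of_nonneg one_pos (Finset.sum_nonneg fun i _ => w4 i)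
  have key : M.All fun e z => ∃ (W V : Mat n) (d χ : Fin n → ℝ), V * W = 1 ∧ h e z * W = Vᴴ ∧
      Q e z = W * dg d * V ∧ pf (List.ofFn c) (Q e z) = W * dg χ * V ∧
      (Finset.univ.filter fun i => d i ≠ 0).card = (Finset.univ.filter fun i => c i ≠ 0).card ∧
      ∀ i, d i = 0 ∧ χ i = 0 ∨
        d i ≠ 0 ∧ χ i = 1 ∧ (1 + ∑ i, (c i)⁻¹)⁻¹ ≤ d i ∧ d i ≤ 1 + ∑ i, c i := by
    intro e he z hz
    obtain ⟨W, V, d, v1, v2, v3, v4⟩ := diag (hh.pos e he z hz) (hp e he z hz)
    obtain ⟨t1, t2⟩ := same (c := c) (d := d) fun s => by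
      obtain ⟨r, hr⟩ := hc s
      have a := hr e he z hz
      have b := AllOn.ch hr x0
      beta_reduce at a b
      rw [v3, cj_det v1] at a
      rw [w3, cj_det w1] at b
      exact_mod_cast a.trans b.symm
    refine ⟨W, V, d, fun i => ps (List.ofFn c) (d i), v1, v2, v3, by rw [v3, pf_cj v1], t2,
      fun j => ?_⟩
    by_cases hj : d j = 0
    · exact .inl ⟨hj, by simp only [hj, ps_zero]⟩
    · obtain ⟨i, hi⟩ := t1 j hj
      have a := Finset.single_le_sum (fun i _ => inv_nonneg.2 (w4 i)) (Finset.mem_univ i)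
      have b := Finset.single_le_sum (fun i _ => w4 i) (Finset.mem_univ i)
      rw [hi] at a b
      exact .inr ⟨hj, ps_mem hj _ (List.mem_ofFn.2 ⟨i, hi⟩),
        inv_le_of_inv_le₀ ((v4 j).lt_of_ne' hj) (by linarith), by linarith⟩
  have hm : ∀ {g W V : Mat n} (d : Fin n → ℝ), g * W = Vᴴ → g * (W * dg d * V) = Vᴴ * dg d * V :=
    fun d t => by rw [← t]; simp only [Matrix.mul_assoc]
  refine ⟨fun e z => pf (List.ofFn c) (Q e z), (Finset.univ.filter fun i => c i ≠ 0).card,
    (1 + ∑ i, (c i)⁻¹)⁻¹, 1 + ∑ i, c i,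
    ⟨⟨fun e he z hz => (pf_hol (hQ.en.sm e he z hz) (hQ.hol e he z hz) _).1,
      fun e he e' he' x hx hx' => pf_cmp (hQ.en.cmp e he e' he' x hx hx') _⟩,
      fun e he z hz => (pf_hol (hQ.en.sm e he z hz) (hQ.hol e he z hz) _).2, fun e he z hz => ?_⟩,
    (Finset.card_filter_le _ _).trans (by simp), inv_pos.2 s1, s2, fun e he z hz => ?_,
    fun s e he z hz => ?_, fun e he z hz => ?_, fun e he z hz => ?_, fun e he z hz => ?_⟩
  all_goals
    obtain ⟨W, V, d, χ, v1, v2, v3, v4, v5, v6⟩ := key e he z hz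
    rw [v4]
  · rw [hm _ v2]
    refine ((dg_psd.2 fun i => ?_).conjTranspose_mul_mul_same V).1
    rcases v6 i with t | t <;> simp [t]
  · rw [cj_mul v1]
    congr 3
    ext i
    rcases v6 i with t | t <;> simp [t]
  · rw [cj_det v1, ← v5, ← Finset.prod_const, Finset.prod_filter, ofReal_prod]
    refine Finset.prod_congr rfl fun i _ => ?_
    rcases v6 i with t | t <;> simp [t]
  · rw [v3, cj_mul v1, cj_mul v1]
    refine ⟨?_, ?_, W * dg (fun i => (d i)⁻¹) * V, ?_⟩
    · congr 3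
      ext i
      rcases v6 i with t | t <;> simp [t]
    · congr 3
      ext i
      rcases v6 i with t | t <;> simp [t]
    · rw [cj_mul v1]
      congr 3
      ext i
      rcases v6 i with t | t <;> simp [t]
  · have a := cj_lin (W := Vᴴ) (V := V) d χ 1 (-(1 + ∑ i, (c i)⁻¹)⁻¹)
    rw [one_smul, neg_smul, ← sub_eq_add_neg] at a
    rw [v3, hm _ v2, hm _ v2, a]
    refine (dg_psd.2 fun i => ?_).conjTranspose_mul_mul_same V
    rcases v6 i with t | t
    · simp [t]
    · rw [t.2.1]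
      linarith [t.2.2.1]
  · have a := cj_lin (W := Vᴴ) (V := V) χ d (1 + ∑ i, c i) (-1)
    rw [neg_one_smul, ← sub_eq_add_neg] at a
    rw [v3, hm _ v2, hm _ v2, a]
    refine (dg_psd.2 fun i => ?_).conjTranspose_mul_mul_same V
    rcases v6 i with t | t
    · simp [t]
    · rw [t.2.1]
      linarith [t.2.2.2]

end Pool.Agent.Lib.RB
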