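import Pool.Agent.Lib.RB.Blue
import Pool.Agent.Lib.HS32.MAll
import Pool.Agent.Lib.HS76.Mom

/-! The volumes along the iteration. -/

open scoped Classical Topology ContDiff ComplexOrder Matrix
open Set MeasureTheory Complex Metric Filter

noncomputable section

namespace Pool.Agent.Lib.RB

open Pool.Agent.Lib.SV (E)
open Pool.Agent.Lib.HS32

namespace R50

/-- Two-sided bounds for a positive continuous function that vanishes to order `k` at zero. -/
theorem two_sided {V : ℝ → ℝ} {k : ℕ} {c : ℝ} (hV : Continuous V) (hp : ∀ d, 0 < d → 0 < V d)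
    (hc : 0 < c) (hl : Tendsto (fun d => V d / d ^ k) (𝓝[>] 0) (𝓝 c)) :
    ∃ B : ℝ, 1 ≤ B ∧ ∀ d ∈ Ioc (0 : ℝ) 1, d ^ k ≤ B * V d ∧ V d ≤ B * d ^ k := by
  obtain ⟨u, hu, h1⟩ := mem_nhdsGT_iff_exists_Ioc_subset.1
    (hl.eventually (Icc_mem_nhds (half_lt_self hc) (lt_add_one c)))
  have hu0 : 0 < u := hu
  have hf : ContinuousOn (fun d => V d / d ^ k) (Icc u (u + 1)) :=
    hV.continuousOn.div (continuous_pow k).continuousOn fun d hd => (pow_pos (hu0.trans_le hd.1) k).ne'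
  have hne : (Icc u (u + 1)).Nonempty := nonempty_Icc.2 (le_add_of_nonneg_right zero_le_one)
  obtain ⟨a, ha, h2⟩ := isCompact_Icc.exists_isMinOn hne hf
  obtain ⟨b, -, h3⟩ := isCompact_Icc.exists_isMaxOn hne hf
  have ha0 : 0 < a := hu0.trans_le ha.1
  have hm : 0 < min (c / 2) (V a / a ^ k) := lt_min (half_pos hc) (div_pos (hp a ha0) (pow_pos ha0 k))
  refine ⟨max 1 (max (min (c / 2) (V a / a ^ k))⁻¹ (max (c + 1) (V b / b ^ k))), le_max_left _ _,
    fun d hd => ?_⟩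
  have hk := pow_pos hd.1 k
  have h4 : min (c / 2) (V a / a ^ k) ≤ V d / d ^ k ∧ V d / d ^ k ≤ max (c + 1) (V b / b ^ k) := by
    rcases le_total d u with h | h
    · have := h1 ⟨hd.1, h⟩
      exact ⟨(min_le_left _ _).trans this.1, this.2.trans (le_max_left _ _)⟩
    · have hd' : d ∈ Icc u (u + 1) := ⟨h, hd.2.trans (le_add_of_nonneg_left hu0.le)⟩
      exact ⟨(min_le_right _ _).trans (h2 hd'), (h3 hd').trans (le_max_right _ _)⟩
  refine ⟨?_, ?_⟩
  · refine le_trans ?_ (mul_le_mul_of_nonneg_right ((le_max_left _ _).trans (le_max_right _ _))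
      (hp d hd.1).le)
    rw [inv_mul_eq_div, le_div_iff₀ hm, mul_comm]
    exact (le_div_iff₀ hk).1 h4.1
  · exact ((div_le_iff₀ hk).1 h4.2).trans
      (mul_le_mul_of_nonneg_right ((le_max_right _ _).trans (le_max_right _ _)) hk.le)

variable {n : ℕ} {M : Mf n} [M.Cpt] {H : M.Fam (Mat n)}

theorem vol_cont (hH : M.Met H) : Continuous (M.vol H) := by
  obtain ⟨L, -, hI⟩ := HS76.interp_mat n
  have hT := ((mHES n M).2.2.2.2.2.2.2.2.1 H hH).toForm
  have hi : ∀ t : ℝ, Integrable (M.dq H (t • H - M.ric H)) (M.mu H) := fun t =>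
    (mMU n M H hH).2.2.2.2.1 ℝ _
      ((mINV n M H hH).1 _ ((hH.toForm.smul t).sub hT).toTen).2.2.2.1.continuous
  have e : M.vol H = fun t => ∑ a : Fin (n + 1), (L a).eval t * M.vol H ((a : ℝ) + 1) := by
    funext t
    have e1 : ∀ x, M.dq H (t • H - M.ric H) x =
        ∑ a : Fin (n + 1), (L a).eval t * M.dq H (((a : ℝ) + 1) • H - M.ric H) x := fun x => by
      have := hI (M.ev H x) (-M.ev (M.ric H) x) (hH.ev_pos x) (Mf.AllOn.ch hT.herm x).neg t
      simp only [← sub_eq_add_neg] at this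
      exact this
    conv_lhs => rw [Mf.vol]
    simp only [e1]
    rw [integral_finsetSum _ fun a _ => (hi _).const_mul _]
    simp only [integral_const_mul, Mf.vol]
  rw [e]
  exact continuous_finsetSum _ fun a _ => (L a).continuous.mul continuous_const

/-- The volume of `G + t H`. -/
theorem int_dq (hH : M.Kae H) {G : M.Fam (Mat n)} {ε : ℝ} {φ : M.X → ℝ} (hG : M.Kae G)
    (hφ : M.Sm φ) (ha : 2 - 2 * ε ≠ 0) (hc : M.All fun e z => G e z = M.gI H ε φ e z) (t : ℝ) :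
    ∫ x, M.dq G (G + t • H) x ∂M.mu G = (2 - 2 * ε) ^ n * M.vol H ((ε + t) / (2 - 2 * ε)) := by
  have hr := (mHES n M).2.2.2.2.2.2.2.2.1 H hH.toMet
  have a : M.dq H (G + t • H) = M.dq H
      ((2 - 2 * ε) • (((ε + t) / (2 - 2 * ε)) • H - M.ric H) + M.hs φ) :=
    Mf.dq_congr (fun _ _ _ _ => rfl) fun e he z hz => by
      simp only [Pi.add_apply, Pi.smul_apply, Pi.sub_apply, hc e he z hz, Mf.gI, smul_sub,
        smul_smul, mul_div_cancel₀ _ ha, add_smul]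
      abel
  rw [((mMU n M H hH.toMet).2.2.2.2.2.2 _ hG.toMet).2.1]
  simp only [← ((mINV n M H hH.toMet).2.2.2.2.2.2.2 _ hG.toMet).2.2.1 _
    (hG.toForm.add (hH.toForm.smul t))]
  rw [a, mCOH n M H _ φ hH.toMet (((hH.toClo.smul _).sub hr).smul _) hφ]
  simp only [Mf.dq_smul, integral_const_mul, Mf.vol]

theorem vv_eq (hH : M.Kae H) {G : M.Fam (Mat n)} {ε : ℝ} {φ : M.X → ℝ} (hG : M.Kae G)
    (hφ : M.Sm φ) (ha : 2 - 2 * ε ≠ 0) (hc : M.All fun e z => G e z = M.gI H ε φ e z) :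
    M.vv G = (2 - 2 * ε) ^ n * M.vol H (ε / (2 - 2 * ε)) := by
  have a := int_dq hH hG hφ ha hc 0
  simp only [zero_smul, add_zero, hG.toMet.dq_self, integral_const, smul_eq_mul, mul_one] at a
  exact a

end R50

theorem st_RVO : St_RVO := by
  intro n M _ H k hH ho hp
  obtain ⟨-, c, hc, hl⟩ := ho
  obtain ⟨B, hB, hb⟩ := R50.two_sided (R50.vol_cont hH.toMet) hp hc hl
  have k1 : (1 : ℝ) ≤ 2 ^ k := one_le_pow₀ one_le_two
  have n1 : (1 : ℝ) ≤ 2 ^ n := one_le_pow₀ one_le_two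
  have hB0 : 0 < B := one_pos.trans_le hB
  have c1 : 2 ^ k * B ≤ 2 ^ k * B * (2 ^ n * B) :=
    le_mul_of_one_le_right (by positivity) (one_le_mul_of_one_le_of_one_le n1 hB)
  have c2 : 2 ^ n * B ≤ 2 ^ k * B * (2 ^ n * B) :=
    le_mul_of_one_le_left (by positivity) (one_le_mul_of_one_le_of_one_le k1 hB)
  have c3 : B * B ≤ 2 ^ k * B * (2 ^ n * B) :=
    mul_le_mul (le_mul_of_one_le_left hB0.le k1) (le_mul_of_one_le_left hB0.le n1) hB0.le
      (by positivity)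
  refine ⟨2 ^ k * B * (2 ^ n * B), (one_le_mul_of_one_le_of_one_le k1 hB).trans c1,
    fun G ε φ hG hφ hε hcl => ?_⟩
  obtain ⟨e0, e1⟩ := hε
  have a1 : 1 ≤ 2 - 2 * ε := by linarith
  have a2 : 2 - 2 * ε ≤ 2 := by linarith
  have a0 : 0 < 2 - 2 * ε := one_pos.trans_le a1
  have hv := R50.vv_eq hH hG hφ a0.ne' hcl
  have hi := R50.int_dq hH hG hφ a0.ne' hcl
  obtain ⟨a, ha⟩ : ∃ a, a = 2 - 2 * ε := ⟨_, rfl⟩
  rw [← ha] at a1 a2 a0 hv hi
  have d0 : 0 < ε / a := div_pos e0 a0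
  have d1 : ε / a ≤ ε := div_le_self e0.le a1
  have d2 : ε ≤ 2 * (ε / a) := by
    rw [← mul_div_assoc, le_div_iff₀ a0, mul_comm 2 ε]
    exact mul_le_mul_of_nonneg_left a2 e0.le
  obtain ⟨b1, b2⟩ := hb (ε / a) ⟨d0, by linarith⟩
  have v0 := hp _ d0
  have an1 : 1 ≤ a ^ n := one_le_pow₀ a1
  have an2 : a ^ n ≤ 2 ^ n := pow_le_pow_left₀ a0.le a2 n
  refine ⟨?_, ?_, fun s hs h1 => ?_⟩
  · rw [hv]
    calc ε ^ k ≤ (2 * (ε / a)) ^ k := pow_le_pow_left₀ e0.le d2 k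
      _ = 2 ^ k * (ε / a) ^ k := mul_pow _ _ _
      _ ≤ 2 ^ k * (B * M.vol H (ε / a)) := mul_le_mul_of_nonneg_left b1 (by positivity)
      _ = 2 ^ k * B * M.vol H (ε / a) := (mul_assoc _ _ _).symm
      _ ≤ _ := mul_le_mul c1 (le_mul_of_one_le_left v0.le an1) v0.le (by positivity)
  · rw [hv]
    calc a ^ n * M.vol H (ε / a) ≤ 2 ^ n * (B * (ε / a) ^ k) :=
          mul_le_mul an2 b2 v0.le (by positivity)
      _ = 2 ^ n * B * (ε / a) ^ k := (mul_assoc _ _ _).symm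
      _ ≤ _ := mul_le_mul c2 (pow_le_pow_left₀ d0.le d1 k) (by positivity) (by positivity)
  · have e2 : (ε + s * ε) / a = (1 + s) * (ε / a) := by ring
    have s0 : 0 < 1 + s := by linarith
    have d3 : 0 < (1 + s) * (ε / a) := mul_pos s0 d0
    obtain ⟨b3, -⟩ := hb ((1 + s) * (ε / a))
      ⟨d3, (mul_le_mul_of_nonneg_left d1 s0.le).trans h1⟩
    have v1 := hp _ d3
    rw [Mf.mn, hi, hv, e2, mul_div_mul_left _ _ (pow_pos a0 n).ne']
    refine le_trans ?_ (mul_le_mul_of_nonneg_right c3 (div_pos v1 v0).le)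
    rw [← mul_div_assoc, le_div_iff₀ v0, mul_assoc]
    calc (1 + s) ^ k * M.vol H (ε / a) ≤ (1 + s) ^ k * (B * (ε / a) ^ k) :=
          mul_le_mul_of_nonneg_left b2 (by positivity)
      _ = B * ((1 + s) * (ε / a)) ^ k := by rw [mul_pow]; ring
      _ ≤ _ := mul_le_mul_of_nonneg_left b3 hB0.le

end Pool.Agent.Lib.RB
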