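import Pool.Agent.Lib.HS.All
import Pool.Agent.Lib.GH.B_GLIM
import Pool.Agent.Lib.GH.B_GME
import Pool.Agent.Lib.GH.B_GPRD
import Pool.Agent.Lib.GH.B_GT1
import Pool.Agent.Lib.RB.B_RB1
import Pool.Agent.Lib.RB.B_RBR
import Pool.Agent.Lib.RB.B_RC0
import Pool.Agent.Lib.RB.B_RC1
import Pool.Agent.Lib.RB.B_RCH
import Pool.Agent.Lib.RB.B_RCL
import Pool.Agent.Lib.RB.B_RCT
import Pool.Agent.Lib.RB.B_RDB
import Pool.Agent.Lib.RB.B_RDE
import Pool.Agent.Lib.RB.B_RFL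
import Pool.Agent.Lib.RB.B_RIT
import Pool.Agent.Lib.RB.B_RKL
import Pool.Agent.Lib.RB.B_RLO
import Pool.Agent.Lib.RB.B_RLQ
import Pool.Agent.Lib.RB.B_RMN
import Pool.Agent.Lib.RB.B_RNO
import Pool.Agent.Lib.RB.B_RNT
import Pool.Agent.Lib.RB.B_RON
import Pool.Agent.Lib.RB.B_RPA
import Pool.Agent.Lib.RB.B_RPJ
import Pool.Agent.Lib.RB.B_RSQ
import Pool.Agent.Lib.RB.B_RT1
import Pool.Agent.Lib.RB.B_RT2
import Pool.Agent.Lib.RB.B_RTB
import Pool.Agent.Lib.RB.B_RTL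
import Pool.Agent.Lib.RB.B_RVO

/-! Project rb9: assembly of all rows. -/

open scoped Manifold ContDiff

namespace Pool.Agent.Lib.RB

open Pool.Agent.Lib.SV (E Pluri)
open Pool.Agent.Lib.HS32 Pool.Agent.Lib.GH

theorem aRBR : St_RBR :=
  st_RBR
theorem aRCL : St_RCL :=
  st_RCL
theorem aREX : St_REX :=
  st_REX aRCL
theorem aRIT : St_RIT :=
  st_RIT
theorem aRVO : St_RVO :=
  st_RVO
theorem aRDE : St_RDE :=
  st_RDE
theorem aRT1 : St_RT1 :=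
  st_RT1 aRCL
theorem aRCH : St_RCH :=
  st_RCH HS.asRESV
theorem aRT2 : St_RT2 :=
  st_RT2 aRCL aRT1
theorem aRNO : St_RNO :=
  st_RNO HS.asAUBIN
theorem aRC0 : St_RC0 :=
  st_RC0
theorem aRC1 : St_RC1 :=
  st_RC1 aRC0
theorem aRON : St_RON :=
  st_RON
theorem aRSQ : St_RSQ :=
  st_RSQ aRCL aRT1 aRT2 aRCH aRNO aRC0 aRC1 aRON
theorem aRDB : St_RDB :=
  st_RDB aRCL
theorem aRLO : St_RLO :=
  st_RLO aRDB aRCL
theorem aRPA : St_RPA :=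
  st_RPA
theorem aRNT : St_RNT :=
  st_RNT aRCL
theorem aRTB : St_RTB :=
  st_RTB aRCL
theorem aGLIM : St_GLIM :=
  st_GLIM
theorem aGME : St_GME :=
  st_GME
theorem aRLQ : St_RLQ :=
  st_RLQ aGLIM aRCL aRDB aRNT aRTB aGME
theorem aRPJ : St_RPJ :=
  st_RPJ
theorem aRMN : St_RMN :=
  st_RMN aRDB
theorem aRKL : St_RKL :=
  st_RKL aRVO aRMN aRPA
theorem aRFL : St_RFL :=
  st_RFL
theorem aRCT : St_RCT :=
  st_RCT
theorem aRB1 : St_RB1 :=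
  st_RB1 aRMN aRCT aRPA
theorem aRTL : St_RTL :=
  st_RTL aRCL
theorem aGT1 : St_GT1 :=
  st_GT1
theorem aGPRD : St_GPRD :=
  st_GPRD

/-- A compact Kähler manifold with a Hermitian metric of non-positive real bisectional curvature
has a semi-ample canonical bundle. -/
theorem main (n : ℕ) (X : Type) [TopologicalSpace X] [ChartedSpace (E n) X]
    [IsManifold 𝓘(ℂ, E n) ω X] [CompactSpace X] [T2Space X] [ConnectedSpace X] (g h : X → Mat n)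
    (hg : Kaehler g) (hh : Hermitian h) (hc : RbcNonpos h) :
    ∃ m : ℕ, 0 < m ∧ ∀ x : X, ∃ s ∈ Pluri n X m, s x ≠ 0 :=
  main_of aRBR aRTL (fun M _ _ _ => fl1_of HS.asVOL aREX aRIT aRDE aRSQ aRDB aRLO HS.asGLUE aRPA
    aRLQ aRPJ aRKL aRFL aGT1 aGPRD aRB1 M) n X g h hg hh hc

end Pool.Agent.Lib.RB
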