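import Pool.Agent.Lib.RB.SDefs
import Pool.Agent.Lib.GH.Blue

/-! Project rb9: the objects. -/

open scoped Classical Topology ContDiff ComplexOrder Matrix
open Set MeasureTheory Complex Metric Filter

set_option linter.unusedVariables false

noncomputable section

namespace Pool.Agent.Lib.HS32

open Pool.Agent.Lib.SV (E)

/-- Minus the curvature tensor contracted twice with `ξ`. -/
def qx {n : ℕ} (h : E n → Mat n) (ξ : Mat n) (z : E n) : ℂ :=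
  -∑ k, ∑ l, ξ k l * (ξ * h z * th h k l z).trace

namespace Mf

variable {n : ℕ} (M : Mf n)

/-- Non-positive real bisectional curvature. -/
def Rbc (h : M.Fam (Mat n)) : Prop :=
  M.All fun e z => ∀ ξ : Mat n, ξ.PosSemidef → 0 ≤ (qx (h e) ξ z).re

/-- The sum of the gradient term and of the curvature term in the identity of Chern and Lu. -/
def yT (G h : M.Fam (Mat n)) (x : M.X) : ℝ := M.lap G (M.tr G h) x - M.ip G h (M.ric G) x

/-- The total volume. -/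
def vv (G : M.Fam (Mat n)) : ℝ := (M.mu G).real univ

/-- The mean value. -/
def mn (G : M.Fam (Mat n)) (f : M.X → ℝ) : ℝ := (∫ x, f x ∂M.mu G) / M.vv G

/-- The form `ε H - (2 - 2 ε) Ric H + hess φ`. -/
def gI (H : M.Fam (Mat n)) (ε : ℝ) (φ : M.X → ℝ) : M.Fam (Mat n) :=
  ε • H - (2 - 2 * ε) • M.ric H + M.hs φ

/-- The field `ε G⁻¹ h`. -/
def qE (G h : M.Fam (Mat n)) (ε : ℝ) : M.Fam (Mat n) := fun e z => ε • ((G e z)⁻¹ * h e z)

/-- The iteration. -/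
structure It0 (H : M.Fam (Mat n)) (g : ℕ → M.Fam (Mat n)) (u p : ℕ → M.X → ℝ) : Prop where
  kae : ∀ j, M.Kae (g j)
  su : ∀ j, M.Sm (u j)
  sp : ∀ j, M.Sm (p j)
  det : ∀ j x, M.dq H (g j) x = Real.exp (u j x)
  stp : ∀ j, M.All fun e z =>
    g (j + 1) e z = (1 / 2 : ℝ) • g j e z - M.ric H e z + M.hs (u (j + 1)) e z
  ps : ∀ j x, p (j + 1) x = p j x / 2 + u (j + 1) x
  cls : ∀ j, M.All fun e z => g j e z = M.gI H ((1 / 2) ^ j) (p j) e z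
  ric : ∀ j, M.All fun e z => M.ric (g (j + 1)) e z = (1 / 2 : ℝ) • g j e z - g (j + 1) e z

/-- The iteration with the bounds for the densities. -/
structure It (H : M.Fam (Mat n)) (k : ℕ) (C : ℝ) (g : ℕ → M.Fam (Mat n)) (φ : ℕ → M.X → ℝ) :
    Prop where
  one : 1 ≤ C
  kae : ∀ j, M.Kae (g j)
  ric : ∀ j, M.All fun e z => M.ric (g (j + 1)) e z = (1 / 2 : ℝ) • g j e z - g (j + 1) e z
  sm : ∀ j, M.Sm (φ j)
  np : ∀ j x, φ j x ≤ 0
  zer : ∀ j, ∃ x, φ j x = 0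
  cls : ∀ j, M.All fun e z => g j e z = M.gI H ((1 / 2) ^ j) (φ j) e z
  le : ∀ j, M.Le (g j) (C • H + M.hs (φ j))
  vol : ∀ j, ((1 / 2 : ℝ) ^ j) ^ k ≤ C * M.vv (g j)
  up : ∀ j x, M.dq H (g j) x ≤ C * M.vv (g j)
  low : ∀ j x, Real.exp (φ j x) * M.vv (g j) ≤ C * M.dq H (g j) x
  trc : ∀ j, ∫ x, M.tr H (g j) x ∂M.mu H ≤ C

/-- The backward chain of probability densities. -/
structure Cn (g : ℕ → M.Fam (Mat n)) (J : ℕ) (r : ℕ → M.X → ℝ) : Prop where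
  last : ∀ x, r J x = 1
  sm : ∀ j, M.Sm (r j)
  pos : ∀ j x, 0 < r j x
  one : ∀ j ≤ J, M.mn (g (j + 1)) (r j) = 1
  sub : ∀ j < J, ∀ x, M.lap (g (j + 1)) (r j) x ≤ r j x
  dual : ∀ j < J, ∀ f, M.Sm f → M.mn (g (j + 1)) (fun x => r j x * (f x - M.lap (g (j + 1)) f x)) =
    M.mn (g (j + 2)) fun x => r (j + 1) x * f x

/-- The good sequence of metrics and cut-off functions. -/
structure Gs (H h : M.Fam (Mat n)) (k : ℕ) (C : ℝ) (g : ℕ → M.Fam (Mat n)) (ε : ℕ → ℝ)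
    (φ f : ℕ → M.X → ℝ) : Prop where
  one : 1 ≤ C
  kae : ∀ i, M.Kae (g i)
  eps : ∀ i, ε i ∈ Ioc (0 : ℝ) (1 / 2)
  e0 : Tendsto ε atTop (𝓝 0)
  sm : ∀ i, M.Sm (φ i)
  cls : ∀ i, M.All fun e z => g i e z = M.gI H (ε i) (φ i) e z
  vol : ∀ i, ε i ^ k ≤ C * M.vv (g i)
  up : ∀ i x, M.dq H (g i) x ≤ C * M.vv (g i)
  trc : ∀ i, ∫ x, M.tr H (g i) x ∂M.mu H ≤ C
  sb : ∀ i x, ε i * M.tr (g i) h x ≤ C
  fs : ∀ i, M.Sm (f i)
  f01 : ∀ i x, 0 ≤ f i x ∧ f i x ≤ 1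
  f1 : Tendsto (fun i => ∫ x, (1 - f i x) ∂M.mu H) atTop (𝓝 0)
  df : Tendsto (fun i => ∫ x, √(M.gr H (f i) (f i) x) ∂M.mu H) atTop (𝓝 0)
  fy : Tendsto (fun i => ∫ x, f i x * (ε i * M.yT (g i) h x) ∂M.mu H) atTop (𝓝 0)

/-- `P` is the projection on the image of `Q`. -/
structure Pj (h Q P : M.Fam (Mat n)) (k : ℕ) (a b : ℝ) : Prop extends M.HolSA h P where
  le : k ≤ n
  a0 : 0 < a
  b0 : 0 < b
  idem : M.All fun e z => P e z * P e z = P e z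
  det : ∀ s : ℝ, M.All fun e z => (1 + s • P e z).det = ((1 + s : ℝ) : ℂ) ^ k
  pq : M.All fun e z => P e z * Q e z = Q e z ∧ Q e z * P e z = Q e z ∧ ∃ R, P e z = Q e z * R
  lo : M.All fun e z => (h e z * Q e z - a • (h e z * P e z)).PosSemidef
  hi : M.All fun e z => (b • (h e z * P e z) - h e z * Q e z).PosSemidef

end Mf

end Pool.Agent.Lib.HS32
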