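import Pool.Agent.Lib.RB.TDefs
import Pool.Agent.Lib.GH.B_GPRD
import Pool.Agent.Lib.GH.B_GKE
import Pool.Agent.Lib.HS76.Mom

/-! Project rb9: from the flat field to the semi-ampleness. -/

open scoped Classical Topology ContDiff ComplexOrder Matrix
open Set MeasureTheory Complex Metric Filter

noncomputable section

namespace Pool.Agent.Lib.RB

open Pool.Agent.Lib.SV (E)
open Pool.Agent.Lib.HS32 Pool.Agent.Lib.HS32.Mf Pool.Agent.Lib.GH

variable {n : ℕ} {M : Mf n} [M.Cpt] {H h B P : M.Fam (Mat n)} {k : ℕ}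

/-- The volume depends continuously on the class. -/
theorem vol_cont (hH : M.Met H) {T : M.Fam (Mat n)} (hT : M.Form T) :
    Continuous fun t : ℝ => ∫ x, M.dq H (t • H + T) x ∂M.mu H := by
  obtain ⟨L, -, hI⟩ := HS76.interp_mat n
  have hi : ∀ t : ℝ, Integrable (M.dq H (t • H + T)) (M.mu H) := fun t =>
    (mMU n M H hH).2.2.2.2.1 ℝ _
      ((mINV n M H hH).1 _ ((hH.toForm.smul t).add hT).toTen).2.2.2.1.continuous
  have e : (fun t : ℝ => ∫ x, M.dq H (t • H + T) x ∂M.mu H) = fun t => ∑ a : Fin (n + 1),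
      (L a).eval t * ∫ x, M.dq H (((a : ℝ) + 1) • H + T) x ∂M.mu H := by
    funext t
    have e1 : ∀ x, M.dq H (t • H + T) x =
        ∑ a : Fin (n + 1), (L a).eval t * M.dq H (((a : ℝ) + 1) • H + T) x := fun x =>
      hI (M.ev H x) (M.ev T x) (hH.ev_pos x) (AllOn.ch hT.herm x) t
    simp only [e1]
    rw [integral_finsetSum _ fun a _ => (hi _).const_mul _]
    simp only [integral_const_mul]
  rw [e]
  exact continuous_finsetSum _ fun a _ => (L a).continuous.mul continuous_const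

/-- The volumes of the twisted classes are bounded above and below. -/
theorem big (hH : M.Kae H) (hh : M.Met h) (hB : M.Clo B)
    (hex : ∀ ε : ℝ, 0 < ε → ∃ u, M.SolB H B ε u)
    (hv : 0 < ∫ x, M.dq H (B - M.ric h) x ∂M.mu H) : ∃ c C : ℝ, 0 < c ∧
    ∀ ε ∈ Ioc (0 : ℝ) 1, ∀ u, M.SolB H B ε u → c ≤ (M.mu (M.gB H B ε u)).real univ ∧
      ∫ x, M.dq (M.gB H B ε u) (M.gB H B ε u + H) x ∂M.mu (M.gB H B ε u) ≤ C := by
  have hr := hB.sub ((mHES n M).2.2.2.2.2.2.2.2.1 H hH.toMet)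
  have hc := vol_cont hH.toMet hr.toForm
  obtain ⟨V, hV⟩ : ∃ V : ℝ → ℝ, ∀ t, V t = ∫ x, M.dq H (t • H + (B - M.ric H)) x ∂M.mu H :=
    ⟨_, fun _ => rfl⟩
  rw [← funext hV] at hc
  have e1 : ∀ ε u, M.SolB H B ε u → ∀ s : ℝ, 0 ≤ s →
      ∫ x, M.dq (M.gB H B ε u) (M.gB H B ε u + s • H) x ∂M.mu (M.gB H B ε u) = V (ε + s) := by
    intro ε u hu s hs
    have a : M.gB H B ε u + s • H = (ε + s) • H + (B - M.ric H) + M.hs u := by
      simp only [Mf.gB, add_smul]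
      abel
    rw [((mMU n M H hH.toMet).2.2.2.2.2.2 _ hu.kae.toMet).2.1, hV,
      ← mCOH n M H _ u hH.toMet ((hH.toClo.smul _).add hr) hu.sm, ← a]
    simp only [← ((mINV n M H hH.toMet).2.2.2.2.2.2.2 _ hu.kae.toMet).2.2.1 _
      (hu.kae.toForm.add (hH.toForm.smul s))]
  have e2 : ∀ ε u, M.SolB H B ε u → (M.mu (M.gB H B ε u)).real univ = V ε := fun ε u hu => by
    have a := e1 ε u hu 0 le_rfl
    simp only [zero_smul, add_zero, hu.kae.toMet.dq_self, integral_const, smul_eq_mul,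
      mul_one] at a
    exact a
  have e3 : 0 < V 0 := by
    obtain ⟨a, b⟩ := (mHES n M).2.2.2.2.2.2.2.2.2 h H hh hH.toMet
    rw [hV, ← mCOH n M H _ _ hH.toMet ((hH.toClo.smul _).add hr) a,
      dq_congr (G' := H) (T' := B - M.ric h) (fun _ _ _ _ => rfl) fun e he z hz => by
        simp only [Pi.add_apply, Pi.sub_apply, zero_smul, zero_add]
        rw [b e he z hz]
        abel]
    exact hv
  obtain ⟨a, ha, h1⟩ := (isCompact_Icc (a := (0 : ℝ)) (b := 1)).exists_isMinOn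
    ⟨0, left_mem_Icc.2 zero_le_one⟩ hc.continuousOn
  obtain ⟨b, -, h2⟩ := (isCompact_Icc (a := (0 : ℝ)) (b := 2)).exists_isMaxOn
    ⟨0, left_mem_Icc.2 zero_le_two⟩ hc.continuousOn
  refine ⟨V a, V b, ?_, fun ε hε u hu => ⟨?_, ?_⟩⟩
  · rcases ha.1.eq_or_lt with rfl | h0
    · exact e3
    · obtain ⟨u, hu⟩ := hex a h0
      exact e2 a u hu ▸ (mMU n M _ hu.kae.toMet).2.2.2.1
  · rw [e2 ε u hu]
    exact h1 (Ioc_subset_Icc_self hε)
  · have a := e1 ε u hu 1 zero_le_one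
    rw [one_smul] at a
    rw [a]
    exact h2 ⟨by linarith [hε.1], by linarith [hε.2]⟩

/-- The last steps. -/
theorem tail (hA : HS.St_AUBIN) (hSM : St_TSM) (h4 : HS.St_SEC4) (h5 : HS.St_PEAK) (hn : 0 < n)
    (hH : M.Kae H) (hh : M.Met h) (hc : M.CLh h) (hf : M.Fl1 h P k)
    (hv : 0 < ∫ x, M.dq H (h * P - M.ric h) x ∂M.mu H) : M.Semi := by
  obtain ⟨a1, a2, a3, -, a4⟩ := st_GPRD n M h P k hh hf
  have hex : ∀ ε : ℝ, 0 < ε → ∃ u, M.SolB H (h * P) ε u := fun ε hε => by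
    have a := (hH.toClo.smul ε).add a2
    obtain ⟨u, u1, u2, u3⟩ := nef hA hn hH hh hc (ε • H + h * P) ⟨a, ((hH.toMet.smul hε).of_le
      a.toForm (by simpa only [add_zero] using (Le.refl (ε • H)).add a3)).pos⟩
    exact ⟨u, u1, u2, u3⟩
  obtain ⟨c, C, hc0, hb⟩ := big hH hh a2 hex hv
  obtain ⟨ε, h1, hε⟩ :=
    ((hSM n M H h _ c C hn hH hh hc a2 a3 hc0 hb).and self_mem_nhdsWithin).exists
  obtain ⟨u, hu⟩ := hex ε hε
  obtain ⟨v, v1, v2, v3⟩ := stGKE hA n M H h _ ε u hn hH hh a2 hε hu (h1 u hu)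
  have v4 := st_GUT' n M h P k v hh hf a1 v1 v2 v3
  obtain ⟨G, hG⟩ := st_GPOS' n M h P k v hh hf a1 v1 v2 v3 fun e he z hz => by
    simp only [Mf.theta, Pi.sub_apply]
    rw [sub_mul, v4 e he z hz, a4 e he z hz, sub_self]
  exact h5 n M _ _ hn hG.kH hG.sm hG.psd (h4 n M _ P G k _ hn hG)

end Pool.Agent.Lib.RB
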