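import Pool.Agent.Lib.RB.Blue
import Pool.Agent.Lib.RB.TAll

/-! Project rb9: existence and the last steps. -/

open scoped ComplexOrder Matrix

namespace Pool.Agent.Lib.RB

open Pool.Agent.Lib.HS32 Pool.Agent.Lib.HS32.Mf

theorem clh_of (hCL : St_RCL) {n : ℕ} {M : Mf n} {h : M.Fam (Mat n)} (hn : 0 < n) (hh : M.Met h)
    (hr : M.Rbc h) : M.CLh h := fun G hG =>
  let a := hCL n M G h hG hh
  ⟨a.1, a.2.2.1 hn, (a.2.2.2.2 hr).2.2 hn⟩

theorem st_REX (hCL : St_RCL) : St_REX := by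
  intro n M _ H h hn hH hh hr
  have hc := clh_of hCL hn hh hr
  refine ⟨sol_ex hn hH hh hc, fun B hB h0 ε hε => ?_⟩
  have a := (hH.toClo.smul ε).add hB
  obtain ⟨u, u1, u2, u3⟩ := nef HS.asAUBIN hn hH hh hc (ε • H + B) ⟨a, ((hH.toMet.smul hε).of_le
    a.toForm (by simpa only [add_zero] using (Le.refl (ε • H)).add h0)).pos⟩
  exact ⟨u, u1, u2, u3⟩

theorem st_RTL (hCL : St_RCL) : St_RTL := fun _ _ _ _ _ _ _ hn hH hh hr hf hv =>
  semi_of_flat hn hH hh (clh_of hCL hn hh hr) hf.toFl0 hf.t2 hv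

end Pool.Agent.Lib.RB
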