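import Pool.Agent.Lib.RB.B_RBR
import Pool.Agent.Lib.HS68.Fun
import Pool.Agent.Lib.HS76.Pt

/-! Project rb9: the two classical cases of the hypothesis. -/

open scoped Classical Topology ContDiff ComplexOrder Matrix Manifold
open Set Complex Filter

noncomputable section

namespace Pool.Agent.Lib.RB

open Pool.Agent.Lib.SV (E)
open Pool.Agent.Lib.HS32 Pool.Agent.Lib.GH Pool.Agent.Lib.HS.BBR R32

variable {n : ℕ} {X : Type} [TopologicalSpace X] [ChartedSpace (E n) X] {h : X → Mat n}

/-- Non-positive curvature in the sense of Griffiths. -/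
theorem rbc_of_griffiths (hc : ∀ x a v, curvAt h x a v ≤ 0) : RbcNonpos h :=
  fun x _ _ _ ha => Finset.sum_nonpos fun i _ => Finset.sum_nonpos fun j _ =>
    mul_nonpos_of_nonneg_of_nonpos (mul_nonneg (ha i) (ha j)) (hc x _ _)

/-- Kähler metrics with non-positive holomorphic sectional curvature. -/
theorem rbc_of_hsc [IsManifold 𝓘(ℂ, E n) ω X] (hh : HS.KaehlerNonpos h) :
    Kaehler h ∧ RbcNonpos h := by
  have hk : Kaehler h := ⟨⟨hh.pos, hh.smooth⟩, hh.closed⟩
  refine ⟨hk, fun x w a _ ha => ?_⟩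
  obtain ⟨m, k, -⟩ := fam_ok hk.toHermitian
  let e : (mf n X).Ch := chartAt (M := X) (E n) x
  have he : e ∈ (mf n X).C := fun y => ⟨cp_chart (X := X) x y, cp_chart (X := X) y x⟩
  have hz : e x ∈ e.target := e.map_source (mem_chart_source (M := X) (E n) x)
  have l := HS68.met_loc m he hz
  have kl := HS68.clo_kl (⟨m.toForm, k hk⟩ : (mf n X).Clo (fam h)) he hz
  have p : (∑ i, a i • Matrix.vecMulVec (w i) (star (w i))).PosSemidef :=
    Matrix.posSemidef_sum _ fun i _ => (Matrix.posSemidef_vecMulVec_self_star (w i)).smul (ha i)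
  have r := HS76.royden_fam (N := fun k l => fam h e (e x) * th (fam h e) k l (e x))
    (l.mul_th_symm kl) (l.mul_th_symm' kl)
    (fun v => (congrArg re (rm_eq l.sm l.det_ne v)).trans_le (hh.nonpos x v)) p
  have q := qx_eq (T := fam h e) (z := e x) (w := w) (a := a)
    (ξ := ∑ i, a i • Matrix.vecMulVec (w i) (star (w i))) fun k l => by
      simp only [Matrix.sum_apply, Matrix.smul_apply, Matrix.vecMulVec_apply, Pi.star_apply,
        real_smul]
  simp only [qx, neg_re, neg_inj, Matrix.mul_assoc, rm_curv l.sm l.det_ne] at q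
  exact q.symm.trans_le r

end Pool.Agent.Lib.RB
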