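import Pool.Agent.Lib.RB.Nef

/-! Project rb9: statements of the last steps. -/

open scoped Classical Topology ContDiff ComplexOrder Matrix
open Set MeasureTheory Complex Metric Filter

noncomputable section

namespace Pool.Agent.Lib.RB

open Pool.Agent.Lib.SV (E)
open Pool.Agent.Lib.HS32

/-- The Schwarz lemma and polynomial bounds for the twisted equation. -/
def St_TSB : Prop := ∀ (n : ℕ) (M : Mf n) [M.Cpt] (H h B : M.Fam (Mat n)), 0 < n → M.Kae H →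
  M.Met h → M.CLh h → M.Clo B → M.Le 0 B → ∃ C : ℝ, 1 ≤ C ∧ ∀ ε ∈ Ioc (0 : ℝ) 1, ∀ u,
    M.SolB H B ε u →
    (M.All fun e z => M.ric (M.gB H B ε u) e z = ε • H e z + B e z - M.gB H B ε u e z) ∧
    (∀ x, -1 ≤ M.lap (M.gB H B ε u) (fun y => Real.log (M.tr (M.gB H B ε u) h y)) x) ∧
    M.Le ((ε / C) • H) (M.gB H B ε u) ∧ M.Le (M.gB H B ε u) ((C * ε⁻¹ ^ n) • H) ∧
    (∀ x, n * Real.log (ε / C) ≤ u x ∧ u x ≤ C) ∧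
    ∀ f : M.X → ℝ, ∫ x, f x ∂M.mu (M.gB H B ε u) = ∫ x, f x * Real.exp (u x) ∂M.mu H

/-- Polynomial bound for the gradient of the trace. -/
def St_TGR : Prop := ∀ (n : ℕ) (M : Mf n) [M.Cpt] (H h B : M.Fam (Mat n)), 0 < n → M.Kae H →
  M.Met h → M.CLh h → M.Clo B → M.Le 0 B → ∃ (C : ℝ) (N : ℕ), 1 ≤ C ∧ ∀ ε ∈ Ioc (0 : ℝ) 1, ∀ u,
    M.SolB H B ε u → ∀ x, M.gr H (M.tr (M.gB H B ε u) h) (M.tr (M.gB H B ε u) h) x ≤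
      (C * ε⁻¹ ^ N) ^ 2

/-- The trace is small. -/
def St_TSM : Prop := ∀ (n : ℕ) (M : Mf n) [M.Cpt] (H h B : M.Fam (Mat n)) (c C : ℝ), 0 < n →
  M.Kae H → M.Met h → M.CLh h → M.Clo B → M.Le 0 B → 0 < c →
  (∀ ε ∈ Ioc (0 : ℝ) 1, ∀ u, M.SolB H B ε u → c ≤ (M.mu (M.gB H B ε u)).real univ ∧
    ∫ x, M.dq (M.gB H B ε u) (M.gB H B ε u + H) x ∂M.mu (M.gB H B ε u) ≤ C) →
  ∀ᶠ ε in 𝓝[>] (0 : ℝ), ∀ u, M.SolB H B ε u → ∀ x, ε * M.tr (M.gB H B ε u) H x < 1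

end Pool.Agent.Lib.RB
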